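import Mathlib

/-!
STRICT NEWMAN - PIZA (row 649), leaf (g2): from the doubling `2 b (2 ^ i) ≤ b (2 ^ (i + T))` at the powers of two and
the comparison `m b m ≤ 2 n b n` to the power growth `c (n / m) ^ c b m ≤ b n` for all `n1 ≤ m ≤ n`. Pure.
-/

namespace Pool.Agent.W_7d29a1_NP

private theorem iter {b : ℕ → ℝ} {T i2 : ℕ} (hT : ∀ i, i2 ≤ i → 2 * b (2 ^ i) ≤ b (2 ^ (i + T))) (i : ℕ) (hi : i2 ≤ i)
    (k : ℕ) : 2 ^ k * b (2 ^ i) ≤ b (2 ^ (i + k * T)) := by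
  induction k with
  | zero => simp
  | succ k ih =>
    have h1 := hT (i + k * T) (by omega)
    have h2 : i + (k + 1) * T = i + k * T + T := by ring
    rw [h2, pow_succ]
    nlinarith [h1, ih]

/-- Power growth from the doubling at the powers of two. -/
theorem rec_final {b : ℕ → ℝ} (hb : ∀ n, 1 ≤ n → 0 < b n) {n0 : ℕ}
    (hcomp : ∀ m n, n0 ≤ m → m ≤ n → (m : ℝ) * b m ≤ 2 * (n * b n)) {T i2 : ℕ} (hT1 : 1 ≤ T)
    (hT : ∀ i, i2 ≤ i → 2 * b (2 ^ i) ≤ b (2 ^ (i + T))) :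
    ∃ c : ℝ, 0 < c ∧ ∃ n1 : ℕ, 1 ≤ n1 ∧ ∀ m n : ℕ, n1 ≤ m → m ≤ n → c * ((n : ℝ) / m) ^ c * b m ≤ b n := by
  have hTR : (1 : ℝ) ≤ T := by exact_mod_cast hT1
  obtain ⟨c, hc⟩ : ∃ c : ℝ, c = 1 / 2 ^ (T + 6) := ⟨_, rfl⟩
  have hc0 : 0 < c := by rw [hc]; positivity
  have hcT : c ≤ 1 / T := by
    rw [hc]
    refine one_div_le_one_div_of_le (by linarith) ?_
    have h1 : (T : ℝ) < 2 ^ T := by exact_mod_cast Nat.lt_two_pow_self
    have h2 : (2 : ℝ) ^ T ≤ 2 ^ (T + 6) := pow_le_pow_right₀ (by norm_num) (by omega)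
    linarith
  have hc8 : c ≤ 1 / 64 := by
    rw [hc]
    refine one_div_le_one_div_of_le (by norm_num) ?_
    have h2 : (2 : ℝ) ^ 6 ≤ 2 ^ (T + 6) := pow_le_pow_right₀ (by norm_num) (by omega)
    linarith [show (2 : ℝ) ^ 6 = 64 by norm_num]
  refine ⟨c, hc0, max (max n0 (2 ^ i2)) 1, le_max_right _ _, ?_⟩
  intro m n hm hmn
  have hm0 : n0 ≤ m := (le_max_left _ _).trans ((le_max_left _ _).trans hm)
  have hmi : 2 ^ i2 ≤ m := (le_max_right _ _).trans ((le_max_left _ _).trans hm)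
  have hm1 : 1 ≤ m := (le_max_right _ _).trans hm
  have hn1 : 1 ≤ n := hm1.trans hmn
  have hmR : (1 : ℝ) ≤ m := by exact_mod_cast hm1
  have hnR : (1 : ℝ) ≤ n := by exact_mod_cast hn1
  have hmnR : (m : ℝ) ≤ n := by exact_mod_cast hmn
  have hbm := hb m hm1
  have hbn := hb n hn1
  -- the power of two above `m`
  obtain ⟨i, hi⟩ : ∃ i, i = Nat.clog 2 m := ⟨_, rfl⟩
  have hmi1 : m ≤ 2 ^ i := by rw [hi]; exact Nat.le_pow_clog (by norm_num) m
  have hmi2 : 2 ^ i < 2 * m := by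
    rcases Nat.eq_or_lt_of_le hm1 with h | h
    · rw [hi, ← h]
      simp
    · have h1 : 2 ^ (Nat.clog 2 m).pred < m := Nat.pow_pred_clog_lt_self (by norm_num) h
      have h2 : 0 < Nat.clog 2 m := Nat.clog_pos (by norm_num) h
      rw [hi]
      have h3 : Nat.clog 2 m = (Nat.clog 2 m).pred + 1 := by rw [Nat.pred_eq_sub_one]; omega
      rw [h3, pow_succ]
      omega
  have hii : i2 ≤ i := by
    have : 2 ^ i2 ≤ 2 ^ i := hmi.trans hmi1
    exact (Nat.pow_le_pow_iff_right (by norm_num)).1 this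
  have hmi1R : (m : ℝ) ≤ 2 ^ i := by exact_mod_cast hmi1
  have hmi2R : (2 : ℝ) ^ i < 2 * m := by exact_mod_cast hmi2
  have hratio : (1 : ℝ) ≤ n / m := by rw [le_div_iff₀ (by linarith)]; linarith
  rcases lt_or_ge n (2 ^ i) with hn | hn
  · -- `n < 2 ^ i < 2 m`
    have hnR2 : (n : ℝ) < 2 * m := by
      have : (n : ℝ) < 2 ^ i := by exact_mod_cast hn
      linarith
    have h1 := hcomp m n hm0 hmn
    have h2 : b m ≤ 4 * b n := by
      have h3 : (n : ℝ) * b n ≤ 2 * m * b n := by nlinarith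
      have h4 : (m : ℝ) * b m ≤ m * (4 * b n) := by linarith
      exact le_of_mul_le_mul_left h4 (by linarith)
    have h3 : ((n : ℝ) / m) ^ c ≤ 2 := by
      have h4 : (n : ℝ) / m ≤ 2 := by rw [div_le_iff₀ (by linarith)]; linarith
      calc ((n : ℝ) / m) ^ c ≤ ((n : ℝ) / m) ^ (1 : ℝ) := Real.rpow_le_rpow_of_exponent_le hratio (by linarith)
        _ = (n : ℝ) / m := Real.rpow_one _
        _ ≤ 2 := h4
    have h5 : c * ((n : ℝ) / m) ^ c ≤ 1 / 64 * 2 := mul_le_mul hc8 h3 (by positivity) (by norm_num)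
    have h6 : c * ((n : ℝ) / m) ^ c * b m ≤ 1 / 64 * 2 * b m := mul_le_mul_of_nonneg_right h5 hbm.le
    linarith
  · -- the power of two below `n`
    obtain ⟨l, hl⟩ : ∃ l, l = Nat.log 2 n := ⟨_, rfl⟩
    have hln : 2 ^ l ≤ n := by rw [hl]; exact Nat.pow_log_le_self 2 (by omega)
    have hln2 : n < 2 ^ (l + 1) := by rw [hl]; exact Nat.lt_pow_succ_log_self (by norm_num) n
    have hil : i ≤ l := by rw [hl]; exact Nat.le_log_of_pow_le (by norm_num) hn
    obtain ⟨k, hk⟩ : ∃ k, k = (l - i) / T := ⟨_, rfl⟩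
    have hk1 : k * T ≤ l - i := by rw [hk]; exact Nat.div_mul_le_self _ _
    have hk2 : l - i < (k + 1) * T := by
      rw [hk, mul_comm]
      exact Nat.lt_mul_div_succ _ (by omega)
    have hk3 : i + k * T ≤ l := by omega
    have hk4 : l + 1 ≤ i + k * T + T := by
      have : (k + 1) * T = k * T + T := by ring
      omega
    have hA : 2 ^ (i + k * T) ≤ n := (Nat.pow_le_pow_right (by norm_num) hk3).trans hln
    have hAR : (n : ℝ) ≤ 2 ^ T * 2 ^ (i + k * T) := by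
      have h1 : (n : ℝ) ≤ 2 ^ (l + 1) := by exact_mod_cast hln2.le
      have h2 : (2 : ℝ) ^ (l + 1) ≤ 2 ^ (i + k * T + T) := pow_le_pow_right₀ (by norm_num) hk4
      calc (n : ℝ) ≤ 2 ^ (i + k * T + T) := h1.trans h2
        _ = 2 ^ T * 2 ^ (i + k * T) := by rw [pow_add _ (i + k * T) T]; ring
    have hiter := iter hT i hii k
    have c1 := hcomp m (2 ^ i) hm0 hmi1
    have hn0i : n0 ≤ 2 ^ (i + k * T) :=
      hm0.trans (hmi1.trans (Nat.pow_le_pow_right (by norm_num) (by omega)))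
    have c2 := hcomp (2 ^ (i + k * T)) n hn0i hA
    push_cast at c1 c2
    have hb1 : 0 < b (2 ^ i) := hb _ (Nat.one_le_two_pow)
    have hb2 : 0 < b (2 ^ (i + k * T)) := hb _ (Nat.one_le_two_pow)
    -- `b m ≤ 4 b (2 ^ i)`
    have d1 : b m ≤ 4 * b (2 ^ i) := by
      have h3 : (2 : ℝ) ^ i * b (2 ^ i) ≤ 2 * m * b (2 ^ i) := by nlinarith
      have h4 : (m : ℝ) * b m ≤ m * (4 * b (2 ^ i)) := by linarith
      exact le_of_mul_le_mul_left h4 (by linarith)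
    -- `b (2 ^ (i + k T)) ≤ 2 ^ (T + 1) b n`
    have d2 : b (2 ^ (i + k * T)) ≤ 2 * 2 ^ T * b n := by
      have hp : (0 : ℝ) < 2 ^ (i + k * T) := by positivity
      have h3 : (n : ℝ) * b n ≤ 2 ^ T * 2 ^ (i + k * T) * b n := mul_le_mul_of_nonneg_right hAR hbn.le
      have h4 : (2 : ℝ) ^ (i + k * T) * b (2 ^ (i + k * T)) ≤ 2 ^ (i + k * T) * (2 * 2 ^ T * b n) := by
        calc (2 : ℝ) ^ (i + k * T) * b (2 ^ (i + k * T)) ≤ 2 * (n * b n) := c2
          _ ≤ 2 * (2 ^ T * 2 ^ (i + k * T) * b n) := by linarith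
          _ = 2 ^ (i + k * T) * (2 * 2 ^ T * b n) := by ring
      exact le_of_mul_le_mul_left h4 hp
    -- the ratio
    have d3 : ((n : ℝ) / m) ^ c ≤ 2 ^ (k + 3) := by
      have h1 : (n : ℝ) / m ≤ 2 ^ (T * (k + 1) + 2) := by
        rw [div_le_iff₀ (by linarith)]
        have h2 : (n : ℝ) ≤ 2 ^ (l + 1) := by exact_mod_cast hln2.le
        have h3 : l + 1 ≤ T * (k + 1) + 1 + i := by
          have : (k + 1) * T = T * (k + 1) := by ring
          omega
        have h4 : (2 : ℝ) ^ (l + 1) ≤ 2 ^ (T * (k + 1) + 1 + i) := pow_le_pow_right₀ (by norm_num) h3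
        calc (n : ℝ) ≤ 2 ^ (T * (k + 1) + 1 + i) := h2.trans h4
          _ = 2 ^ (T * (k + 1) + 1) * 2 ^ i := by rw [pow_add]
          _ ≤ 2 ^ (T * (k + 1) + 1) * (2 * m) := mul_le_mul_of_nonneg_left hmi2R.le (by positivity)
          _ = 2 ^ (T * (k + 1) + 2) * m := by rw [pow_succ _ (T * (k + 1) + 1)]; ring
      have hT0 : (0 : ℝ) < T := by linarith
      calc ((n : ℝ) / m) ^ c ≤ ((n : ℝ) / m) ^ (1 / (T : ℝ)) := Real.rpow_le_rpow_of_exponent_le hratio hcT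
        _ ≤ ((2 : ℝ) ^ (T * (k + 1) + 2)) ^ (1 / (T : ℝ)) :=
          Real.rpow_le_rpow (by linarith) h1 (by positivity)
        _ ≤ ((2 : ℝ) ^ (T * (k + 3))) ^ (1 / (T : ℝ)) := by
          refine Real.rpow_le_rpow (by positivity) (pow_le_pow_right₀ (by norm_num) ?_) (by positivity)
          have : T * (k + 3) = T * (k + 1) + 2 * T := by ring
          omega
        _ = 2 ^ (k + 3) := by
          rw [mul_comm T (k + 3), pow_mul, ← Real.rpow_natCast ((2 : ℝ) ^ (k + 3)) T, ← Real.rpow_mul (by positivity),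
            mul_one_div_cancel hT0.ne', Real.rpow_one]
    have e1 : 2 ^ k * b m ≤ 8 * 2 ^ T * b n := by
      have h1 : (2 : ℝ) ^ k * b m ≤ 2 ^ k * (4 * b (2 ^ i)) := mul_le_mul_of_nonneg_left d1 (by positivity)
      nlinarith
    have e2 : c * ((n : ℝ) / m) ^ c * b m ≤ c * 2 ^ (k + 3) * b m :=
      mul_le_mul_of_nonneg_right (mul_le_mul_of_nonneg_left d3 hc0.le) hbm.le
    refine e2.trans ?_
    have e3 : c * 2 ^ (k + 3) * b m = c * 8 * (2 ^ k * b m) := by rw [pow_add]; ring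
    rw [e3]
    have e4 : c * 8 * (2 ^ k * b m) ≤ c * 8 * (8 * 2 ^ T * b n) := mul_le_mul_of_nonneg_left e1 (by positivity)
    refine e4.trans (le_of_eq ?_)
    rw [hc, pow_add]
    have hp : (2 : ℝ) ^ T ≠ 0 := by positivity
    field_simp
    norm_num

end Pool.Agent.W_7d29a1_NP
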