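import Pool.Agent.W_7d29a1_X42.AnovaB

/-!
STRICT NEWMAN - PIZA (MP_7d29a1_pr, proofs row 649), section 2, abstract part: the sum over the places `z` of the normalised
products over the slabs `j` of independent events `D z j` of the same probability `p`. (helper43)
-/

namespace Pool.Agent.W_7d29a1_NP

open MeasureTheory ProbabilityTheory Finset
open Pool.Agent.W_7d29a1_f21 Pool.Agent.W_7d29a1_X42

noncomputable section

variable {ι : Type*} {μ : Measure ℝ} {τ ζ : Type*}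

lemma dep_prod (s : Finset τ) {f : τ → (ι → ℝ) → ℝ} {T : τ → Set ι} (hd : ∀ k ∈ s, DependsOn (f k) (T k)) :
    DependsOn (fun g => ∏ k ∈ s, f k g) (⋃ k ∈ s, T k) := by
  intro g g' h
  refine Finset.prod_congr rfl fun k hk => hd k hk fun p hp => h p ?_
  exact Set.mem_biUnion hk hp

lemma dep_mono {f : (ι → ℝ) → ℝ} {S T : Set ι} (hf : DependsOn f S) (h : S ⊆ T) : DependsOn f T :=
  fun _ _ h1 => hf fun p hp => h1 p (h hp)

/-- The normalised indicator of an event of probability `p`. -/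
def nI (p : ℝ) (D : Set (ι → ℝ)) (g : ι → ℝ) : ℝ := D.indicator (fun _ => 1 / p) g

lemma nI_nonneg {p : ℝ} (hp : 0 < p) (D : Set (ι → ℝ)) (g : ι → ℝ) : 0 ≤ nI p D g :=
  Set.indicator_nonneg (fun _ _ => (one_div_pos.2 hp).le) _

lemma nI_le {p : ℝ} (hp : 0 < p) (D : Set (ι → ℝ)) (g : ι → ℝ) : nI p D g ≤ 1 / p :=
  Set.indicator_le_self' (fun _ _ => (one_div_pos.2 hp).le) _

lemma nI_sq (p : ℝ) (D : Set (ι → ℝ)) (g : ι → ℝ) : nI p D g * nI p D g = 1 / p * nI p D g := by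
  unfold nI
  by_cases h : g ∈ D
  · rw [Set.indicator_of_mem h]
  · rw [Set.indicator_of_notMem h, mul_zero, mul_zero]

lemma nI_meas {p : ℝ} {D : Set (ι → ℝ)} (hD : MeasurableSet D) : Measurable (nI p D) :=
  measurable_const.indicator hD

lemma nI_dep {p : ℝ} {D : Set (ι → ℝ)} {T : Set ι} (h : ∀ g g' : ι → ℝ, (∀ q ∈ T, g q = g' q) → (g ∈ D ↔ g' ∈ D)) :
    DependsOn (nI p D) T := by
  intro g g' h1
  unfold nI
  by_cases h2 : g ∈ D
  · rw [Set.indicator_of_mem h2, Set.indicator_of_mem ((h g g' h1).1 h2)]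
  · rw [Set.indicator_of_notMem h2, Set.indicator_of_notMem fun h3 => h2 ((h g g' h1).2 h3)]

lemma nI_mono {p : ℝ} (hp : 0 < p) {D : Set (ι → ℝ)} (h : ∀ g g' : ι → ℝ, (∀ q, g q ≤ g' q) → g ∈ D → g' ∈ D) :
    Monotone (nI p D) := by
  intro g g' h1
  unfold nI
  by_cases h2 : g ∈ D
  · rw [Set.indicator_of_mem h2, Set.indicator_of_mem (h g g' h1 h2)]
  · rw [Set.indicator_of_notMem h2]
    exact Set.indicator_nonneg (fun _ _ => (one_div_pos.2 hp).le) _

variable [IsProbabilityMeasure μ]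

/-- Independence of functions of disjoint sets. -/
lemma int_prod_indep (s : Finset τ) {f : τ → (ι → ℝ) → ℝ} {T : τ → Set ι}
    (hm : ∀ k ∈ s, Measurable (f k)) (hd : ∀ k ∈ s, DependsOn (f k) (T k))
    (hT : ∀ k ∈ s, ∀ k' ∈ s, k ≠ k' → Disjoint (T k) (T k')) :
    ∫ g, ∏ k ∈ s, f k g ∂(lw ι μ) = ∏ k ∈ s, ∫ g, f k g ∂(lw ι μ) := by
  classical
  induction s using Finset.induction_on with
  | empty => simp
  | insert k s hk ih =>
    simp only [Finset.prod_insert hk]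
    have h1 : DependsOn (fun g => ∏ i ∈ s, f i g) (T k)ᶜ := by
      refine dep_mono (dep_prod s fun i hi => hd i (mem_insert_of_mem hi)) ?_
      intro q hq hqk
      simp only [Set.mem_iUnion] at hq
      obtain ⟨i, hi, hqi⟩ := hq
      have hne : k ≠ i := fun h => hk (h ▸ hi)
      exact Set.disjoint_left.1 (hT k (mem_insert_self k s) i (mem_insert_of_mem hi) hne) hqk hqi
    rw [integral_mul_indep (T k) (hm k (mem_insert_self k s))
      (Finset.measurable_prod s fun i hi => hm i (mem_insert_of_mem hi)) (hd k (mem_insert_self k s)) h1,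
      ih (fun i hi => hm i (mem_insert_of_mem hi)) (fun i hi => hd i (mem_insert_of_mem hi))
        fun i hi i' hi' => hT i (mem_insert_of_mem hi) i' (mem_insert_of_mem hi')]

lemma nI_int {p : ℝ} (hp : 0 < p) {D : Set (ι → ℝ)} (hD : MeasurableSet D) (h : (lw ι μ).real D = p) :
    ∫ g, nI p D g ∂(lw ι μ) = 1 := by
  unfold nI
  rw [integral_indicator hD]
  simp only [integral_const, MeasurableSet.univ, measureReal_restrict_apply, Set.univ_inter, smul_eq_mul, h]
  exact mul_one_div_cancel hp.ne'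

/-- A family of independent events of the same probability. -/
structure Fam (μ : Measure ℝ) (Z : Finset ζ) (R : ℕ) (p : ℝ) (D : ζ → ℕ → Set (ι → ℝ)) (T : ζ → ℕ → Set ι) : Prop where
  p0 : 0 < p
  meas : ∀ z ∈ Z, ∀ j < R, MeasurableSet (D z j)
  dep : ∀ z ∈ Z, ∀ j < R, ∀ g g' : ι → ℝ, (∀ q ∈ T z j, g q = g' q) → (g ∈ D z j ↔ g' ∈ D z j)
  prob : ∀ z ∈ Z, ∀ j < R, (lw ι μ).real (D z j) = p
  disj : ∀ z ∈ Z, ∀ z' ∈ Z, ∀ j < R, ∀ j' < R, (z, j) ≠ (z', j') → Disjoint (T z j) (T z' j')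

/-- The product over the slabs. -/
def pf (R : ℕ) (p : ℝ) (D : ζ → ℕ → Set (ι → ℝ)) (z : ζ) (g : ι → ℝ) : ℝ := ∏ j ∈ range R, nI p (D z j) g

/-- The test function. -/
def Yt (Z : Finset ζ) (R : ℕ) (p : ℝ) (D : ζ → ℕ → Set (ι → ℝ)) (g : ι → ℝ) : ℝ := ∑ z ∈ Z, (pf R p D z g - 1)

/-- The test function of the slab `j`. -/
def Ys (Z : Finset ζ) (p : ℝ) (D : ζ → ℕ → Set (ι → ℝ)) (j : ℕ) (g : ι → ℝ) : ℝ := ∑ z ∈ Z, (nI p (D z j) g - 1)

variable {Z : Finset ζ} {R : ℕ} {p : ℝ} {D : ζ → ℕ → Set (ι → ℝ)} {T : ζ → ℕ → Set ι}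

omit [IsProbabilityMeasure μ] in
lemma Fam.pf_meas (h : Fam μ Z R p D T) {z : ζ} (hz : z ∈ Z) : Measurable (pf R p D z) :=
  Finset.measurable_prod _ fun j hj => nI_meas (h.meas z hz j (mem_range.1 hj))

lemma pf_nonneg (hp : 0 < p) (z : ζ) (g : ι → ℝ) : 0 ≤ pf R p D z g :=
  Finset.prod_nonneg fun _ _ => nI_nonneg hp _ _

lemma pf_le (hp : 0 < p) (z : ζ) (g : ι → ℝ) : pf R p D z g ≤ (1 / p) ^ R := by
  unfold pf
  refine (Finset.prod_le_prod (fun _ _ => nI_nonneg hp _ _) fun j _ => nI_le hp (D z j) g).trans (le_of_eq ?_)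
  rw [prod_const, card_range]

omit [IsProbabilityMeasure μ] in
lemma Fam.pf_dep (h : Fam μ Z R p D T) {z : ζ} (hz : z ∈ Z) : DependsOn (pf R p D z) (⋃ j ∈ range R, T z j) :=
  dep_prod (range R) fun j hj => nI_dep (h.dep z hz j (mem_range.1 hj))

lemma pf_sq (z : ζ) (g : ι → ℝ) : pf R p D z g * pf R p D z g = (1 / p) ^ R * pf R p D z g := by
  unfold pf
  rw [← prod_mul_distrib, Finset.prod_congr rfl fun j _ => nI_sq p (D z j) g, prod_mul_distrib, prod_const, card_range]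

lemma pf_mono (hp : 0 < p) {z : ζ} (h : ∀ j < R, ∀ g g' : ι → ℝ, (∀ q, g q ≤ g' q) → g ∈ D z j → g' ∈ D z j) :
    Monotone (pf R p D z) := by
  intro g g' h1
  exact Finset.prod_le_prod (fun _ _ => nI_nonneg hp _ _) fun j hj => nI_mono hp (h j (mem_range.1 hj)) h1

/-- `E (1_(D z 0) ... 1_(D z (R-1))) = p ^ R`. -/
lemma Fam.pf_int (h : Fam μ Z R p D T) {z : ζ} (hz : z ∈ Z) : ∫ g, pf R p D z g ∂(lw ι μ) = 1 := by
  unfold pf
  rw [int_prod_indep (range R) (T := T z) (fun j hj => nI_meas (h.meas z hz j (mem_range.1 hj)))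
    (fun j hj => nI_dep (h.dep z hz j (mem_range.1 hj)))
    fun j hj j' hj' hne => h.disj z hz z hz j (mem_range.1 hj) j' (mem_range.1 hj') fun h1 => hne (Prod.ext_iff.1 h1).2]
  exact Finset.prod_eq_one fun j hj => nI_int h.p0 (h.meas z hz j (mem_range.1 hj)) (h.prob z hz j (mem_range.1 hj))

lemma bdd_integrable {f : (ι → ℝ) → ℝ} (hf : Measurable f) {B : ℝ} (hB : ∀ g, |f g| ≤ B) : Integrable f (lw ι μ) :=
  Integrable.of_bound hf.aestronglyMeasurable B (Filter.Eventually.of_forall hB)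

lemma Fam.pf_abs (h : Fam μ Z R p D T) (z : ζ) (g : ι → ℝ) : |pf R p D z g - 1| ≤ (1 / p) ^ R + 1 := by
  have h1 := pf_nonneg (R := R) (D := D) h.p0 z g
  have h2 := pf_le (R := R) (D := D) h.p0 z g
  rw [abs_le]
  constructor <;> linarith

lemma Fam.pf_integrable (h : Fam μ Z R p D T) {z : ζ} (hz : z ∈ Z) : Integrable (pf R p D z) (lw ι μ) :=
  bdd_integrable (h.pf_meas hz) (B := (1 / p) ^ R) fun g => by
    rw [abs_of_nonneg (pf_nonneg h.p0 z g)]
    exact pf_le h.p0 z g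

omit [IsProbabilityMeasure μ] in
lemma Fam.Y_meas (h : Fam μ Z R p D T) : Measurable (Yt Z R p D) :=
  Finset.measurable_sum _ fun z hz => (h.pf_meas hz).sub_const 1

lemma Fam.Y_abs (h : Fam μ Z R p D T) (g : ι → ℝ) : |Yt Z R p D g| ≤ #Z * ((1 / p) ^ R + 1) := by
  unfold Yt
  refine (Finset.abs_sum_le_sum_abs _ _).trans ((Finset.sum_le_card_nsmul _ _ _ fun z _ => h.pf_abs z g).trans ?_)
  rw [nsmul_eq_mul]

lemma Fam.Y_memLp (h : Fam μ Z R p D T) : MemLp (Yt Z R p D) 2 (lw ι μ) :=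
  MemLp.of_bound h.Y_meas.aestronglyMeasurable (#Z * ((1 / p) ^ R + 1))
    (Filter.Eventually.of_forall fun g => h.Y_abs g)

omit [IsProbabilityMeasure μ] in
lemma Fam.Y_dep (h : Fam μ Z R p D T) {A : Set ι} (hA : ∀ z ∈ Z, ∀ j < R, T z j ⊆ A) : DependsOn (Yt Z R p D) A := by
  intro g g' h1
  refine Finset.sum_congr rfl fun z hz => ?_
  congr 1
  refine h.pf_dep hz fun q hq => h1 q ?_
  simp only [Set.mem_iUnion, mem_range] at hq
  obtain ⟨j, hj, hq⟩ := hq
  exact hA z hz j hj hq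

lemma Fam.Y_int (h : Fam μ Z R p D T) : ∫ g, Yt Z R p D g ∂(lw ι μ) = 0 := by
  unfold Yt
  have h1 : ∀ z ∈ Z, Integrable (fun g => pf R p D z g - 1) (lw ι μ) := fun z hz =>
    (h.pf_integrable hz).sub (integrable_const _)
  rw [integral_finset_sum _ h1]
  refine Finset.sum_eq_zero fun z hz => ?_
  rw [integral_sub (h.pf_integrable hz) (integrable_const _), h.pf_int hz]
  simp

/-- The general form of the second moment. -/
lemma sq_sum_le {f : ζ → (ι → ℝ) → ℝ} {T : ζ → Set ι} {B V : ℝ} (Z : Finset ζ) (hm : ∀ z ∈ Z, Measurable (f z))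
    (hB : ∀ z ∈ Z, ∀ g, |f z g| ≤ B) (hd : ∀ z ∈ Z, DependsOn (f z) (T z))
    (hT : ∀ z ∈ Z, ∀ z' ∈ Z, z ≠ z' → Disjoint (T z) (T z')) (h0 : ∀ z ∈ Z, ∫ g, f z g ∂(lw ι μ) = 0)
    (hV : ∀ z ∈ Z, ∫ g, f z g * f z g ∂(lw ι μ) ≤ V) :
    ∫ g, (∑ z ∈ Z, f z g) ^ 2 ∂(lw ι μ) ≤ #Z * V := by
  classical
  have hi : ∀ z ∈ Z, ∀ z' ∈ Z, Integrable (fun g => f z g * f z' g) (lw ι μ) := fun z hz z' hz' =>
    bdd_integrable ((hm z hz).mul (hm z' hz')) (B := B * B) fun g => by
      rw [abs_mul]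
      exact mul_le_mul (hB z hz g) (hB z' hz' g) (abs_nonneg _) ((abs_nonneg _).trans (hB z hz g))
  have h1 : ∀ g, (∑ z ∈ Z, f z g) ^ 2 = ∑ z ∈ Z, ∑ z' ∈ Z, f z g * f z' g := by
    intro g
    rw [sq, Finset.sum_mul_sum]
  simp only [h1]
  rw [integral_finset_sum _ fun z hz => integrable_finset_sum _ fun z' hz' => hi z hz z' hz']
  have h2 : ∀ z ∈ Z, ∫ g, ∑ z' ∈ Z, f z g * f z' g ∂(lw ι μ) ≤ V := by
    intro z hz
    rw [integral_finset_sum _ fun z' hz' => hi z hz z' hz', Finset.sum_eq_single_of_mem z hz]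
    · exact hV z hz
    · intro z' hz' hne
      rw [integral_mul_indep (T z) (hm z hz) (hm z' hz') (hd z hz)
        (dep_mono (hd z' hz') fun q hq hq' => Set.disjoint_left.1 (hT z hz z' hz' hne.symm) hq' hq), h0 z hz, zero_mul]
  refine (Finset.sum_le_sum h2).trans ?_
  rw [sum_const, nsmul_eq_mul]

/-- **The variance of the test function**: `E Y ^ 2 ≤ #Z / p ^ R`. -/
theorem Fam.Y_sq (h : Fam μ Z R p D T) : ∫ g, Yt Z R p D g ^ 2 ∂(lw ι μ) ≤ #Z * (1 / p) ^ R := by
  have hp := h.p0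
  have hi : ∀ z ∈ Z, Integrable (pf R p D z) (lw ι μ) := fun z hz => h.pf_integrable hz
  refine sq_sum_le (T := fun z => ⋃ j ∈ range R, T z j) (B := (1 / p) ^ R + 1) Z
    (fun z hz => (h.pf_meas hz).sub_const 1) (fun z _ g => h.pf_abs z g)
    (fun z hz => ?_) (fun z hz z' hz' hne => ?_) (fun z hz => ?_) fun z hz => ?_
  · intro g g' h1
    show pf R p D z g - 1 = pf R p D z g' - 1
    rw [h.pf_dep hz h1]
  · simp only [Set.disjoint_iUnion_left, Set.disjoint_iUnion_right, mem_range]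
    exact fun j' hj' j hj => h.disj z hz z' hz' j hj j' hj' fun h1 => hne (Prod.ext_iff.1 h1).1
  · rw [integral_sub (hi z hz) (integrable_const _), h.pf_int hz]
    simp
  · have h1 : ∀ g, (pf R p D z g - 1) * (pf R p D z g - 1) = ((1 / p) ^ R - 2) * pf R p D z g + 1 := by
      intro g
      have := pf_sq (R := R) (p := p) (D := D) z g
      linear_combination this
    simp only [h1]
    rw [integral_add ((hi z hz).const_mul _) (integrable_const _), integral_const_mul, h.pf_int hz]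
    simp only [mul_one, integral_const, probReal_univ, smul_eq_mul]
    linarith

omit [IsProbabilityMeasure μ] in
lemma Fam.Yj_meas (h : Fam μ Z R p D T) {j : ℕ} (hj : j < R) : Measurable (Ys Z p D j) :=
  Finset.measurable_sum _ fun z hz => (nI_meas (h.meas z hz j hj)).sub_const 1

lemma nI_abs (hp : 0 < p) (D : Set (ι → ℝ)) (g : ι → ℝ) : |nI p D g - 1| ≤ 1 / p + 1 := by
  have h1 := nI_nonneg hp D g
  have h2 := nI_le hp D g
  rw [abs_le]
  constructor <;> linarith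

lemma Fam.Yj_memLp (h : Fam μ Z R p D T) {j : ℕ} (hj : j < R) : MemLp (Ys Z p D j) 2 (lw ι μ) :=
  MemLp.of_bound (h.Yj_meas hj).aestronglyMeasurable (#Z * (1 / p + 1)) (Filter.Eventually.of_forall fun g => by
    unfold Ys
    rw [Real.norm_eq_abs]
    refine (Finset.abs_sum_le_sum_abs _ _).trans ((Finset.sum_le_card_nsmul _ _ _ fun z _ => nI_abs h.p0 _ g).trans ?_)
    rw [nsmul_eq_mul])

lemma Fam.nI_integrable (h : Fam μ Z R p D T) {z : ζ} (hz : z ∈ Z) {j : ℕ} (hj : j < R) :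
    Integrable (nI p (D z j)) (lw ι μ) :=
  bdd_integrable (nI_meas (h.meas z hz j hj)) (B := 1 / p) fun g => by
    rw [abs_of_nonneg (nI_nonneg h.p0 _ g)]
    exact nI_le h.p0 _ g

lemma Fam.Yj_int (h : Fam μ Z R p D T) {j : ℕ} (hj : j < R) : ∫ g, Ys Z p D j g ∂(lw ι μ) = 0 := by
  unfold Ys
  have h1 : ∀ z ∈ Z, Integrable (fun g => nI p (D z j) g - 1) (lw ι μ) := fun z hz =>
    (h.nI_integrable hz hj).sub (integrable_const _)
  rw [integral_finset_sum _ h1]
  refine Finset.sum_eq_zero fun z hz => ?_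
  rw [integral_sub (h.nI_integrable hz hj) (integrable_const _), nI_int h.p0 (h.meas z hz j hj) (h.prob z hz j hj)]
  simp

/-- **The variance of the test function of one slab**: `E Y_j ^ 2 ≤ #Z / p`. -/
theorem Fam.Yj_sq (h : Fam μ Z R p D T) {j : ℕ} (hj : j < R) : ∫ g, Ys Z p D j g ^ 2 ∂(lw ι μ) ≤ #Z * (1 / p) := by
  have hp := h.p0
  have hi : ∀ z ∈ Z, Integrable (nI p (D z j)) (lw ι μ) := fun z hz => h.nI_integrable hz hj
  have h0 : ∀ z ∈ Z, ∫ g, nI p (D z j) g ∂(lw ι μ) = 1 := fun z hz => nI_int hp (h.meas z hz j hj) (h.prob z hz j hj)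
  refine sq_sum_le (T := fun z => T z j) (B := 1 / p + 1) Z
    (fun z hz => (nI_meas (h.meas z hz j hj)).sub_const 1) (fun z _ g => nI_abs hp _ g)
    (fun z hz => ?_) (fun z hz z' hz' hne => ?_) (fun z hz => ?_) fun z hz => ?_
  · intro g g' h1
    show nI p (D z j) g - 1 = nI p (D z j) g' - 1
    rw [nI_dep (h.dep z hz j hj) h1]
  · exact h.disj z hz z' hz' j hj j hj fun h1 => hne (Prod.ext_iff.1 h1).1
  · rw [integral_sub (hi z hz) (integrable_const _), h0 z hz]
    simp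
  · have h1 : ∀ g, (nI p (D z j) g - 1) * (nI p (D z j) g - 1) = (1 / p - 2) * nI p (D z j) g + 1 := by
      intro g
      have := nI_sq p (D z j) g
      linear_combination this
    simp only [h1]
    rw [integral_add ((hi z hz).const_mul _) (integrable_const _), integral_const_mul, h0 z hz]
    simp only [mul_one, integral_const, probReal_univ, smul_eq_mul]
    linarith

/-- **Conditioning on the slab `j`**: with the sites off `A` integrated out, where the events of the slab `j` depend on `A` and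
the events of the other slabs do not. -/
theorem Fam.cE_Y (h : Fam μ Z R p D T) {j : ℕ} (hj : j < R) {A : Set ι} (hA : ∀ z ∈ Z, T z j ⊆ A)
    (hA' : ∀ z ∈ Z, ∀ i < R, i ≠ j → Disjoint (T z i) A) (g : ι → ℝ) : cE μ Aᶜ (Yt Z R p D) g = Ys Z p D j g := by
  classical
  unfold cE Yt Ys
  have hp := h.p0
  have hjr : j ∈ range R := mem_range.2 hj
  -- the product at the spliced environment
  have h1 : ∀ z ∈ Z, ∀ g' : ι → ℝ, pf R p D z (splice Aᶜ g' g) =
      nI p (D z j) g * ∏ i ∈ (range R).erase j, nI p (D z i) g' := by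
    intro z hz g'
    unfold pf
    rw [← Finset.mul_prod_erase _ _ hjr]
    congr 1
    · exact nI_dep (h.dep z hz j hj) fun q hq => splice_not_mem _ _ fun h2 => h2 (hA z hz hq)
    · refine Finset.prod_congr rfl fun i hi => ?_
      obtain ⟨h2, h3⟩ := Finset.mem_erase.1 hi
      exact nI_dep (h.dep z hz i (mem_range.1 h3)) fun q hq =>
        splice_mem _ _ fun h4 => Set.disjoint_left.1 (hA' z hz i (mem_range.1 h3) h2) hq h4
  have h2 : ∀ z ∈ Z, ∫ g', ∏ i ∈ (range R).erase j, nI p (D z i) g' ∂(lw ι μ) = 1 := by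
    intro z hz
    have hlt : ∀ i ∈ (range R).erase j, i < R := fun i hi => mem_range.1 (Finset.mem_of_mem_erase hi)
    rw [int_prod_indep ((range R).erase j) (T := T z) (fun i hi => nI_meas (h.meas z hz i (hlt i hi)))
      (fun i hi => nI_dep (h.dep z hz i (hlt i hi)))
      fun i hi i' hi' hne => h.disj z hz z hz i (hlt i hi) i' (hlt i' hi') fun h1 => hne (Prod.ext_iff.1 h1).2]
    exact Finset.prod_eq_one fun i hi => nI_int hp (h.meas z hz i (hlt i hi)) (h.prob z hz i (hlt i hi))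
  have h3 : ∀ z ∈ Z, Integrable (fun g' => ∏ i ∈ (range R).erase j, nI p (D z i) g') (lw ι μ) := by
    intro z hz
    have hlt : ∀ i ∈ (range R).erase j, i < R := fun i hi => mem_range.1 (Finset.mem_of_mem_erase hi)
    refine bdd_integrable (Finset.measurable_prod _ fun i hi => nI_meas (h.meas z hz i (hlt i hi)))
      (B := (1 / p) ^ #((range R).erase j)) fun g' => ?_
    rw [abs_of_nonneg (Finset.prod_nonneg fun _ _ => nI_nonneg hp _ _)]
    refine (Finset.prod_le_prod (fun _ _ => nI_nonneg hp _ _) fun i _ => nI_le hp (D z i) g').trans (le_of_eq ?_)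
    rw [prod_const]
  have h4 : ∀ z ∈ Z, Integrable (fun g' => pf R p D z (splice Aᶜ g' g) - 1) (lw ι μ) := by
    intro z hz
    simp only [h1 z hz]
    exact ((h3 z hz).const_mul _).sub (integrable_const _)
  rw [integral_finset_sum _ h4]
  refine Finset.sum_congr rfl fun z hz => ?_
  simp only [h1 z hz]
  rw [integral_sub ((h3 z hz).const_mul _) (integrable_const _), integral_const_mul, h2 z hz]
  simp

end

end Pool.Agent.W_7d29a1_NP
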