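import Mathlib

/-!
STRICT NEWMAN - PIZA (MP_7d29a1_pr, proofs row 649): the grid of the tubes, and the sum over the tubes (pure). (helper64)
-/

namespace Pool.Agent.W_7d29a1_NP

open Finset

noncomputable section

/-- The multiples `h i`, `|i| ≤ M`. -/
def gridZ (h M : ℕ) : Finset ℤ := (Finset.Icc (-(M : ℤ)) M).image fun i => (h : ℤ) * i

theorem grid_inj {h : ℕ} (hh : 1 ≤ h) : Function.Injective fun i : ℤ => (h : ℤ) * i := by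
  intro i j hij
  have h1 : (h : ℤ) ≠ 0 := by positivity
  exact mul_left_cancel₀ h1 hij

theorem card_gridZ {h : ℕ} (hh : 1 ≤ h) (M : ℕ) : (gridZ h M).card = 2 * M + 1 := by
  unfold gridZ
  rw [Finset.card_image_of_injective _ (grid_inj hh), Int.card_Icc]
  omega

theorem grid_sep {h : ℕ} {M : ℕ} {z z' : ℤ} (hz : z ∈ gridZ h M) (hz' : z' ∈ gridZ h M) (hne : z ≠ z') :
    (h : ℝ) ≤ |(z : ℝ) - z'| := by
  unfold gridZ at hz hz'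
  rw [Finset.mem_image] at hz hz'
  obtain ⟨i, -, rfl⟩ := hz
  obtain ⟨j, -, rfl⟩ := hz'
  have hij : i ≠ j := fun e => hne (by rw [e])
  have h1 : (1 : ℝ) ≤ |((i - j : ℤ) : ℝ)| := by
    have : (1 : ℤ) ≤ |i - j| := Int.one_le_abs (sub_ne_zero.2 hij)
    exact_mod_cast this
  have h2 : (((h : ℤ) * i : ℤ) : ℝ) - (((h : ℤ) * j : ℤ) : ℝ) = (h : ℝ) * ((i - j : ℤ) : ℝ) := by
    push_cast
    ring
  rw [h2, abs_mul, abs_of_nonneg (Nat.cast_nonneg h)]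
  have : (h : ℝ) * 1 ≤ (h : ℝ) * |((i - j : ℤ) : ℝ)| := mul_le_mul_of_nonneg_left h1 (Nat.cast_nonneg h)
  linarith

private lemma filt_eq {h : ℕ} (hh : 1 ≤ h) (M : ℕ) (u ρ : ℝ) :
    ((gridZ h M).filter fun z : ℤ => |u - z| ≤ ρ).card =
      ((Finset.Icc (-(M : ℤ)) M).filter fun i : ℤ => |u - h * i| ≤ ρ).card := by
  unfold gridZ
  rw [Finset.filter_image, Finset.card_image_of_injective _ (grid_inj hh)]
  congr 1
  ext i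
  simp only [Finset.mem_filter, Int.cast_mul, Int.cast_natCast]

theorem grid_card_le {h : ℕ} (hh : 1 ≤ h) (M : ℕ) (u : ℝ) {ρ : ℝ} (hρ : 0 ≤ ρ) :
    (((gridZ h M).filter fun z : ℤ => |u - z| ≤ ρ).card : ℝ) ≤ 2 * ρ / h + 1 := by
  rw [filt_eq hh]
  have hh0 : (0 : ℝ) < h := by exact_mod_cast hh
  have h1 : ((Finset.Icc (-(M : ℤ)) M).filter fun i : ℤ => |u - h * i| ≤ ρ) ⊆
      Finset.Icc ⌈(u - ρ) / h⌉ ⌊(u + ρ) / h⌋ := by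
    intro i hi
    rw [Finset.mem_filter, abs_le] at hi
    obtain ⟨-, h2, h3⟩ := hi
    rw [Finset.mem_Icc, Int.ceil_le, Int.le_floor, div_le_iff₀ hh0, le_div_iff₀ hh0]
    constructor <;> linarith
  have h2 := Finset.card_le_card h1
  rw [Int.card_Icc] at h2
  have h3 : ((⌊(u + ρ) / h⌋ + 1 - ⌈(u - ρ) / h⌉).toNat : ℝ) ≤ max ((u + ρ) / h + 1 - (u - ρ) / h) 0 := by
    have h4 : ((⌊(u + ρ) / h⌋ + 1 - ⌈(u - ρ) / h⌉).toNat : ℝ) =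
        max ((⌊(u + ρ) / h⌋ + 1 - ⌈(u - ρ) / h⌉ : ℤ) : ℝ) 0 := by
      have : (((⌊(u + ρ) / h⌋ + 1 - ⌈(u - ρ) / h⌉).toNat : ℤ)) = max (⌊(u + ρ) / h⌋ + 1 - ⌈(u - ρ) / h⌉) 0 :=
        Int.toNat_eq_max _
      exact_mod_cast this
    rw [h4]
    refine max_le_max ?_ le_rfl
    push_cast
    have h5 := Int.floor_le ((u + ρ) / h)
    have h6 := Int.le_ceil ((u - ρ) / h)
    linarith
  have h4 : (u + ρ) / h + 1 - (u - ρ) / h = 2 * ρ / h + 1 := by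
    field_simp
    ring
  have h5 : 0 ≤ 2 * ρ / h + 1 := by positivity
  rw [h4, max_eq_left h5] at h3
  have h6 : (((Finset.Icc (-(M : ℤ)) M).filter fun i : ℤ => |u - h * i| ≤ ρ).card : ℝ) ≤
      ((⌊(u + ρ) / h⌋ + 1 - ⌈(u - ρ) / h⌉).toNat : ℝ) := by exact_mod_cast h2
  linarith

theorem grid_card_ge {h : ℕ} (hh : 1 ≤ h) {M : ℕ} {u ρ : ℝ} (hM : |u| + ρ ≤ h * M) :
    2 * ρ / h - 1 ≤ (((gridZ h M).filter fun z : ℤ => |u - z| ≤ ρ).card : ℝ) := by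
  rw [filt_eq hh]
  have hh0 : (0 : ℝ) < h := by exact_mod_cast hh
  have hu := abs_le.1 (le_refl |u|)
  have h1 : Finset.Icc ⌈(u - ρ) / h⌉ ⌊(u + ρ) / h⌋ ⊆
      ((Finset.Icc (-(M : ℤ)) M).filter fun i : ℤ => |u - h * i| ≤ ρ) := by
    intro i hi
    rw [Finset.mem_Icc, Int.ceil_le, Int.le_floor, div_le_iff₀ hh0, le_div_iff₀ hh0] at hi
    rw [Finset.mem_filter, Finset.mem_Icc, abs_le]
    refine ⟨⟨?_, ?_⟩, by linarith, by linarith⟩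
    · have h2 : -(M : ℝ) * h ≤ i * h := by nlinarith
      have h3 : -(M : ℝ) ≤ i := le_of_mul_le_mul_right h2 hh0
      exact_mod_cast h3
    · have h2 : (i : ℝ) * h ≤ M * h := by nlinarith
      have h3 : (i : ℝ) ≤ M := le_of_mul_le_mul_right h2 hh0
      exact_mod_cast h3
  have h2 := Finset.card_le_card h1
  rw [Int.card_Icc] at h2
  have h3 : ((⌊(u + ρ) / h⌋ + 1 - ⌈(u - ρ) / h⌉ : ℤ) : ℝ) ≤ ((⌊(u + ρ) / h⌋ + 1 - ⌈(u - ρ) / h⌉).toNat : ℝ) := by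
    have := Int.self_le_toNat (⌊(u + ρ) / h⌋ + 1 - ⌈(u - ρ) / h⌉)
    exact_mod_cast this
  have h4 : ((⌊(u + ρ) / h⌋ + 1 - ⌈(u - ρ) / h⌉).toNat : ℝ) ≤
      (((Finset.Icc (-(M : ℤ)) M).filter fun i : ℤ => |u - h * i| ≤ ρ).card : ℝ) := by exact_mod_cast h2
  have h5 := Int.lt_floor_add_one ((u + ρ) / h)
  have h6 := Int.ceil_lt_add_one ((u - ρ) / h)
  have h7 : (u + ρ) / h - (u - ρ) / h = 2 * ρ / h := by
    field_simp
    ring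
  push_cast at h3
  linarith

/-- The sum over the tubes. -/
theorem gain_sum {X Z : Finset ℤ} {u : ℤ → ℝ} {ρ : ℝ} {q E Ep : ℤ → ℝ} {X₂ : Finset ℤ} (hX₂ : X₂ ⊆ X)
    (hq : ∀ x ∈ X, 0 ≤ q x) (hE : ∀ x ∈ X, E x ≤ Ep x) (hEp : ∀ x ∈ X, 0 ≤ Ep x) {n0 n1 Q Bt : ℝ} (hQ : 0 ≤ Q)
    (hn0 : ∀ x ∈ X, ((Z.filter fun z : ℤ => |u x - z| ≤ ρ).card : ℝ) ≤ n0)
    (hn1 : ∀ x ∈ X₂, n1 ≤ ((Z.filter fun z : ℤ => |u x - z| ≤ ρ).card : ℝ)) (hn1' : 0 ≤ n1) (hn0' : 0 ≤ n0)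
    (hm : 1 / 2 ≤ ∑ x ∈ X₂, q x) (hB : ∑ x ∈ X, Ep x ≤ Bt) :
    n1 * Q / 2 - n0 * Bt ≤ ∑ z ∈ Z, ∑ x ∈ X.filter (fun x : ℤ => |u x - z| ≤ ρ), (q x * Q - E x) := by
  obtain ⟨ν, hν⟩ : ∃ ν : ℤ → ℝ, ν = fun x => ((Z.filter fun z : ℤ => |u x - z| ≤ ρ).card : ℝ) := ⟨_, rfl⟩
  have hν0 : ∀ x, 0 ≤ ν x := fun x => by rw [hν]; exact Nat.cast_nonneg _
  have h1 : ∑ z ∈ Z, ∑ x ∈ X.filter (fun x : ℤ => |u x - z| ≤ ρ), (q x * Q - E x) = ∑ x ∈ X, ν x * (q x * Q - E x) := by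
    simp only [Finset.sum_filter]
    rw [Finset.sum_comm]
    refine Finset.sum_congr rfl fun x _ => ?_
    rw [hν, ← Finset.sum_filter, Finset.sum_const, nsmul_eq_mul]
  rw [h1]
  have h2 : ∑ x ∈ X, ν x * (q x * Q - E x) = ∑ x ∈ X, ν x * (q x * Q) - ∑ x ∈ X, ν x * E x := by
    rw [← Finset.sum_sub_distrib]
    exact Finset.sum_congr rfl fun x _ => by ring
  have h3 : n1 * Q / 2 ≤ ∑ x ∈ X, ν x * (q x * Q) := by
    have h4 : ∑ x ∈ X₂, ν x * (q x * Q) ≤ ∑ x ∈ X, ν x * (q x * Q) :=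
      Finset.sum_le_sum_of_subset_of_nonneg hX₂ fun x hx _ => mul_nonneg (hν0 x) (mul_nonneg (hq x hx) hQ)
    have h5 : ∑ x ∈ X₂, n1 * (q x * Q) ≤ ∑ x ∈ X₂, ν x * (q x * Q) := by
      refine Finset.sum_le_sum fun x hx => mul_le_mul_of_nonneg_right ?_ (mul_nonneg (hq x (hX₂ hx)) hQ)
      rw [hν]
      exact hn1 x hx
    have h6 : ∑ x ∈ X₂, n1 * (q x * Q) = n1 * Q * ∑ x ∈ X₂, q x := by
      rw [Finset.mul_sum]
      exact Finset.sum_congr rfl fun x _ => by ring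
    have h7 : n1 * Q * (1 / 2) ≤ n1 * Q * ∑ x ∈ X₂, q x := mul_le_mul_of_nonneg_left hm (mul_nonneg hn1' hQ)
    linarith
  have h8 : ∑ x ∈ X, ν x * E x ≤ n0 * Bt := by
    have h9 : ∑ x ∈ X, ν x * E x ≤ ∑ x ∈ X, n0 * Ep x := by
      refine Finset.sum_le_sum fun x hx => ?_
      have h10 : ν x ≤ n0 := by rw [hν]; exact hn0 x hx
      exact (mul_le_mul_of_nonneg_left (hE x hx) (hν0 x)).trans (mul_le_mul_of_nonneg_right h10 (hEp x hx))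
    rw [← Finset.mul_sum] at h9
    exact h9.trans (mul_le_mul_of_nonneg_left hB hn0')
  linarith

end

end Pool.Agent.W_7d29a1_NP
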