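import Mathlib

/-!
STRICT NEWMAN - PIZA (MP_7d29a1_pr, proofs row 649), section 4: counts and arithmetic (pure). (helper64)
-/

namespace Pool.Agent.W_7d29a1_NP

open Finset

/-- At least half of the elements satisfy one of the two alternatives. -/
theorem two_cases {ι : Type*} [DecidableEq ι] (I : Finset ι) {P Q : ι → Prop} (h : ∀ i ∈ I, P i ∨ Q i) :
    (∃ I' ⊆ I, I.card ≤ 2 * I'.card ∧ ∀ i ∈ I', P i) ∨ (∃ I' ⊆ I, I.card ≤ 2 * I'.card ∧ ∀ i ∈ I', Q i) := by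
  classical
  have h1 := Finset.card_filter_add_card_filter_not (s := I) P
  rcases le_or_gt I.card (2 * (I.filter P).card) with h2 | h2
  · exact Or.inl ⟨I.filter P, Finset.filter_subset _ _, h2, fun i hi => (Finset.mem_filter.1 hi).2⟩
  · refine Or.inr ⟨I.filter fun i => ¬P i, Finset.filter_subset _ _, by omega, fun i hi => ?_⟩
    rw [Finset.mem_filter] at hi
    rcases h i hi.1 with h3 | h3
    · exact absurd h3 hi.2
    · exact h3

/-- The sum over blocks. -/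
theorem sum_blocks (f : ℕ → ℝ) (R K : ℕ) : ∑ k ∈ range (R * K), f k = ∑ k ∈ range K, ∑ j ∈ range R, f (k * R + j) := by
  induction K with
  | zero => simp
  | succ K ih =>
    rw [Nat.mul_succ, Finset.sum_range_add, Finset.sum_range_succ, ← ih]
    congr 1
    refine Finset.sum_congr rfl fun j _ => ?_
    rw [Nat.mul_comm]

/-- The good levels. -/
theorem good_half {S : Finset ℕ} {g : ℕ → ℝ} (hg : ∀ l ∈ S, 0 ≤ g l) (h : ∑ l ∈ S, g l ≤ 6 * S.card) :
    S.card ≤ 2 * (S.filter fun l => g l ≤ 12).card := by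
  classical
  by_contra hcon
  push Not at hcon
  have h1 := Finset.card_filter_add_card_filter_not (s := S) (fun l => g l ≤ 12)
  have h2 : ((S.filter fun l => ¬g l ≤ 12).card : ℝ) * 12 ≤ ∑ l ∈ S.filter (fun l => ¬g l ≤ 12), g l := by
    have := Finset.card_nsmul_le_sum (S.filter fun l => ¬g l ≤ 12) g 12 fun l hl =>
      (not_le.1 (Finset.mem_filter.1 hl).2).le
    rwa [nsmul_eq_mul] at this
  have h3 : ∑ l ∈ S.filter (fun l => ¬g l ≤ 12), g l ≤ ∑ l ∈ S, g l :=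
    Finset.sum_le_sum_of_subset_of_nonneg (Finset.filter_subset _ _) fun l hl _ => hg l hl
  have h4 : S.card < 2 * (S.filter fun l => ¬g l ≤ 12).card := by omega
  have h5 : (S.card : ℝ) < 2 * (S.filter fun l => ¬g l ≤ 12).card := by exact_mod_cast h4
  linarith

/-- The arithmetic of case (A). -/
theorem caseA {n I R W E Zc p p0 CZ wN wm m A2 : ℝ} (hn : 0 < n) (hR : 1 ≤ R) (hE : 0 < E) (hZ : 0 < Zc)
    (hp0 : 0 < p0) (hp : p0 ≤ p) (hCZ : 0 < CZ) (hwN : 0 < wN) (hwm : 0 < wm) (hm : 0 < m)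
    (hZc : Zc ≤ CZ * (wN / wm)) (hI : n / (4 * (R * m)) ≤ I) {EN : ℝ}
    (hv : I / 2 * ((R * W * E) ^ 2 / (4 * (R * (Zc * (1 / p))))) ≤ A2 * EN ^ 2) :
    p0 / (32 * CZ) * W ^ 2 * (wm * E ^ 2 / m) ≤ A2 * (wN * EN ^ 2 / n) := by
  have hR0 : 0 < R := lt_of_lt_of_le one_pos hR
  have hp1 : 0 < p := lt_of_lt_of_le hp0 hp
  have h1 : (R * W * E) ^ 2 / (4 * (R * (CZ * (wN / wm) * (1 / p0)))) ≤ (R * W * E) ^ 2 / (4 * (R * (Zc * (1 / p)))) := by
    refine div_le_div_of_nonneg_left (sq_nonneg _) (by positivity) ?_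
    have h2 : Zc * (1 / p) ≤ CZ * (wN / wm) * (1 / p0) :=
      mul_le_mul hZc (one_div_le_one_div_of_le hp0 hp) (by positivity) (by positivity)
    have h3 := mul_le_mul_of_nonneg_left h2 hR0.le
    linarith
  have h2 : n / (4 * (R * m)) / 2 * ((R * W * E) ^ 2 / (4 * (R * (CZ * (wN / wm) * (1 / p0))))) ≤ A2 * EN ^ 2 := by
    refine le_trans ?_ hv
    refine mul_le_mul (by linarith) h1 (by positivity) ?_
    have : 0 < n / (4 * (R * m)) := by positivity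
    linarith
  have h3 : n / (4 * (R * m)) / 2 * ((R * W * E) ^ 2 / (4 * (R * (CZ * (wN / wm) * (1 / p0))))) =
      n / wN * (p0 / (32 * CZ) * W ^ 2 * (wm * E ^ 2 / m)) := by
    field_simp
    ring
  rw [h3] at h2
  have h4 : A2 * (wN * EN ^ 2 / n) = wN / n * (A2 * EN ^ 2) := by
    field_simp
  have h5 : p0 / (32 * CZ) * W ^ 2 * (wm * E ^ 2 / m) = wN / n * (n / wN * (p0 / (32 * CZ) * W ^ 2 * (wm * E ^ 2 / m))) := by
    field_simp
  rw [h4, h5]
  exact mul_le_mul_of_nonneg_left h2 (by positivity)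

/-- The arithmetic of case (B). -/
theorem caseB {n I R W E Zc p p0 CZ wN wm m U1 U2 : ℝ} {r : ℕ} (hn : 0 < n) (hR : 1 ≤ R) (hW : 1 ≤ 2 * W) (hE : 0 < E)
    (hZ : 0 < Zc) (hp0 : 0 < p0) (hp : p0 ≤ p) (hCZ : 0 < CZ) (hwN : 0 < wN) (hwm : 0 < wm) (hm : 0 < m)
    (hZc : Zc ≤ CZ * (wN / wm)) (hI : n / (4 * (R * m)) ≤ I)
    (hv : U1 + I / 2 * ((R * W * E) ^ 2 / (4 * (Zc * (1 / p) ^ r))) ≤ U2) :
    wN / n * U1 + p0 ^ r / (128 * CZ) * (wm * E ^ 2 / m) ≤ wN / n * U2 := by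
  have hR0 : 0 < R := lt_of_lt_of_le one_pos hR
  have hp1 : 0 < p := lt_of_lt_of_le hp0 hp
  have h1 : (R * W * E) ^ 2 / (4 * (CZ * (wN / wm) * (1 / p0) ^ r)) ≤ (R * W * E) ^ 2 / (4 * (Zc * (1 / p) ^ r)) := by
    refine div_le_div_of_nonneg_left (sq_nonneg _) (by positivity) ?_
    have h2 : Zc * (1 / p) ^ r ≤ CZ * (wN / wm) * (1 / p0) ^ r :=
      mul_le_mul hZc (pow_le_pow_left₀ (by positivity) (one_div_le_one_div_of_le hp0 hp) r) (by positivity)
        (by positivity)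
    linarith
  have h2 : n / (4 * (R * m)) / 2 * ((R * W * E) ^ 2 / (4 * (CZ * (wN / wm) * (1 / p0) ^ r))) ≤
      I / 2 * ((R * W * E) ^ 2 / (4 * (Zc * (1 / p) ^ r))) := by
    refine mul_le_mul (by linarith) h1 (by positivity) ?_
    have : 0 < n / (4 * (R * m)) := by positivity
    linarith
  have h3 : n / (4 * (R * m)) / 2 * ((R * W * E) ^ 2 / (4 * (CZ * (wN / wm) * (1 / p0) ^ r))) =
      n / wN * (p0 ^ r / (128 * CZ) * (wm * E ^ 2 / m) * (R * (2 * W) ^ 2)) := by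
    rw [one_div, inv_pow]
    field_simp
    ring
  have h4 : 1 ≤ R * (2 * W) ^ 2 := by
    have : 1 ≤ (2 * W) ^ 2 := one_le_pow₀ hW
    nlinarith
  have h5 : p0 ^ r / (128 * CZ) * (wm * E ^ 2 / m) ≤ p0 ^ r / (128 * CZ) * (wm * E ^ 2 / m) * (R * (2 * W) ^ 2) :=
    le_mul_of_one_le_right (by positivity) h4
  have h6 : n / wN * (p0 ^ r / (128 * CZ) * (wm * E ^ 2 / m)) ≤ U2 - U1 := by
    have := mul_le_mul_of_nonneg_left h5 (show 0 ≤ n / wN by positivity)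
    rw [← h3] at this
    linarith
  have h7 : p0 ^ r / (128 * CZ) * (wm * E ^ 2 / m) = wN / n * (n / wN * (p0 ^ r / (128 * CZ) * (wm * E ^ 2 / m))) := by
    field_simp
  have h8 := mul_le_mul_of_nonneg_left h6 (show 0 ≤ wN / n by positivity)
  rw [← h7] at h8
  linarith

/-- The number of the interior blocks. -/
theorem card_int {N L : ℕ} (hL : 1 ≤ L) (hN : 16 * L ≤ N) : (N : ℝ) / (4 * L) ≤ ((Finset.Icc 1 (N / L - 3)).card : ℝ) := by
  have hL0 : (0 : ℝ) < L := by exact_mod_cast hL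
  rw [Nat.card_Icc]
  have h1 : 16 ≤ N / L := by
    rw [Nat.le_div_iff_mul_le (by omega)]
    exact hN
  have h2 : N < (N / L + 1) * L := by
    have := Nat.lt_div_mul_add (a := N) (b := L) (by omega)
    rw [Nat.add_mul, Nat.one_mul]
    exact this
  have h3 : ((N / L - 3 + 1 - 1 : ℕ) : ℝ) = ((N / L : ℕ) : ℝ) - 3 := by
    rw [show N / L - 3 + 1 - 1 = N / L - 3 by omega]
    push_cast [Nat.cast_sub (show 3 ≤ N / L by omega)]
    ring
  rw [h3]
  have h4 : (N : ℝ) < (((N / L : ℕ) : ℝ) + 1) * L := by exact_mod_cast h2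
  have h5 : (16 : ℝ) ≤ ((N / L : ℕ) : ℝ) := by exact_mod_cast h1
  rw [div_le_iff₀ (by positivity)]
  nlinarith

end Pool.Agent.W_7d29a1_NP
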