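import Mathlib

/-!
STRICT NEWMAN - PIZA (MP_7d29a1_pr, proofs row 649), section 5: the recursion over the levels (pure). (helper64)
-/

namespace Pool.Agent.W_7d29a1_NP

open Finset

/-- The input of the recursion: levels `i`, the quantity `β i` at the duration `2 ^ i`; `V` is the normalised sum of the
variances of the conditional expectations, on a total duration of the level `J`. -/
def LevIn (β : ℕ → ℝ) (K : ℝ) : Prop :=
  ∀ B : ℝ, ∃ ρ : ℕ, 1 ≤ ρ ∧ ∃ cR : ℝ, 0 < cR ∧ ∀ D : ℕ, ∃ i₁ : ℕ, ∀ i J : ℕ, i₁ ≤ i → J ≤ i + D →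
    ∀ S : Finset ℕ, (∀ l ∈ S, i ≤ l ∧ l + ρ + 4 ≤ J) →
      ∃ V : ℕ → ℝ, Monotone V ∧ (∀ l, 0 ≤ V l) ∧ (∀ l, V l ≤ K * β (J + 1)) ∧ ∃ S' ⊆ S, S.card ≤ 2 * S'.card ∧
        ∀ l ∈ S', B * β l ≤ K * β (J + 1) ∨ V l + cR * β l ≤ V (l + ρ)

/-- Boundedly many levels double `β`. -/
theorem rec_pure {β : ℕ → ℝ} (hβ : ∀ i, 0 < β i) {K : ℝ} (hK : 1 ≤ K) {i₀ : ℕ}
    (hcomp : ∀ i d, i₀ ≤ i → β i ≤ K * 2 ^ d * β (i + d)) (hL : LevIn β K) :
    ∃ T i₂ : ℕ, 1 ≤ T ∧ ∀ i, i₂ ≤ i → 2 * β i ≤ β (i + T) := by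
  have hK0 : 0 < K := lt_of_lt_of_le one_pos hK
  -- the base
  obtain ⟨ρ₀, hρ₀, c₀, hc₀, h0⟩ := hL 1
  obtain ⟨e, he⟩ : ∃ e : ℝ, e = min 1 c₀ := ⟨_, rfl⟩
  have he0 : 0 < e := by rw [he]; exact lt_min one_pos hc₀
  have he1 : e ≤ 1 := by rw [he]; exact min_le_left _ _
  have hec : e ≤ c₀ := by rw [he]; exact min_le_right _ _
  obtain ⟨c₂, hc₂⟩ : ∃ c₂ : ℝ, c₂ = e / (K * 2 ^ (ρ₀ + 5)) := ⟨_, rfl⟩
  have hP : (1 : ℝ) ≤ 2 ^ (ρ₀ + 5) := one_le_pow₀ (by norm_num)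
  have hKP : 0 < K * 2 ^ (ρ₀ + 5) := by positivity
  have hc₂0 : 0 < c₂ := by rw [hc₂]; positivity
  have hbase : ∀ D : ℕ, ∃ i₁ : ℕ, ∀ i d : ℕ, i₁ ≤ i → d ≤ D → c₂ * β i ≤ β (i + d) := by
    intro D
    obtain ⟨i₁, h1⟩ := h0 D
    refine ⟨max i₁ i₀, fun i d hi hd => ?_⟩
    have hi1 : i₁ ≤ i := (le_max_left _ _).trans hi
    have hi0 : i₀ ≤ i := (le_max_right _ _).trans hi
    have hb := hβ i
    have hbd := hβ (i + d)
    rcases le_or_gt d (ρ₀ + 5) with hd1 | hd1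
    · have h2 := hcomp i d hi0
      have h3 : (2 : ℝ) ^ d ≤ 2 ^ (ρ₀ + 5) := pow_le_pow_right₀ (by norm_num) hd1
      have h4 : K * 2 ^ d * β (i + d) ≤ K * 2 ^ (ρ₀ + 5) * β (i + d) := by gcongr
      rw [hc₂, div_mul_eq_mul_div, div_le_iff₀ hKP]
      have h5 : e * β i ≤ 1 * β i := mul_le_mul_of_nonneg_right he1 hb.le
      linarith
    · obtain ⟨J, hJ⟩ : ∃ J : ℕ, i + d = J + 1 := ⟨i + d - 1, by omega⟩
      obtain ⟨V, hVm, hV0, hV1, S', hS', hcard, hdi⟩ := h1 i J hi1 (by omega) {i} (by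
        intro l hl
        rw [Finset.mem_singleton] at hl
        subst hl
        exact ⟨le_refl _, by omega⟩)
      rw [Finset.card_singleton] at hcard
      have hne : S'.Nonempty := by
        rw [← Finset.card_pos]
        omega
      obtain ⟨l, hl⟩ := hne
      have hli : l = i := by simpa using hS' hl
      subst hli
      have h6 : e * β l ≤ K * β (J + 1) := by
        rcases hdi l hl with h7 | h7
        · have : e * β l ≤ 1 * β l := mul_le_mul_of_nonneg_right he1 hb.le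
          linarith
        · have h8 : e * β l ≤ c₀ * β l := mul_le_mul_of_nonneg_right hec hb.le
          have h9 := hV1 (l + ρ₀)
          have h10 := hV0 l
          linarith
      rw [hJ] at hbd ⊢
      rw [hc₂, div_mul_eq_mul_div, div_le_iff₀ hKP]
      have h11 : K * β (J + 1) ≤ β (J + 1) * (K * 2 ^ (ρ₀ + 5)) := by
        have : K * β (J + 1) * 1 ≤ K * β (J + 1) * 2 ^ (ρ₀ + 5) := mul_le_mul_of_nonneg_left hP (by positivity)
        linarith
      linarith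
  -- the step
  obtain ⟨ρ, hρ, cR, hcR, h1⟩ := hL (2 * K / c₂)
  obtain ⟨M, hM⟩ := exists_nat_ge (4 * K / (cR * c₂))
  have hM' : 4 * K ≤ M * (cR * c₂) := by rwa [div_le_iff₀ (by positivity)] at hM
  obtain ⟨D, hD⟩ : ∃ D : ℕ, D = M * ρ + ρ + 4 := ⟨_, rfl⟩
  obtain ⟨i₁, hi₁⟩ := h1 D
  obtain ⟨i₃, hi₃⟩ := hbase D
  refine ⟨D + 1, max i₁ i₃, by omega, fun i hi => ?_⟩
  have hia : i₁ ≤ i := (le_max_left _ _).trans hi
  have hib : i₃ ≤ i := (le_max_right _ _).trans hi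
  have hb := hβ i
  obtain ⟨S, hS⟩ : ∃ S : Finset ℕ, S = (range M).image fun t => i + t * ρ := ⟨_, rfl⟩
  have hinj : Function.Injective fun t : ℕ => i + t * ρ := by
    intro t t' h
    have h2 : t * ρ = t' * ρ := by simpa using h
    exact Nat.eq_of_mul_eq_mul_right (by omega) h2
  have hScard : S.card = M := by rw [hS, Finset.card_image_of_injective _ hinj, Finset.card_range]
  obtain ⟨V, hVm, hV0, hV1, S', hS', hcard, hdi⟩ := hi₁ i (i + D) hia le_rfl S (by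
    intro l hl
    rw [hS, Finset.mem_image] at hl
    obtain ⟨t, ht, rfl⟩ := hl
    rw [Finset.mem_range] at ht
    have : t * ρ ≤ M * ρ := Nat.mul_le_mul_right ρ ht.le
    omega)
  rw [show i + D + 1 = i + (D + 1) by ring] at hV1 hdi
  have hmem : ∀ l ∈ S', ∃ t, t < M ∧ l = i + t * ρ := by
    intro l hl
    have h2 := hS' hl
    rw [hS, Finset.mem_image] at h2
    obtain ⟨t, ht, rfl⟩ := h2
    exact ⟨t, Finset.mem_range.1 ht, rfl⟩
  have hlow : ∀ l ∈ S', c₂ * β i ≤ β l := by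
    intro l hl
    obtain ⟨t, ht, rfl⟩ := hmem l hl
    have : t * ρ ≤ M * ρ := Nat.mul_le_mul_right ρ ht.le
    exact hi₃ i (t * ρ) hib (by omega)
  by_cases hA : ∃ l ∈ S', 2 * K / c₂ * β l ≤ K * β (i + (D + 1))
  · obtain ⟨l, hl, h2⟩ := hA
    have h3 := hlow l hl
    have h4 : 2 * K / c₂ * (c₂ * β i) ≤ 2 * K / c₂ * β l := mul_le_mul_of_nonneg_left h3 (by positivity)
    have h5 : 2 * K / c₂ * (c₂ * β i) = K * (2 * β i) := by field_simp
    rw [h5] at h4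
    exact le_of_mul_le_mul_left (h4.trans h2) hK0
  · push Not at hA
    have hB : ∀ l ∈ S', cR * (c₂ * β i) ≤ V (l + ρ) - V l := by
      intro l hl
      rcases hdi l hl with h2 | h2
      · exact absurd h2 (not_le.2 (hA l hl))
      · have h3 := mul_le_mul_of_nonneg_left (hlow l hl) hcR.le
        linarith
    have h2 : (S'.card : ℝ) * (cR * (c₂ * β i)) ≤ ∑ l ∈ S', (V (l + ρ) - V l) := by
      have := Finset.card_nsmul_le_sum S' (fun l => V (l + ρ) - V l) (cR * (c₂ * β i)) hB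
      rwa [nsmul_eq_mul] at this
    have h3 : ∑ l ∈ S', (V (l + ρ) - V l) ≤ ∑ l ∈ S, (V (l + ρ) - V l) :=
      Finset.sum_le_sum_of_subset_of_nonneg hS' fun l _ _ => sub_nonneg.2 (hVm (Nat.le_add_right _ _))
    have h4 : ∑ l ∈ S, (V (l + ρ) - V l) = V (i + M * ρ) - V i := by
      rw [hS, Finset.sum_image fun t _ t' _ h => hinj h]
      have h5 : ∀ t : ℕ, V (i + t * ρ + ρ) - V (i + t * ρ) = V (i + (t + 1) * ρ) - V (i + t * ρ) := fun t => by
        congr 2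
        ring
      simp only [h5]
      rw [Finset.sum_range_sub (fun t => V (i + t * ρ)) M]
      simp
    have h5 := hV1 (i + M * ρ)
    have h6 := hV0 i
    have h7 : (M : ℝ) ≤ 2 * S'.card := by
      rw [hScard] at hcard
      exact_mod_cast hcard
    have h8 : (M : ℝ) * (cR * (c₂ * β i)) ≤ 2 * S'.card * (cR * (c₂ * β i)) :=
      mul_le_mul_of_nonneg_right h7 (by positivity)
    have h9 : 4 * K * β i ≤ M * (cR * c₂) * β i := mul_le_mul_of_nonneg_right hM' hb.le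
    have h10 : K * (2 * β i) ≤ K * β (i + (D + 1)) := by nlinarith
    exact le_of_mul_le_mul_left h10 hK0

end Pool.Agent.W_7d29a1_NP
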