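import Pool.Agent.W_7d29a1_NP.Defs
import Pool.Agent.W_7d29a1_SR.ExitS

/-!
STRICT NEWMAN - PIZA (MP_7d29a1_pr, proofs row 649), 3.3 and the entropy bound: the place of the glued polymer at the row
where it jumps. (helper89)
-/

namespace Pool.Agent.W_7d29a1_NP

open MeasureTheory ProbabilityTheory Filter Topology Finset
open Pool.Agent.W_7d29a1_f21 Pool.Agent.W_7d29a1_F Pool.Agent.W_7d29a1_h4g Pool.Agent.W_7d29a1_G
open Pool.Agent.W_7d29a1_SR Pool.Agent.W_7d29a1_SL Pool.Agent.W_7d29a1_XG Pool.Agent.W_7d29a1_X42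

set_option maxHeartbeats 400000

noncomputable section

variable {μ : Measure ℝ}

theorem qw_nonneg (η : Env) (s l rr : ℕ) (x : ℤ) : 0 ≤ qw μ η s l rr x :=
  div_nonneg (gw_nonneg η s l rr x) (glue_pos η s l rr).le

theorem qw_le_one (η : Env) (s l rr : ℕ) {x : ℤ} (hx : x ∈ Finset.Icc (0 : ℤ) s) : qw μ η s l rr x ≤ 1 :=
  gw_le η s l rr hx

theorem qw_sum (η : Env) (s l rr : ℕ) : ∑ x ∈ Finset.Icc (0 : ℤ) s, qw μ η s l rr x = 1 := by
  unfold qw
  rw [← Finset.sum_div, ← glue_eq, div_self (glue_pos η s l rr).ne']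

theorem measurable_qw (s l rr : ℕ) (x : ℤ) : Measurable fun η => qw μ η s l rr x :=
  (measurable_gw s l rr x).div (measurable_glue s l rr)

theorem gw_pos (η : Env) (s l rr : ℕ) {x : ℤ} (hx : x ∈ Finset.Icc (0 : ℤ) s) : 0 < gw μ η s l rr x := by
  rw [Finset.mem_Icc] at hx
  exact mul_pos (W_pos η 0 hx.1 hx.2) (Real.exp_pos _)

theorem log_gw (η : Env) (s l rr : ℕ) {x : ℤ} (hx : x ∈ Finset.Icc (0 : ℤ) s) :
    Real.log (gw μ η s l rr x) = -X μ 0 η 0 s x + V μ 0 η ((s : ℤ) + l, x + md l) rr := by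
  rw [Finset.mem_Icc] at hx
  have h2 : 0 < W μ 0 η 0 s x := W_pos η 0 hx.1 hx.2
  unfold gw X
  rw [Real.log_mul h2.ne' (Real.exp_pos _).ne', Real.log_exp]
  ring

theorem Sub_log_gw (s l rr : ℕ) {x : ℤ} (hx : x ∈ Finset.Icc (0 : ℤ) s) : Sub fun η => Real.log (gw μ η s l rr x) := by
  have h1 : (fun η : Env => Real.log (gw μ η s l rr x)) =
      fun η => -X μ 0 η 0 s x + V μ 0 η ((s : ℤ) + l, x + md l) rr := by
    funext η
    exact log_gw η s l rr hx
  rw [h1]
  rw [Finset.mem_Icc] at hx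
  exact (Sub_X 0 hx.1 hx.2).neg.add (Sub_V _ _)

/-- The entropy of a probability vector. -/
theorem ent_pure {ι : Type*} (I : Finset ι) (q : ι → ℝ) (h0 : ∀ i ∈ I, 0 < q i) (h1 : ∑ i ∈ I, q i = 1) :
    ∑ i ∈ I, q i * Real.log (1 / q i) ≤ Real.log I.card := by
  have hne : I.Nonempty := by
    rw [Finset.nonempty_iff_ne_empty]
    rintro rfl
    simp at h1
  have hn : (0 : ℝ) < I.card := by exact_mod_cast hne.card_pos
  have h2 : ∀ i ∈ I, q i * Real.log (1 / q i) ≤ q i * Real.log I.card + 1 / I.card - q i := by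
    intro i hi
    have hq := h0 i hi
    have h3 := Real.log_le_sub_one_of_pos (show 0 < 1 / (q i * I.card) by positivity)
    have h4 : Real.log (1 / q i) = Real.log I.card + Real.log (1 / (q i * I.card)) := by
      rw [← Real.log_mul hn.ne' (by positivity)]
      congr 1
      field_simp
    have h5 := mul_le_mul_of_nonneg_left h3 hq.le
    have h6 : q i * (1 / (q i * I.card) - 1) = 1 / I.card - q i := by
      field_simp
    rw [h4]
    linarith
  refine (Finset.sum_le_sum h2).trans (le_of_eq ?_)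
  rw [Finset.sum_sub_distrib, Finset.sum_add_distrib, ← Finset.sum_mul, h1, Finset.sum_const, nsmul_eq_mul]
  field_simp
  ring

/-- The deterministic entropy bound. -/
theorem ent_det (η : Env) (s l rr : ℕ) (v : ℝ) :
    ∑ x ∈ Finset.Icc (0 : ℤ) s, max (qw μ η s l rr x * (v - Real.log (gw μ η s l rr x))) 0 ≤
      max (v - Real.log (glue μ η s l rr)) 0 + Real.log (s + 1) := by
  have h1 : ∀ x ∈ Finset.Icc (0 : ℤ) s, max (qw μ η s l rr x * (v - Real.log (gw μ η s l rr x))) 0 ≤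
      qw μ η s l rr x * max (v - Real.log (glue μ η s l rr)) 0 + qw μ η s l rr x * Real.log (1 / qw μ η s l rr x) := by
    intro x hx
    have hg := gw_pos (μ := μ) η s l rr hx
    have hS := glue_pos (μ := μ) η s l rr
    have hq : 0 < qw μ η s l rr x := div_pos hg hS
    have hq1 := qw_le_one (μ := μ) η s l rr hx
    have h2 : Real.log (gw μ η s l rr x) = Real.log (glue μ η s l rr) - Real.log (1 / qw μ η s l rr x) := by
      unfold qw
      rw [one_div_div, Real.log_div hS.ne' hg.ne']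
      ring
    have h3 : 0 ≤ Real.log (1 / qw μ η s l rr x) := Real.log_nonneg (by
      rw [le_div_iff₀ hq, one_mul]
      exact hq1)
    rw [h2]
    refine max_le ?_ (add_nonneg (mul_nonneg hq.le (le_max_right _ _)) (mul_nonneg hq.le h3))
    have h4 := mul_le_mul_of_nonneg_left (le_max_left (v - Real.log (glue μ η s l rr)) 0) hq.le
    linarith
  refine (Finset.sum_le_sum h1).trans ?_
  rw [Finset.sum_add_distrib, ← Finset.sum_mul, qw_sum, one_mul]
  have h2 := ent_pure (Finset.Icc (0 : ℤ) s) (fun x => qw μ η s l rr x)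
    (fun x hx => div_pos (gw_pos η s l rr hx) (glue_pos η s l rr)) (qw_sum η s l rr)
  have h3 : (((Finset.Icc (0 : ℤ) s).card : ℕ) : ℝ) = s + 1 := by
    rw [Int.card_Icc, sub_zero]
    have : ((s : ℤ) + 1).toNat = s + 1 := by omega
    rw [this]
    push_cast
    ring
  rw [h3] at h2
  linarith

/-- The weights are those of the glued environment. -/
theorem gw_gm (η : Env) (s l rr : ℕ) (x : ℤ) :
    W μ 0 (gm s l η) 0 s x * Real.exp (V μ 0 (gm s l η) ((0 : Pt).1 + (s : ℤ), (0 : Pt).2 + x) rr) = gw μ η s l rr x := by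
  have h1 : W μ 0 (gm s l η) 0 s x = W μ 0 η 0 s x := by
    refine W_dep_rows (μ := μ) (s := 0) 0 s x fun p hp => ?_
    have h2 : p.1 ≤ (s : ℤ) := by
      have := hp.2
      simpa using this
    show η (if p.1 ≤ (s : ℤ) then p else (p.1 + l, p.2 + md l)) = η p
    rw [if_pos h2]
  have h2 : V μ 0 (gm s l η) ((0 : Pt).1 + (s : ℤ), (0 : Pt).2 + x) rr =
      V μ 0 (sh ((l : ℤ), md l) η) ((0 : Pt).1 + (s : ℤ), (0 : Pt).2 + x) rr := by
    refine V_dep_rows (μ := μ) (s := 0) _ rr fun p hp => ?_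
    have h3 : ¬p.1 ≤ (s : ℤ) := by
      have := hp.1
      simpa using this
    show η (if p.1 ≤ (s : ℤ) then p else (p.1 + l, p.2 + md l)) = η (p + ((l : ℤ), md l))
    rw [if_neg h3]
    rfl
  rw [h1, h2, V_sh]
  unfold gw
  congr 3
  ext
  · show (0 : ℤ) + s + l = s + l
    ring
  · show (0 : ℤ) + x + md l = x + md l
    ring

/-- The polymers which stay in the strip are in the strip at the row `s`. -/
theorem cf_le_near {r : ℝ} (hr : 0 ≤ r) (η : Env) (s rr : ℕ) :
    cf μ r η 0 (s + rr) ≤ ∑ x ∈ nearS s r 0,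
      W μ 0 η 0 s x * Real.exp (V μ 0 η ((0 : Pt).1 + (s : ℤ), (0 : Pt).2 + x) rr) := by
  have h1 : cf μ r η 0 (s + rr) ≤ ∑ k ∈ Finset.Icc (0 : ℤ) s, WR μ 0 (St r 0) η 0 s k *
      Real.exp (V μ 0 η ((0 : Pt).1 + (s : ℤ), (0 : Pt).2 + k) rr) := by
    unfold cf
    have h2 : ∀ y ∈ Finset.Icc (0 : ℤ) ((s + rr : ℕ) : ℤ), WR μ 0 (St r 0) η 0 (s + rr) y =
        ∑ k ∈ Finset.Icc (0 : ℤ) s, WR μ 0 (St r 0) η 0 s k *
          WR μ 0 (St r 0) η ((0 : Pt).1 + (s : ℤ), (0 : Pt).2 + k) rr (y - k) := fun y _ => WR_add _ η 0 s rr y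
    rw [Finset.sum_congr rfl h2, Finset.sum_comm]
    refine Finset.sum_le_sum fun k hk => ?_
    rw [← Finset.mul_sum]
    refine mul_le_mul_of_nonneg_left ?_ (WR_nonneg _ _ _ _ _)
    rw [exp_V]
    unfold WS
    rw [Finset.mem_Icc] at hk
    refine (Finset.sum_le_sum fun y _ => WR_le_W (St r 0) η _ rr (y - k)).trans ?_
    have h3 : ∑ y ∈ Finset.Icc (0 : ℤ) ((s + rr : ℕ) : ℤ), W μ 0 η ((0 : Pt).1 + (s : ℤ), (0 : Pt).2 + k) rr (y - k) =
        ∑ y ∈ (Finset.Icc (0 : ℤ) ((s + rr : ℕ) : ℤ)).image (fun y => y - k),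
          W μ 0 η ((0 : Pt).1 + (s : ℤ), (0 : Pt).2 + k) rr y := by
      rw [Finset.sum_image fun a _ b _ h => by
        have : a - k = b - k := h
        omega]
    rw [h3]
    refine le_of_eq_of_le ?_ (le_refl (∑ y ∈ Finset.Icc (0 : ℤ) rr, W μ 0 η ((0 : Pt).1 + (s : ℤ), (0 : Pt).2 + k) rr y))
    symm
    refine Finset.sum_subset ?_ fun y _ hy => W_eq_zero η _ (by rwa [Finset.mem_Icc] at hy)
    intro y hy
    rw [Finset.mem_Icc] at hy
    refine Finset.mem_image.2 ⟨y + k, ?_, by ring⟩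
    rw [Finset.mem_Icc]
    push_cast
    omega
  refine h1.trans ?_
  have h2 : ∑ k ∈ Finset.Icc (0 : ℤ) s, WR μ 0 (St r 0) η 0 s k *
      Real.exp (V μ 0 η ((0 : Pt).1 + (s : ℤ), (0 : Pt).2 + k) rr) =
      ∑ k ∈ nearS s r 0, WR μ 0 (St r 0) η 0 s k *
      Real.exp (V μ 0 η ((0 : Pt).1 + (s : ℤ), (0 : Pt).2 + k) rr) := by
    symm
    refine Finset.sum_subset (Finset.filter_subset _ _) fun k hk hk' => ?_
    rw [WR_St_out hr (Set.Subset.refl _) η s (y := k), zero_mul]
    intro h3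
    refine hk' (Finset.mem_filter.2 ⟨hk, ?_⟩)
    have h4 : (k : ℝ) - (s : ℝ) / 2 - ((0 : ℤ) : ℝ) = (2 * (k : ℝ) - s) / 2 := by
      push_cast
      ring
    rw [h4, abs_div, abs_two]
    linarith
  rw [h2]
  exact Finset.sum_le_sum fun k _ => mul_le_mul_of_nonneg_right (WR_le_W _ _ _ _ _) (Real.exp_pos _).le

variable [IsProbabilityMeasure μ]

theorem qw_mul_integrable (s l rr : ℕ) {x : ℤ} (hx : x ∈ Finset.Icc (0 : ℤ) s) {f : Env → ℝ}
    (hf : Integrable f (law μ)) : Integrable (fun η => qw μ η s l rr x * f η) (law μ) := by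
  refine hf.bdd_mul (c := 1) (measurable_qw s l rr x).aestronglyMeasurable (Filter.Eventually.of_forall fun η => ?_)
  rw [Real.norm_eq_abs, abs_of_nonneg (qw_nonneg _ _ _ _ _)]
  exact qw_le_one η s l rr hx

/-- Integrability and the entropy bound. -/
theorem ent (hEM : Pool.Agent.W_7d29a1_h47.EM μ) (s l rr : ℕ) :
    (∀ x ∈ Finset.Icc (0 : ℤ) s, Integrable (fun η => qw μ η s l rr x *
      (V μ 0 η 0 (s + (l + rr)) - Real.log (gw μ η s l rr x))) (law μ)) ∧
    ∑ x ∈ Finset.Icc (0 : ℤ) s, ∫ η, max (qw μ η s l rr x *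
      (V μ 0 η 0 (s + (l + rr)) - Real.log (gw μ η s l rr x))) 0 ∂(law μ) ≤
      (max (bb μ (s + rr) - bb μ (s + (l + rr))) 0 + ep μ l (md l)) + Real.log (s + 1) + 1 := by
  have h1 : ∀ x ∈ Finset.Icc (0 : ℤ) s, Integrable (fun η => qw μ η s l rr x *
      (V μ 0 η 0 (s + (l + rr)) - Real.log (gw μ η s l rr x))) (law μ) := fun x hx =>
    qw_mul_integrable s l rr hx (((Sub_V 0 _).sub (Sub_log_gw s l rr hx)).integrable hEM)
  refine ⟨h1, ?_⟩
  rw [← integral_finsetSum _ fun x hx => (h1 x hx).pos_part]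
  have i1 : Integrable (fun η => max (V μ 0 η 0 (s + (l + rr)) - Real.log (glue μ η s l rr)) 0) (law μ) :=
    (((Sub_V 0 _).sub (Sub_glue s l rr)).max (Sub.const 0)).integrable hEM
  have h2 : ∫ η, ∑ x ∈ Finset.Icc (0 : ℤ) s, max (qw μ η s l rr x *
      (V μ 0 η 0 (s + (l + rr)) - Real.log (gw μ η s l rr x))) 0 ∂(law μ) ≤
      ∫ η, (max (V μ 0 η 0 (s + (l + rr)) - Real.log (glue μ η s l rr)) 0 + Real.log (s + 1)) ∂(law μ) :=
    integral_mono (integrable_finsetSum _ fun x hx => (h1 x hx).pos_part) (i1.add (integrable_const _)) fun η =>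
      ent_det η s l rr _
  refine h2.trans ?_
  rw [integral_add i1 (integrable_const _), integral_const, probReal_univ, one_smul]
  have h3 := above_glue (μ := μ) hEM s l rr
  have h4 := le_max_left (bb μ (s + rr) - bb μ (s + (l + rr))) 0
  linarith

variable {c C : ℝ} {n₀ : ℕ}

/-- The mean of the mass in the strip. -/
theorem in_strip (h : In μ c C n₀) : ∃ R₂ : ℝ, 1 ≤ R₂ ∧ ∃ n₁ : ℕ, ∀ n, n₁ ≤ n →
    1 / 2 ≤ ∫ η, cf μ (R₂ * wd μ n) η 0 n / Real.exp (V μ 0 η 0 n) ∂(law μ) := by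
  have hc0 := h.c0
  have hC1 := h.C1
  have hC0 : 0 < C := lt_of_lt_of_le one_pos hC1
  obtain ⟨R0, hR01, -, n₁, hn₁, hexit⟩ := exit_main h
  obtain ⟨R, hR⟩ : ∃ R : ℝ, R = R0 + 128 / c + 512 * C ^ 2 / c := ⟨_, rfl⟩
  have hR0 : R0 ≤ R := by
    rw [hR]
    have h1 : 0 ≤ 128 / c := by positivity
    have h2 : 0 ≤ 512 * C ^ 2 / c := by positivity
    linarith
  have hRc : 128 ≤ c * R := by
    have h1 : 128 / c ≤ R := by
      rw [hR]
      have h2 : 0 ≤ 512 * C ^ 2 / c := by positivity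
      linarith
    rw [div_le_iff₀ hc0] at h1
    linarith
  have hRC : 512 * C ^ 2 ≤ c * R := by
    have h1 : 512 * C ^ 2 / c ≤ R := by
      rw [hR]
      have h2 : 0 ≤ 128 / c := by positivity
      linarith
    rw [div_le_iff₀ hc0] at h1
    linarith
  refine ⟨R, hR01.trans hR0, n₁, fun n hn => ?_⟩
  have hE1 : 1 ≤ EE μ n := one_le_EE n
  obtain ⟨B, hB⟩ : ∃ B : Set Env, B = {η | Real.exp (-(c / 64 * R * EE μ n)) * Real.exp (V μ 0 η 0 n) ≤
        Real.exp (V μ 0 η 0 n) - cf μ (R * wd μ n) η 0 n} := ⟨_, rfl⟩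
  have hBm : MeasurableSet B := by
    rw [hB]
    have m1 : Measurable fun η : Env => Real.exp (V μ 0 η 0 n) := Real.measurable_exp.comp (measurable_V 0 n)
    have m2 : Measurable fun η : Env => cf μ (R * wd μ n) η 0 n :=
      Finset.measurable_sum _ fun y _ => measurable_WR _ 0 n y
    exact measurableSet_le (m1.const_mul _) (m1.sub m2)
  have hPB : (law μ).real B ≤ 1 / 4 := by
    have h1 := hexit n hn R hR0
    rw [← hB] at h1
    have h2 : 4 * (C * Real.exp (-(c * R / (16 * C)))) ≤ 1 / 8 := by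
      have h3 : 32 * C ≤ c * R / (16 * C) := by
        rw [le_div_iff₀ (by positivity)]
        nlinarith
      have h4 := Real.add_one_le_exp (c * R / (16 * C))
      have h5 : Real.exp (-(c * R / (16 * C))) ≤ 1 / (32 * C) := by
        rw [Real.exp_neg, ← one_div]
        exact one_div_le_one_div_of_le (by positivity) (by linarith)
      calc 4 * (C * Real.exp (-(c * R / (16 * C)))) ≤ 4 * (C * (1 / (32 * C))) := by gcongr
        _ = 1 / 8 := by
            field_simp
            norm_num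
    have h3 : (law μ).real {η | V μ 0 η 0 n ≤ -(c * R / 16 * EE μ n)} ≤ 1 / 8 := by
      have i1 : Integrable (fun η => max (X μ 0 η 0 n (md n)) 0) (law μ) :=
        (Pool.Agent.W_7d29a1_L78.Sub_Xp 0 (md_nonneg n) (md_le n)).integrable h.em
      have h4 := mul_meas_ge_le_integral_of_nonneg (μ := law μ) (f := fun η => max (X μ 0 η 0 n (md n)) 0)
        (Filter.Eventually.of_forall fun η => le_max_right _ _) i1 (8 * EE μ n)
      have h5 : ∫ η, max (X μ 0 η 0 n (md n)) 0 ∂(law μ) ≤ EE μ n := by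
        have := ep_le_EE (μ := μ) (le_refl n)
        unfold ep at this
        linarith
      have h6 : (law μ).real {η | V μ 0 η 0 n ≤ -(c * R / 16 * EE μ n)} ≤
          (law μ).real {η | 8 * EE μ n ≤ max (X μ 0 η 0 n (md n)) 0} := by
        refine measureReal_mono (fun η hη => ?_) (measure_ne_top _ _)
        rw [Set.mem_ofPred_eq] at hη ⊢
        have h7 := neg_X_le_V (μ := μ) (s := 0) η 0 (md_nonneg n) (md_le n)
        have h8 : 8 * EE μ n ≤ c * R / 16 * EE μ n := mul_le_mul_of_nonneg_right (by linarith) (by linarith)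
        exact le_trans (by linarith) (le_max_left _ _)
      have h7 : 8 * EE μ n * (law μ).real {η | 8 * EE μ n ≤ max (X μ 0 η 0 n (md n)) 0} ≤ EE μ n := h4.trans h5
      have h8 : 8 * (law μ).real {η | 8 * EE μ n ≤ max (X μ 0 η 0 n (md n)) 0} ≤ 1 := by
        have : EE μ n * (8 * (law μ).real {η | 8 * EE μ n ≤ max (X μ 0 η 0 n (md n)) 0}) ≤ EE μ n * 1 := by linarith
        exact le_of_mul_le_mul_left this (by linarith)
      linarith
    linarith
  have hsmall : Real.exp (-(c / 64 * R * EE μ n)) ≤ 1 / 4 := by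
    have h1 : 3 ≤ c / 64 * R * EE μ n + 1 := by
      have h2 : 2 ≤ c / 64 * R := by linarith
      nlinarith
    have h2 : 2 ≤ c / 64 * R * EE μ n := by linarith
    have h3 : Real.exp (-(c / 64 * R * EE μ n)) ≤ Real.exp (-2) := Real.exp_le_exp.2 (by linarith)
    have h4 : (4 : ℝ) ≤ Real.exp 2 := by
      have h5 := Real.exp_one_gt_d9
      have h6 : Real.exp 2 = Real.exp 1 * Real.exp 1 := by
        rw [← Real.exp_add]
        norm_num
      rw [h6]
      nlinarith
    refine h3.trans ?_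
    rw [Real.exp_neg, ← one_div]
    exact one_div_le_one_div_of_le (by norm_num) h4
  -- the pointwise bound
  have hpt : ∀ η, 1 - (1 / 4 + B.indicator (fun _ => (1 : ℝ)) η) ≤
      cf μ (R * wd μ n) η 0 n / Real.exp (V μ 0 η 0 n) := by
    intro η
    have hV := Real.exp_pos (V μ 0 η 0 n)
    have hcf : 0 ≤ cf μ (R * wd μ n) η 0 n := Finset.sum_nonneg fun y _ => WR_nonneg _ _ _ _ _
    by_cases hη : η ∈ B
    · rw [Set.indicator_of_mem hη]
      have : 0 ≤ cf μ (R * wd μ n) η 0 n / Real.exp (V μ 0 η 0 n) := by positivity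
      linarith
    · rw [Set.indicator_of_notMem hη, le_div_iff₀ hV]
      rw [hB, Set.mem_ofPred_eq, not_le] at hη
      have h1 := mul_le_mul_of_nonneg_right hsmall hV.le
      linarith
  have i1 : Integrable (fun η => 1 - (1 / 4 + B.indicator (fun _ => (1 : ℝ)) η)) (law μ) :=
    (integrable_const 1).sub ((integrable_const _).add ((integrable_const 1).indicator hBm))
  have i2 : Integrable (fun η => cf μ (R * wd μ n) η 0 n / Real.exp (V μ 0 η 0 n)) (law μ) := by
    have m1 : Measurable fun η : Env => Real.exp (V μ 0 η 0 n) := Real.measurable_exp.comp (measurable_V 0 n)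
    have m2 : Measurable fun η : Env => cf μ (R * wd μ n) η 0 n :=
      Finset.measurable_sum _ fun y _ => measurable_WR _ 0 n y
    refine Integrable.of_bound (m2.div m1).aestronglyMeasurable 1 (Filter.Eventually.of_forall fun η => ?_)
    have hV := Real.exp_pos (V μ 0 η 0 n)
    have hcf : 0 ≤ cf μ (R * wd μ n) η 0 n := Finset.sum_nonneg fun y _ => WR_nonneg _ _ _ _ _
    rw [Real.norm_eq_abs, abs_of_nonneg (by positivity), div_le_one hV]
    exact cf_le_V _ _ _ _
  have h1 := integral_mono i1 i2 hpt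
  refine le_trans ?_ h1
  rw [integral_sub (integrable_const 1) ((integrable_const _).add ((integrable_const 1).indicator hBm)),
    integral_add (integrable_const _) ((integrable_const 1).indicator hBm), integral_indicator_const _ hBm,
    integral_const, integral_const, probReal_univ, one_smul, one_smul, smul_eq_mul, mul_one]
  linarith

/-- The glued polymer is in the cone of the whole duration at the row `s`. -/
theorem loc (h : In μ c C n₀) : ∃ R₂ : ℝ, 1 ≤ R₂ ∧ ∃ n₁ : ℕ, ∀ s l rr : ℕ, n₁ ≤ s + rr →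
    1 / 2 ≤ ∑ x ∈ nearS s (R₂ * wd μ (s + rr)) 0, ∫ η, qw μ η s l rr x ∂(law μ) := by
  obtain ⟨R₂, hR₂, n₁, hn₁⟩ := in_strip h
  refine ⟨R₂, hR₂, n₁, fun s l rr hn => ?_⟩
  refine (hn₁ (s + rr) hn).trans ?_
  obtain ⟨r, hr⟩ : ∃ r : ℝ, r = R₂ * wd μ (s + rr) := ⟨_, rfl⟩
  rw [← hr]
  have hr0 : 0 ≤ r := by
    rw [hr]
    exact mul_nonneg (by linarith) (mul_nonneg (vA_nonneg (μ := μ) h.em zero_le_one _) (Nat.cast_nonneg _))
  have hsub : ∀ x ∈ nearS s r 0, x ∈ Finset.Icc (0 : ℤ) s := fun x hx => (Finset.mem_filter.1 hx).1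
  have hqi : ∀ x ∈ nearS s r 0, Integrable (fun η => qw μ η s l rr x) (law μ) := fun x hx => by
    have := qw_mul_integrable (μ := μ) s l rr (hsub x hx) (f := fun _ => 1) (integrable_const 1)
    simpa using this
  rw [← integral_finsetSum _ hqi]
  have m1 : Measurable fun η : Env => Real.exp (V μ 0 η 0 (s + rr)) := Real.measurable_exp.comp (measurable_V 0 _)
  have m2 : Measurable fun η : Env => cf μ r η 0 (s + rr) :=
    Finset.measurable_sum _ fun y _ => measurable_WR _ 0 _ y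
  have h1 := Pool.Agent.W_7d29a1_f21.mp_integral (mp_gm (μ := μ) s l)
    (F := fun η : Env => cf μ r η 0 (s + rr) / Real.exp (V μ 0 η 0 (s + rr))) (m2.div m1).aestronglyMeasurable
  rw [← h1]
  refine integral_mono_of_nonneg (Filter.Eventually.of_forall fun η => ?_) (integrable_finsetSum _ hqi)
    (Filter.Eventually.of_forall fun η => ?_)
  · show (0 : ℝ) ≤ cf μ r (gm s l η) 0 (s + rr) / Real.exp (V μ 0 (gm s l η) 0 (s + rr))
    exact div_nonneg (Finset.sum_nonneg fun y _ => WR_nonneg _ _ _ _ _) (Real.exp_pos _).le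
  · show cf μ r (gm s l η) 0 (s + rr) / Real.exp (V μ 0 (gm s l η) 0 (s + rr)) ≤
      ∑ x ∈ nearS s r 0, qw μ η s l rr x
    rw [exp_V_gm]
    have h2 := cf_le_near (μ := μ) hr0 (gm s l η) s rr
    simp only [gw_gm] at h2
    unfold qw
    rw [← Finset.sum_div]
    exact div_le_div_of_nonneg_right h2 (glue_pos η s l rr).le

end

end Pool.Agent.W_7d29a1_NP
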