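import Pool.Agent.W_7d29a1_NP.Defs

/-!
STRICT NEWMAN - PIZA (MP_7d29a1_pr, proofs row 649, 3.2): the deterministic chain through the `R` lucky strips of a tube.
-/

namespace Pool.Agent.W_7d29a1_NP

open MeasureTheory ProbabilityTheory Filter Topology Finset
open Pool.Agent.W_7d29a1_f21 Pool.Agent.W_7d29a1_F Pool.Agent.W_7d29a1_h4g Pool.Agent.W_7d29a1_G
open Pool.Agent.W_7d29a1_SR Pool.Agent.W_7d29a1_SL Pool.Agent.W_7d29a1_XG Pool.Agent.W_7d29a1_X42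

noncomputable section

variable {μ : Measure ℝ}

theorem X_zero7 (η : Env) (a : Pt) : X μ 0 η a 0 0 = 0 := by
  unfold X W WR
  simp [Zr]

/-- The starts of the tube in the next slab. -/
theorem tp_succ7 {a m : ℕ} (z : ℤ) (j : ℕ) : tp (a + m) m z j = tp a m z (j + 1) := by
  unfold tp
  have h : a + m + j * m = a + (j + 1) * m := by ring
  rw [h]

theorem tp_one7 {a m : ℕ} (ha : Even a) (hm : Even m) (z : ℤ) :
    tp a m z 1 = ((tp a m z 0).1 + (m : ℤ), (tp a m z 0).2 + ((m / 2 : ℕ) : ℤ)) := by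
  unfold tp
  obtain ⟨p, hp⟩ := ha
  obtain ⟨q, hq⟩ := hm
  refine Prod.ext ?_ ?_
  · show (((a + 1 * m : ℕ) : ℤ)) = ((a + 0 * m : ℕ) : ℤ) + (m : ℤ)
    push_cast
    ring
  · show (((a + 1 * m) / 2 : ℕ) : ℤ) + z = (((a + 0 * m) / 2 : ℕ) : ℤ) + z + ((m / 2 : ℕ) : ℤ)
    have h1 : (a + 1 * m) / 2 = (a + 0 * m) / 2 + m / 2 := by omega
    rw [h1]
    push_cast
    ring

/-- Through `R` lucky strips. -/
theorem strips7 {r : ℝ} (hr : 1 ≤ r) (η : Env) {m k : ℕ} (hme : Even m) (hk : k ≤ m) {z : ℤ}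
    (hend : ∀ y : ℤ, 0 ≤ y → y ≤ k → |2 * (y : ℝ) - k| ≤ 2 * r →
      0 ≤ ((m / 2 : ℕ) : ℤ) - y ∧ ((m / 2 : ℕ) : ℤ) - y ≤ ((m - k : ℕ) : ℤ)) (n₃ : ℕ) :
    ∀ (R a : ℕ), Even a → ∑ j ∈ range R, (Real.log (cf μ r η (tp a m z j) k) -
          CQ μ (St r (tp a m z j)) η (tp a m z j) k (m - k) ((m / 2 : ℕ) : ℤ)) + V μ 0 η (tp a m z R) n₃ ≤
      V μ 0 η (tp a m z 0) (R * m + n₃) := by
  intro R
  induction R with
  | zero =>
    intro a _
    simp
  | succ R ih =>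
    intro a ha
    have h1 := ih (a + m) (ha.add hme)
    simp only [tp_succ7] at h1
    rw [zero_add] at h1
    have h2 := luck_det (μ := μ) (S := St r (tp a m z 0)) (by linarith : (0 : ℝ) ≤ r) η (tp a m z 0) (t₁ := 0) (y₁ := 0)
      le_rfl le_rfl (by simp) k (m - k) (R * m + n₃) ((m / 2 : ℕ) : ℤ) hend
      (by
        have := cf_pos (μ := μ) hr η (tp a m z 0) k
        simpa [cS, cf] using this)
    have e1 : (((tp a m z 0).1 + ((0 : ℕ) : ℤ), (tp a m z 0).2 + (0 : ℤ)) : Pt) = tp a m z 0 :=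
      Prod.ext (by simp) (by simp)
    have e2 : (((tp a m z 0).1 + ((0 : ℕ) : ℤ) + (k : ℤ) + ((m - k : ℕ) : ℤ),
        (tp a m z 0).2 + (0 : ℤ) + ((m / 2 : ℕ) : ℤ)) : Pt) = tp a m z 1 := by
      rw [tp_one7 ha hme]
      refine Prod.ext ?_ ?_
      · show (tp a m z 0).1 + ((0 : ℕ) : ℤ) + (k : ℤ) + ((m - k : ℕ) : ℤ) = (tp a m z 0).1 + (m : ℤ)
        push_cast [hk]
        ring
      · show (tp a m z 0).2 + (0 : ℤ) + ((m / 2 : ℕ) : ℤ) = (tp a m z 0).2 + ((m / 2 : ℕ) : ℤ)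
        ring
    rw [e1, e2, X_zero7] at h2
    have e3 : 0 + (k + (m - k + (R * m + n₃))) = (R + 1) * m + n₃ := by
      have : (R + 1) * m = R * m + m := by ring
      rw [this]
      omega
    rw [e3] at h2
    have e4 : cS μ (St r (tp a m z 0)) η (tp a m z 0) k = cf μ r η (tp a m z 0) k := rfl
    rw [e4] at h2
    rw [Finset.sum_range_succ']
    linarith

/-- THE CHAIN: to the row `s`, to the tube, through the `R` lucky strips, back to the glued polymer. -/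
theorem chain {r : ℝ} (hr : 1 ≤ r) (η : Env) {s m k R : ℕ} (hs : Even s) (hme : Even m) (hk : k ≤ m)
    {z x : ℤ}
    (hend : ∀ y : ℤ, 0 ≤ y → y ≤ k → |2 * (y : ℝ) - k| ≤ 2 * r →
      0 ≤ ((m / 2 : ℕ) : ℤ) - y ∧ ((m / 2 : ℕ) : ℤ) - y ≤ ((m - k : ℕ) : ℤ))
    (hx : x ∈ Finset.Icc (0 : ℤ) s) (hx1 : |(x : ℝ) - (s : ℝ) / 2 - z| ≤ ((R * m : ℕ) : ℝ) / 2) (rr : ℕ) :
    Real.log (gw μ η s (4 * (R * m)) rr x)
      - X μ 0 η ((s : ℤ), x) (R * m) (z + ((s + R * m) / 2 : ℕ) - x)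
      - X μ 0 η (tp (s + R * m) m z R) (2 * (R * m)) (x + 2 * (R * m : ℕ) - (z + ((s + 2 * (R * m)) / 2 : ℕ)))
      + ∑ j ∈ range R, (Real.log (cf μ r η (tp (s + R * m) m z j) k) -
          CQ μ (St r (tp (s + R * m) m z j)) η (tp (s + R * m) m z j) k (m - k) ((m / 2 : ℕ) : ℤ)) ≤
      V μ 0 η 0 (s + (4 * (R * m) + rr)) := by
  obtain ⟨L, hL⟩ : ∃ L : ℕ, L = R * m := ⟨_, rfl⟩
  have hLe : Even L := by rw [hL]; exact hme.mul_left R
  rw [Finset.mem_Icc] at hx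
  rw [← hL] at hx1 ⊢
  obtain ⟨p, hp⟩ := hs
  obtain ⟨q, hq⟩ := hLe
  have hsp : ((s / 2 : ℕ) : ℤ) = p := by
    have : s / 2 = p := by omega
    rw [this]
  have habs := abs_le.1 hx1
  have hpq1 : (x : ℤ) - p - z ≤ q := by
    have h1 : (x : ℝ) - p - z ≤ q := by
      have h2 : (s : ℝ) = p + p := by exact_mod_cast hp
      have h3 : (L : ℝ) = q + q := by exact_mod_cast hq
      rw [h2, h3] at habs
      linarith [habs.2]
    exact_mod_cast h1
  have hpq2 : -(q : ℤ) ≤ x - p - z := by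
    have h1 : -(q : ℝ) ≤ (x : ℝ) - p - z := by
      have h2 : (s : ℝ) = p + p := by exact_mod_cast hp
      have h3 : (L : ℝ) = q + q := by exact_mod_cast hq
      rw [h2, h3] at habs
      linarith [habs.1]
    exact_mod_cast h1
  -- to the row `s`
  have h1 := V_add_ge (μ := μ) (s := 0) η 0 s (4 * L + rr) hx.1 hx.2
  have e1 : (((0 : Pt).1 + (s : ℤ), (0 : Pt).2 + x) : Pt) = ((s : ℤ), x) :=
    Prod.ext (by simp) (by simp)
  rw [e1] at h1
  -- to the tube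
  have hy1 : (0 : ℤ) ≤ z + ((s + L) / 2 : ℕ) - x := by
    have : (s + L) / 2 = p + q := by omega
    rw [this]
    push_cast
    linarith
  have hy2 : z + ((s + L) / 2 : ℕ) - x ≤ (L : ℤ) := by
    have : (s + L) / 2 = p + q := by omega
    rw [this, hq]
    push_cast
    linarith
  have h2 := V_add_ge (μ := μ) (s := 0) η ((s : ℤ), x) L (L + (2 * L + rr)) hy1 hy2
  have e2 : ((((s : ℤ), x) : Pt).1 + (L : ℤ), (((s : ℤ), x) : Pt).2 + (z + ((s + L) / 2 : ℕ) - x)) =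
      tp (s + L) m z 0 := by
    unfold tp
    refine Prod.ext ?_ ?_
    · show (s : ℤ) + (L : ℤ) = ((s + L + 0 * m : ℕ) : ℤ)
      push_cast
      ring
    · show x + (z + (((s + L) / 2 : ℕ) : ℤ) - x) = (((s + L + 0 * m) / 2 : ℕ) : ℤ) + z
      have : (s + L + 0 * m) / 2 = (s + L) / 2 := by simp
      rw [this]
      ring
  rw [e2] at h2
  -- through the strips
  have h3 := strips7 (μ := μ) hr η hme hk (z := z) hend (2 * L + rr) R (s + L) ⟨p + q, by omega⟩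
  rw [← hL] at h3
  -- back
  have hy3 : (0 : ℤ) ≤ x + 2 * (L : ℕ) - (z + ((s + 2 * L) / 2 : ℕ)) := by
    have : (s + 2 * L) / 2 = p + L := by omega
    rw [this, hq]
    push_cast
    linarith
  have hy4 : x + 2 * (L : ℕ) - (z + ((s + 2 * L) / 2 : ℕ)) ≤ ((2 * L : ℕ) : ℤ) := by
    have : (s + 2 * L) / 2 = p + L := by omega
    rw [this, hq]
    push_cast
    linarith
  have h4 := V_add_ge (μ := μ) (s := 0) η (tp (s + L) m z R) (2 * L) rr hy3 hy4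
  have e4 : ((tp (s + L) m z R).1 + ((2 * L : ℕ) : ℤ), (tp (s + L) m z R).2 +
      (x + 2 * (L : ℕ) - (z + ((s + 2 * L) / 2 : ℕ)))) = ((s : ℤ) + ((4 * L : ℕ) : ℤ), x + md (4 * L)) := by
    unfold tp md
    rw [← hL]
    refine Prod.ext ?_ ?_
    · show ((s + L + L : ℕ) : ℤ) + ((2 * L : ℕ) : ℤ) = (s : ℤ) + ((4 * L : ℕ) : ℤ)
      push_cast
      ring
    · show (((s + L + L) / 2 : ℕ) : ℤ) + z + (x + 2 * (L : ℕ) - (z + ((s + 2 * L) / 2 : ℕ))) = x + ((4 * L : ℕ) : ℤ) / 2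
      have i1 : (s + L + L) / 2 = (s + 2 * L) / 2 := by congr 1; ring
      have i2 : ((4 * L : ℕ) : ℤ) / 2 = 2 * (L : ℤ) := by omega
      rw [i1, i2]
      ring
  rw [e4] at h4
  -- the weight of the glued polymer
  have h5 : Real.log (gw μ η s (4 * L) rr x) = -X μ 0 η 0 s x +
      V μ 0 η ((s : ℤ) + ((4 * L : ℕ) : ℤ), x + md (4 * L)) rr := by
    unfold gw X
    rw [Real.log_mul (W_pos (μ := μ) (s := 0) η 0 hx.1 hx.2).ne' (Real.exp_pos _).ne', Real.log_exp, neg_neg]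
  rw [h5]
  have e5 : L + (L + (2 * L + rr)) = 4 * L + rr := by ring
  rw [e5] at h2
  linarith

end

end Pool.Agent.W_7d29a1_NP
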