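import Pool.Agent.W_7d29a1_NP.MeanC
import Pool.Agent.W_7d29a1_NP.Chain

/-!
STRICT NEWMAN - PIZA (proofs row 649), leaf (d): the covariance of the free energy with one test function `phi`.
(helper56)
-/

namespace Pool.Agent.W_7d29a1_NP

open MeasureTheory ProbabilityTheory Filter Topology Finset
open Pool.Agent.W_7d29a1_f21 Pool.Agent.W_7d29a1_F Pool.Agent.W_7d29a1_h4g Pool.Agent.W_7d29a1_G
open Pool.Agent.W_7d29a1_SR Pool.Agent.W_7d29a1_SL Pool.Agent.W_7d29a1_XG Pool.Agent.W_7d29a1_X42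

noncomputable section

variable {μ : Measure ℝ} [IsProbabilityMeasure μ]

theorem cov_phi (hEM : Pool.Agent.W_7d29a1_h47.EM μ) {r lam : ℝ} (hr : 1 ≤ r) {s m k R rr : ℕ}
    (hp : 0 < pD μ r k lam) (hs : Even s) (hme : Even m) (hk : k ≤ m) {z : ℤ} {ρ B1 B2 B3 : ℝ}
    (hB1 : 0 ≤ B1) (hB2 : 0 ≤ B2) (hB3 : 0 ≤ B3) (hρ : ρ ≤ ((R * m : ℕ) : ℝ) / 2)
    (hend : ∀ y : ℤ, 0 ≤ y → y ≤ k → |2 * (y : ℝ) - k| ≤ 2 * r →
      0 ≤ ((m / 2 : ℕ) : ℤ) - y ∧ ((m / 2 : ℕ) : ℤ) - y ≤ ((m - k : ℕ) : ℤ) ∧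
        ep μ (m - k) (((m / 2 : ℕ) : ℤ) - y) ≤ B1)
    (h2 : ∀ x ∈ nearS s ρ z, ep μ (R * m) (z + ((s + R * m) / 2 : ℕ) - x) ≤ B2)
    (h3 : ∀ x ∈ nearS s ρ z, ep μ (2 * (R * m)) (x + 2 * (R * m : ℕ) - (z + ((s + 2 * (R * m)) / 2 : ℕ))) ≤ B3) :
    ∑ x ∈ nearS s ρ z, ((∫ η, qw μ η s (4 * (R * m)) rr x ∂(law μ)) * (R * lam - R * B1 - B2 - B3) -
      ∫ η, qw μ η s (4 * (R * m)) rr x *
        (V μ 0 η 0 (s + (4 * (R * m) + rr)) - Real.log (gw μ η s (4 * (R * m)) rr x)) ∂(law μ)) ≤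
    ∫ η, V μ 0 η 0 (s + (4 * (R * m) + rr)) * (phi μ r k lam (s + R * m) m R z η - 1) ∂(law μ) := by
  refine cov_phi_of (μ := μ) hEM hr hp hs hme hk hB1 hρ hend h2 h3 fun x hx η => ?_
  have hx' := Finset.mem_filter.1 hx
  exact chain (μ := μ) hr η hs hme hk (fun y h4 h5 h6 => ⟨(hend y h4 h5 h6).1, (hend y h4 h5 h6).2.1⟩) hx'.1
    (hx'.2.trans hρ) rr

end

end Pool.Agent.W_7d29a1_NP
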