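import Pool.Agent.W_7d29a1_NP.Defs
import Pool.Agent.W_7d29a1_NP.TubeA

/-!
STRICT NEWMAN - PIZA (MP_7d29a1_pr, proofs row 649), section 2: the lucky strips and the test functions. (helper43)
-/

namespace Pool.Agent.W_7d29a1_NP

open MeasureTheory ProbabilityTheory Filter Topology Finset
open Pool.Agent.W_7d29a1_f21 Pool.Agent.W_7d29a1_F Pool.Agent.W_7d29a1_h4g Pool.Agent.W_7d29a1_G
open Pool.Agent.W_7d29a1_SR Pool.Agent.W_7d29a1_SL Pool.Agent.W_7d29a1_XG Pool.Agent.W_7d29a1_X42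

noncomputable section

variable {μ : Measure ℝ}

/-! ### The event of one strip -/

lemma poly_log_mono {S : Set Pt} {G : Env → ℝ} (h : Poly S G) : Monotone fun η => Real.log (G η) := by
  obtain ⟨N, c, A, h1, _, h3⟩ := h
  intro η η' hη
  show Real.log (G η) ≤ Real.log (G η')
  by_cases hc : ∀ i, c i = 0
  · rw [h3, h3]
    simp [hc]
  · rw [not_forall] at hc
    obtain ⟨i, hi⟩ := hc
    have hi' : 0 < c i := lt_of_le_of_ne (h1 i) (Ne.symm hi)
    have h4 : 0 < G η := by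
      rw [h3]
      exact Finset.sum_pos' (fun j _ => mul_nonneg (h1 j) (Real.exp_pos _).le)
        ⟨i, Finset.mem_univ i, mul_pos hi' (Real.exp_pos _)⟩
    refine Real.log_le_log h4 ?_
    rw [h3, h3]
    refine Finset.sum_le_sum fun j _ => mul_le_mul_of_nonneg_left (Real.exp_le_exp.2 ?_) (h1 j)
    exact Finset.sum_le_sum fun x _ => hη x

lemma tD_meas (r : ℝ) (k : ℕ) (lam : ℝ) (b : Pt) : MeasurableSet (tD μ r k lam b) :=
  measurableSet_le measurable_const (Real.measurable_log.comp (poly_cf (μ := μ) r b k).measurable)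

lemma tD_up (r : ℝ) (k : ℕ) (lam : ℝ) (b : Pt) (η η' : Env) (h : ∀ p, η p ≤ η' p) (h1 : η ∈ tD μ r k lam b) :
    η' ∈ tD μ r k lam b :=
  le_trans h1 (poly_log_mono (poly_cf (μ := μ) r b k) h)

lemma tD_dep_of {r : ℝ} {k : ℕ} {lam : ℝ} {b : Pt} {S : Set Pt} (h : DependsOn (fun η : Env => cf μ r η b k) S)
    (η η' : Env) (h1 : ∀ p ∈ S, η p = η' p) : η ∈ tD μ r k lam b ↔ η' ∈ tD μ r k lam b := by
  have h2 : cf μ r η b k = cf μ r η' b k := h h1
  unfold tD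
  rw [Set.mem_ofPred_eq, Set.mem_ofPred_eq, h2]

lemma cf_dep (r : ℝ) (k : ℕ) (b : Pt) : DependsOn (fun η : Env => cf μ r η b k) (St r b ∩ rows b.1 (b.1 + k)) :=
  cS_dep (μ := μ) (St r b) b k

lemma sites_fin (b : Pt) (k : ℕ) : (sites b k).Finite := by
  refine (Set.Finite.prod (Set.finite_Icc b.1 (b.1 + k)) (Set.finite_Icc b.2 (b.2 + k))).subset ?_
  rintro p ⟨h1, h2, h3, h4⟩
  exact ⟨⟨h1.le, h2⟩, ⟨h3, h4⟩⟩

lemma psi_eq (r : ℝ) (k : ℕ) (lam : ℝ) (b : Pt) (η : Env) :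
    psi μ r k lam b η = nI (pD μ r k lam) (tD μ r k lam b) η := by
  unfold psi nI
  by_cases h : η ∈ tD μ r k lam b
  · rw [Set.indicator_of_mem h, Set.indicator_of_mem h]
  · rw [Set.indicator_of_notMem h, Set.indicator_of_notMem h, zero_div]

lemma phi_eq (r : ℝ) (k : ℕ) (lam : ℝ) (a m R : ℕ) (z : ℤ) (η : Env) :
    phi μ r k lam a m R z η = pf R (pD μ r k lam) (fun z j => tD μ r k lam (tp a m z j)) z η :=
  Finset.prod_congr rfl fun _ _ => psi_eq _ _ _ _ _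

lemma YY_eq (r : ℝ) (k : ℕ) (lam : ℝ) (a m R : ℕ) (Z : Finset ℤ) (η : Env) :
    YY μ r k lam a m R Z η = Yt Z R (pD μ r k lam) (fun z j => tD μ r k lam (tp a m z j)) η :=
  Finset.sum_congr rfl fun _ _ => by rw [phi_eq]

lemma Yj_eq (r : ℝ) (k : ℕ) (lam : ℝ) (a m : ℕ) (Z : Finset ℤ) (j : ℕ) (η : Env) :
    Yj μ r k lam a m Z j η = Ys Z (pD μ r k lam) (fun z j => tD μ r k lam (tp a m z j)) j η :=
  Finset.sum_congr rfl fun _ _ => by rw [psi_eq]

lemma tp_rows {a m R k : ℕ} (hk : k ≤ m) (z : ℤ) {j : ℕ} (hj : j < R) :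
    rows (tp a m z j).1 ((tp a m z j).1 + k) ⊆ rows (a : ℤ) ((a + R * m : ℕ) : ℤ) := by
  rintro p ⟨h1, h2⟩
  have h3 : (tp a m z j).1 = ((a + j * m : ℕ) : ℤ) := rfl
  rw [h3] at h1 h2
  have h4 : (j + 1) * m ≤ R * m := Nat.mul_le_mul_right m hj
  have h5 : (j + 1) * m = j * m + m := by ring
  have h6 : a + j * m + k ≤ a + R * m := by omega
  have h7 : (((a + j * m : ℕ) : ℤ) + (k : ℤ)) ≤ ((a + R * m : ℕ) : ℤ) := by exact_mod_cast h6
  have h8 : (a : ℤ) ≤ ((a + j * m : ℕ) : ℤ) := by exact_mod_cast Nat.le_add_right a (j * m)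
  exact ⟨by omega, by omega⟩

lemma tp_rows' {a m k : ℕ} (hk : k ≤ m) (z : ℤ) (j : ℕ) :
    rows (tp a m z j).1 ((tp a m z j).1 + k) ⊆ rows ((a + j * m : ℕ) : ℤ) ((a + (j + 1) * m : ℕ) : ℤ) := by
  rintro p ⟨h1, h2⟩
  have h3 : (tp a m z j).1 = ((a + j * m : ℕ) : ℤ) := rfl
  rw [h3] at h1 h2
  have h5 : (j + 1) * m = j * m + m := by ring
  have h6 : a + j * m + k ≤ a + (j + 1) * m := by omega
  have h7 : (((a + j * m : ℕ) : ℤ) + (k : ℤ)) ≤ ((a + (j + 1) * m : ℕ) : ℤ) := by exact_mod_cast h6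
  exact ⟨h1, by omega⟩

lemma slab_rows_disj {a m : ℕ} {j j' : ℕ} (h : j < j') :
    Disjoint (rows ((a + j * m : ℕ) : ℤ) ((a + (j + 1) * m : ℕ) : ℤ))
      (rows ((a + j' * m : ℕ) : ℤ) ((a + (j' + 1) * m : ℕ) : ℤ)) := by
  rw [Set.disjoint_left]
  rintro p ⟨_, h2⟩ ⟨h3, _⟩
  have h4 : a + (j + 1) * m ≤ a + j' * m := by
    have := Nat.mul_le_mul_right m (show j + 1 ≤ j' from h)
    omega
  have h5 : ((a + (j + 1) * m : ℕ) : ℤ) ≤ ((a + j' * m : ℕ) : ℤ) := by exact_mod_cast h4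
  omega

lemma slab_rows_disj' {a m : ℕ} {j j' : ℕ} (h : j ≠ j') :
    Disjoint (rows ((a + j * m : ℕ) : ℤ) ((a + (j + 1) * m : ℕ) : ℤ))
      (rows ((a + j' * m : ℕ) : ℤ) ((a + (j' + 1) * m : ℕ) : ℤ)) := by
  rcases lt_or_gt_of_ne h with h1 | h1
  · exact slab_rows_disj h1
  · exact (slab_rows_disj h1).symm

lemma St_tp_disj {r : ℝ} {a m : ℕ} {z z' : ℤ} (h : 2 * r < |(z : ℝ) - z'|) (j : ℕ) :
    Disjoint (St r (tp a m z j)) (St r (tp a m z' j)) := by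
  rw [Set.disjoint_left]
  intro p hp hp'
  have h1 : |2 * ((p.2 : ℝ) - ((tp a m z j).2 : ℝ)) - ((p.1 : ℝ) - ((tp a m z j).1 : ℝ))| ≤ 2 * r := hp
  have h2 : |2 * ((p.2 : ℝ) - ((tp a m z' j).2 : ℝ)) - ((p.1 : ℝ) - ((tp a m z' j).1 : ℝ))| ≤ 2 * r := hp'
  have e1 : ((tp a m z j).2 : ℝ) = (((a + j * m) / 2 : ℕ) : ℝ) + z := by
    show (((((a + j * m) / 2 : ℕ) : ℤ) + z : ℤ) : ℝ) = _
    push_cast
    rfl
  have e2 : ((tp a m z' j).2 : ℝ) = (((a + j * m) / 2 : ℕ) : ℝ) + z' := by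
    show (((((a + j * m) / 2 : ℕ) : ℤ) + z' : ℤ) : ℝ) = _
    push_cast
    rfl
  have e3 : (tp a m z j).1 = (tp a m z' j).1 := rfl
  rw [e1] at h1
  rw [e2, ← e3] at h2
  rw [abs_le] at h1 h2
  have h3 : |(z : ℝ) - z'| ≤ 2 * r := by
    rw [abs_le]
    constructor <;> linarith [h1.1, h1.2, h2.1, h2.2]
  linarith

variable [IsProbabilityMeasure μ]

lemma tD_prob (r : ℝ) (k : ℕ) (lam : ℝ) (b : Pt) : (law μ).real (tD μ r k lam b) = pD μ r k lam := by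
  have h1 := (mp_sh (μ := μ) b).measureReal_preimage (tD_meas (μ := μ) r k lam 0).nullMeasurableSet
  rw [pD, ← h1]
  congr 1
  ext η
  show lam ≤ Real.log (cf μ r η b k) ↔ lam ≤ Real.log (cf μ r (sh b η) 0 k)
  rw [cf_sh]

/-- The family of the strips of one place. -/
lemma fam_one {r : ℝ} {k : ℕ} {lam : ℝ} (hp : 0 < pD μ r k lam) {a m R : ℕ} (hk : k ≤ m) (z : ℤ) :
    Fam μ ({z} : Finset ℤ) R (pD μ r k lam) (fun z j => tD μ r k lam (tp a m z j))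
      (fun z j => St r (tp a m z j) ∩ rows (tp a m z j).1 ((tp a m z j).1 + k)) where
  p0 := hp
  meas := fun z _ j _ => tD_meas _ _ _ _
  dep := fun z _ j _ η η' h => tD_dep_of (cf_dep r k (tp a m z j)) η η' h
  prob := fun z _ j _ => tD_prob _ _ _ _
  disj := fun z hz z' hz' j _ j' _ hne => by
    rw [Finset.mem_singleton] at hz hz'
    have hj : j ≠ j' := fun h => hne (by rw [hz, hz', h])
    exact (slab_rows_disj' (a := a) (m := m) hj).mono
      (Set.inter_subset_right.trans (tp_rows' hk z j)) (Set.inter_subset_right.trans (tp_rows' hk z' j'))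

/-- The family of the strips of all places. -/
lemma fam_all {r : ℝ} {k : ℕ} {lam : ℝ} (hp : 0 < pD μ r k lam) {a m R : ℕ} (hk : k ≤ m)
    {Z : Finset ℤ} (hZ : ∀ z ∈ Z, ∀ z' ∈ Z, z ≠ z' → 2 * r < |(z : ℝ) - z'|) :
    Fam μ Z R (pD μ r k lam) (fun z j => tD μ r k lam (tp a m z j))
      (fun z j => St r (tp a m z j) ∩ rows (tp a m z j).1 ((tp a m z j).1 + k)) where
  p0 := hp
  meas := fun z _ j _ => tD_meas _ _ _ _
  dep := fun z _ j _ η η' h => tD_dep_of (cf_dep r k (tp a m z j)) η η' h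
  prob := fun z _ j _ => tD_prob _ _ _ _
  disj := fun z hz z' hz' j _ j' _ hne => by
    by_cases hj : j = j'
    · subst hj
      have hzz : z ≠ z' := fun h => hne (by rw [h])
      exact (St_tp_disj (hZ z hz z' hz' hzz) j).mono Set.inter_subset_left Set.inter_subset_left
    · exact (slab_rows_disj' (a := a) (m := m) hj).mono
        (Set.inter_subset_right.trans (tp_rows' hk z j)) (Set.inter_subset_right.trans (tp_rows' hk z' j'))

/-- translation invariance and the mean of `psi`; the sites of the strip. -/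
theorem psi_spec {r : ℝ} {k : ℕ} {lam : ℝ} (hp : 0 < pD μ r k lam) (b : Pt) :
    Measurable (psi μ r k lam b) ∧ (∀ η, 0 ≤ psi μ r k lam b η ∧ psi μ r k lam b η ≤ 1 / pD μ r k lam) ∧
    DependsOn (psi μ r k lam b) (St r b ∩ rows b.1 (b.1 + k)) ∧ (law μ).real (tD μ r k lam b) = pD μ r k lam ∧
    ∫ η, psi μ r k lam b η ∂(law μ) = 1 ∧ ∫ η, psi μ r k lam b η ^ 2 ∂(law μ) = 1 / pD μ r k lam := by
  have h0 : psi μ r k lam b = nI (pD μ r k lam) (tD μ r k lam b) := funext (psi_eq r k lam b)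
  have h1 : ∫ η, nI (pD μ r k lam) (tD μ r k lam b) η ∂(law μ) = 1 := nI_int hp (tD_meas r k lam b) (tD_prob r k lam b)
  rw [h0]
  refine ⟨nI_meas (tD_meas r k lam b), fun η => ⟨nI_nonneg hp _ η, nI_le hp _ η⟩,
    nI_dep (tD_dep_of (cf_dep r k b)), tD_prob r k lam b, h1, ?_⟩
  have h2 : ∀ η, nI (pD μ r k lam) (tD μ r k lam b) η ^ 2 = 1 / pD μ r k lam * nI (pD μ r k lam) (tD μ r k lam b) η := by
    intro η
    rw [sq, nI_sq]
  simp only [h2]
  rw [integral_const_mul, h1, mul_one]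

theorem phi_spec {r : ℝ} {k : ℕ} {lam : ℝ} (hp : 0 < pD μ r k lam) {a m R : ℕ} (hk : k ≤ m) (z : ℤ) :
    Measurable (phi μ r k lam a m R z) ∧ (∀ η, 0 ≤ phi μ r k lam a m R z η ∧
      phi μ r k lam a m R z η ≤ (1 / pD μ r k lam) ^ R) ∧
    (∃ D : Finset Pt, (∀ p ∈ D, p ∈ rows (a : ℤ) ((a + R * m : ℕ) : ℤ)) ∧ DependsOn (phi μ r k lam a m R z) (D : Set Pt)) ∧
    Monotone (phi μ r k lam a m R z) ∧ ∫ η, phi μ r k lam a m R z η ∂(law μ) = 1 := by
  classical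
  have h0 : phi μ r k lam a m R z = pf R (pD μ r k lam) (fun z j => tD μ r k lam (tp a m z j)) z :=
    funext (phi_eq r k lam a m R z)
  have hf := fam_one (R := R) (a := a) hp hk z
  have hz : z ∈ ({z} : Finset ℤ) := Finset.mem_singleton_self z
  rw [h0]
  refine ⟨hf.pf_meas hz, fun η => ⟨pf_nonneg hp z η, pf_le hp z η⟩, ?_, pf_mono hp fun j _ => tD_up r k lam _, hf.pf_int hz⟩
  refine ⟨(range R).biUnion fun j => (sites_fin (tp a m z j) k).toFinset, fun p hpD => ?_, ?_⟩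
  · rw [Finset.mem_biUnion] at hpD
    obtain ⟨j, hj, hpj⟩ := hpD
    rw [Set.Finite.mem_toFinset] at hpj
    exact tp_rows hk z (mem_range.1 hj) ⟨hpj.1, hpj.2.1⟩
  · refine dep_mono (dep_prod (range R) (T := fun j => sites (tp a m z j) k) fun j _ =>
      nI_dep (tD_dep_of (poly_cf (μ := μ) r (tp a m z j) k).dependsOn)) ?_
    intro p hp1
    simp only [Set.mem_iUnion] at hp1
    obtain ⟨j, hj, hpj⟩ := hp1
    rw [Finset.mem_coe, Finset.mem_biUnion]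
    exact ⟨j, hj, (Set.Finite.mem_toFinset _).2 hpj⟩

/-- `phi` against a function of the other rows. -/
theorem phi_mul {r : ℝ} {k : ℕ} {lam : ℝ} (hp : 0 < pD μ r k lam) {a m R : ℕ} (hk : k ≤ m) (z : ℤ) {H : Env → ℝ}
    (hHm : Measurable H) {S : Set Pt} (hHd : DependsOn H S) (hS : Disjoint S (rows (a : ℤ) ((a + R * m : ℕ) : ℤ))) :
    ∫ η, phi μ r k lam a m R z η * H η ∂(law μ) = ∫ η, H η ∂(law μ) := by
  obtain ⟨h1, _, ⟨D, h3, h4⟩, _, h6⟩ := phi_spec (R := R) (a := a) hp hk z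
  have h7 := integral_mul_indep (μ := μ) (rows (a : ℤ) ((a + R * m : ℕ) : ℤ)) h1 hHm (dep_mono h4 fun p hp1 => h3 p hp1)
    (dep_mono hHd fun p hp1 hp2 => Set.disjoint_left.1 hS hp1 hp2)
  refine h7.trans ?_
  have h8 : ∫ g, phi μ r k lam a m R z g ∂(lw Pt μ) = 1 := h6
  rw [h8, one_mul]
  rfl

/-- All the facts on the test functions which (1.3) needs. -/
theorem YY_spec {r : ℝ} {k : ℕ} {lam : ℝ} (hp : 0 < pD μ r k lam) {a m R : ℕ} (_ha : Even a) (_hme : Even m)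
    (hk : k ≤ m) {Z : Finset ℤ} (hZ : ∀ z ∈ Z, ∀ z' ∈ Z, z ≠ z' → 2 * r < |(z : ℝ) - z'|) :
    Measurable (YY μ r k lam a m R Z) ∧ MemLp (YY μ r k lam a m R Z) 2 (law μ) ∧
    DependsOn (YY μ r k lam a m R Z) (rows (a : ℤ) ((a + R * m : ℕ) : ℤ)) ∧
    ∫ η, YY μ r k lam a m R Z η ∂(law μ) = 0 ∧
    ∫ η, YY μ r k lam a m R Z η ^ 2 ∂(law μ) ≤ Z.card * (1 / pD μ r k lam) ^ R ∧
    ∀ j ∈ range R, Measurable (Yj μ r k lam a m Z j) ∧ MemLp (Yj μ r k lam a m Z j) 2 (law μ) ∧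
      ∫ η, Yj μ r k lam a m Z j η ∂(law μ) = 0 ∧
      ∫ η, Yj μ r k lam a m Z j η ^ 2 ∂(law μ) ≤ Z.card * (1 / pD μ r k lam) ∧
      ∀ H : Env → ℝ, Measurable H → MemLp H 2 (law μ) →
        DependsOn H (rows ((a + j * m : ℕ) : ℤ) ((a + (j + 1) * m : ℕ) : ℤ)) →
        ∫ η, H η * YY μ r k lam a m R Z η ∂(law μ) = ∫ η, H η * Yj μ r k lam a m Z j η ∂(law μ) := by
  have hf := fam_all (R := R) (a := a) hp hk hZ
  have h0 : YY μ r k lam a m R Z = Yt Z R (pD μ r k lam) (fun z j => tD μ r k lam (tp a m z j)) :=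
    funext (YY_eq r k lam a m R Z)
  rw [h0]
  refine ⟨hf.Y_meas, hf.Y_memLp, hf.Y_dep fun z _ j hj => Set.inter_subset_right.trans (tp_rows hk z hj),
    hf.Y_int, hf.Y_sq, fun j hj => ?_⟩
  have hj' := mem_range.1 hj
  have h1 : Yj μ r k lam a m Z j = Ys Z (pD μ r k lam) (fun z j => tD μ r k lam (tp a m z j)) j :=
    funext (Yj_eq r k lam a m Z j)
  rw [h1]
  refine ⟨hf.Yj_meas hj', hf.Yj_memLp hj', hf.Yj_int hj', hf.Yj_sq hj', fun H hH hH2 hHd => ?_⟩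
  have i1 : Integrable (fun g => Yt Z R (pD μ r k lam) (fun z j => tD μ r k lam (tp a m z j)) g * H g) (lw Pt μ) :=
    hf.Y_memLp.integrable_mul hH2
  have h2 := int_mul_cE (rows ((a + j * m : ℕ) : ℤ) ((a + (j + 1) * m : ℕ) : ℤ))ᶜ i1 (by rw [compl_compl]; exact hHd)
  have h3 : ∀ g, cE μ (rows ((a + j * m : ℕ) : ℤ) ((a + (j + 1) * m : ℕ) : ℤ))ᶜ
      (Yt Z R (pD μ r k lam) (fun z j => tD μ r k lam (tp a m z j))) g =
      Ys Z (pD μ r k lam) (fun z j => tD μ r k lam (tp a m z j)) j g := fun g =>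
    hf.cE_Y hj' (fun z _ => Set.inter_subset_right.trans (tp_rows' hk z j))
      (fun z _ i _ hij => (slab_rows_disj' (a := a) (m := m) hij).mono_left
        (Set.inter_subset_right.trans (tp_rows' hk z i))) g
  simp only [h3] at h2
  refine Eq.trans ?_ (h2.trans ?_)
  · exact integral_congr_ae (Filter.Eventually.of_forall fun g => mul_comm _ _)
  · exact integral_congr_ae (Filter.Eventually.of_forall fun g => mul_comm _ _)

end

end Pool.Agent.W_7d29a1_NP
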