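import Pool.Agent.W_7d29a1_NP.Scl
import Pool.Agent.W_7d29a1_NP.Bessel
import Pool.Agent.W_7d29a1_NP.Tube
import Pool.Agent.W_7d29a1_NP.Mean
import Pool.Agent.W_7d29a1_NP.Loc
import Pool.Agent.W_7d29a1_XA.Small

/-!
STRICT NEWMAN - PIZA (MP_7d29a1_pr, proofs row 649), section 3.4: the gain of one block. (helper64)
-/

namespace Pool.Agent.W_7d29a1_NP

open MeasureTheory ProbabilityTheory Filter Topology Finset
open Pool.Agent.W_7d29a1_f21 Pool.Agent.W_7d29a1_F Pool.Agent.W_7d29a1_h4g Pool.Agent.W_7d29a1_G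
open Pool.Agent.W_7d29a1_SR Pool.Agent.W_7d29a1_SL Pool.Agent.W_7d29a1_XG Pool.Agent.W_7d29a1_X42

noncomputable section

variable {μ : Measure ℝ} [IsProbabilityMeasure μ] {c C : ℝ} {n₀ : ℕ}

/-- The final estimate of 3.4. -/
theorem end_calc {W R E K C n0 n1 Q Bt : ℝ} (hW : 0 ≤ W) (hR : 1 ≤ R) (hE : 0 < E)
    (hK : K = 3 * C + 301) (hQ : R * E * (K - 3 * C) ≤ Q) (hn1 : 2 * W ≤ n1) (hn0 : n0 ≤ 10 * W)
    (hBt0 : 0 ≤ Bt) (hBt : Bt ≤ 30 * (R * E)) : R * W * E ≤ n1 * Q / 2 - n0 * Bt := by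
  have hRE : 0 < R * E := by positivity
  have h1 : R * E * 301 ≤ Q := by
    rw [hK] at hQ
    linarith
  have hQ0 : 0 ≤ Q := by nlinarith
  have h2 : 2 * W * Q ≤ n1 * Q := mul_le_mul_of_nonneg_right hn1 hQ0
  have h3 : 2 * W * (R * E * 301) ≤ 2 * W * Q := mul_le_mul_of_nonneg_left h1 (by positivity)
  have h4 : n0 * Bt ≤ 10 * W * Bt := mul_le_mul_of_nonneg_right hn0 hBt0
  have h5 : 10 * W * Bt ≤ 10 * W * (30 * (R * E)) := mul_le_mul_of_nonneg_left hBt (by positivity)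
  nlinarith

theorem block (h : In μ c C n₀) : ∃ p0 CZ : ℝ, 0 < p0 ∧ p0 ≤ 1 ∧ 0 < CZ ∧ ∀ ρ D : ℕ, ∃ i₁ : ℕ, ∀ i : ℕ, i₁ ≤ i →
    ∀ N : ℕ, 16 * (2 ^ ρ * 2 ^ i) ≤ N → N ≤ 2 ^ D * 2 ^ i →
    max (bb μ (N - 4 * (2 ^ ρ * 2 ^ i)) - bb μ N) 0 ≤ 12 * EE μ (2 * (2 ^ ρ * 2 ^ i)) →
    ∃ (r lam : ℝ) (k : ℕ) (Z : Finset ℤ), k ≤ 2 ^ i ∧ p0 ≤ pD μ r k lam ∧ 1 ≤ r ∧
      (∀ z ∈ Z, ∀ z' ∈ Z, z ≠ z' → 2 * r < |(z : ℝ) - z'|) ∧ 1 ≤ Z.card ∧
      (Z.card : ℝ) ≤ CZ * (wd μ N / wd μ (2 ^ i)) ∧ 0 < wd μ (2 ^ i) ∧ 0 < wd μ N ∧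
      wd μ (2 ^ i) ≤ 2 * wd μ (2 ^ ρ * 2 ^ i) ∧
      ∀ s rr : ℕ, Even s → s + (4 * (2 ^ ρ * 2 ^ i) + rr) = N →
        2 ^ ρ * (wd μ (2 ^ ρ * 2 ^ i) / wd μ (2 ^ i)) * EE μ (2 ^ i) ≤
          ∫ η, V μ 0 η 0 N * YY μ r k lam (s + 2 ^ ρ * 2 ^ i) (2 ^ i) (2 ^ ρ) Z η ∂(law μ) := by
  have hc0 := h.c0
  have hC1 := h.C1
  have hC0 : 0 < C := lt_of_lt_of_le one_pos hC1
  obtain ⟨R₁, hR₁, hst⟩ := strip_of h
  obtain ⟨J₁, ia, hJ₁, hia⟩ := strip_k h hR₁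
  obtain ⟨K, hK⟩ : ∃ K : ℝ, K = 3 * C + 301 := ⟨_, rfl⟩
  have hK0 : 0 < K := by rw [hK]; positivity
  obtain ⟨p, hp, nb, hnb⟩ := hst (K * 2 ^ J₁)
  obtain ⟨R₂, hR₂, nc, hnc⟩ := loc h
  obtain ⟨nd, hnd⟩ := wd_le2 h
  have hR₂0 : 0 < R₂ := lt_of_lt_of_le one_pos hR₂
  refine ⟨min p 1, (64 * R₂ + 16 * c) / c + 6, lt_min hp one_pos, min_le_right _ _, by positivity, fun ρ D => ?_⟩
  obtain ⟨ie, hie⟩ := Pool.Agent.W_7d29a1_XA.log_small h (zero_le_one) D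
  obtain ⟨T, hT⟩ : ∃ T : ℕ, T = max (max (max ia nb) (max nc nd)) (max ie n₀) := ⟨_, rfl⟩
  refine ⟨T + J₁ + 1, fun i hi N hN1 hN2 hgood => ?_⟩
  have hTi : T ≤ 2 ^ i := (show T ≤ i by omega).trans Nat.lt_two_pow_self.le
  have hTk : T ≤ 2 ^ (i - J₁) := (show T ≤ i - J₁ by omega).trans Nat.lt_two_pow_self.le
  have ia' : ia ≤ T := by rw [hT]; exact ((le_max_left _ _).trans (le_max_left _ _)).trans (le_max_left _ _)
  have nb' : nb ≤ T := by rw [hT]; exact ((le_max_right _ _).trans (le_max_left _ _)).trans (le_max_left _ _)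
  have nc' : nc ≤ T := by rw [hT]; exact ((le_max_left _ _).trans (le_max_right _ _)).trans (le_max_left _ _)
  have nd' : nd ≤ T := by rw [hT]; exact ((le_max_right _ _).trans (le_max_right _ _)).trans (le_max_left _ _)
  have ie' : ie ≤ T := by rw [hT]; exact (le_max_left _ _).trans (le_max_right _ _)
  have n0' : n₀ ≤ T := by rw [hT]; exact (le_max_right _ _).trans (le_max_right _ _)
  obtain ⟨hiJ, hr1, hr2, hw16, hwm2⟩ := hia i (by omega)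
  -- the numbers
  obtain ⟨m, hm⟩ : ∃ m : ℕ, m = 2 ^ i := ⟨_, rfl⟩
  obtain ⟨R, hR⟩ : ∃ R : ℕ, R = 2 ^ ρ := ⟨_, rfl⟩
  obtain ⟨k, hk⟩ : ∃ k : ℕ, k = 2 ^ (i - J₁) := ⟨_, rfl⟩
  obtain ⟨r, hr⟩ : ∃ r : ℝ, r = R₁ * wd μ k := ⟨_, rfl⟩
  have hRr : (2 : ℝ) ^ ρ = (R : ℝ) := by rw [hR]; push_cast; rfl
  rw [hRr]
  rw [← hk, ← hr] at hr1
  rw [← hk, ← hr, ← hm] at hr2
  rw [← hm] at hw16 hwm2 hN1 hN2 hgood ⊢
  rw [← hR] at hN1 hgood ⊢
  obtain ⟨L, hL⟩ : ∃ L : ℕ, L = R * m := ⟨_, rfl⟩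
  have hR1 : 1 ≤ R := by rw [hR]; exact Nat.one_le_two_pow
  have hm1 : 1 ≤ m := by rw [hm]; exact Nat.one_le_two_pow
  have hmT : T ≤ m := by rw [hm]; exact hTi
  have hkT : T ≤ k := by rw [hk]; exact hTk
  have hmL : m ≤ L := by rw [hL]; exact Nat.le_mul_of_pos_left m hR1
  have hme : Even m := by
    rw [hm]
    exact (Nat.even_pow.2 ⟨even_two, by omega⟩)
  have hLe : Even L := by rw [hL]; exact hme.mul_left R
  have hmk : m = 2 ^ J₁ * k := by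
    rw [hm, hk, ← pow_add]
    congr 1
    omega
  have hJ1' : 2 ≤ 2 ^ J₁ := by
    calc 2 = 2 ^ 1 := by norm_num
      _ ≤ 2 ^ J₁ := Nat.pow_le_pow_right (by norm_num) hJ₁
  have hke : 2 * k ≤ m := by
    rw [hmk]
    exact Nat.mul_le_mul_right k hJ1'
  have hkm : k ≤ m := by omega
  obtain ⟨lam, hlam⟩ : ∃ lam : ℝ, lam = K * EE μ m := ⟨_, rfl⟩
  have hEm := EE_pos (μ := μ) m
  have hEk := EE_pos (μ := μ) k
  have hEL : EE μ L ≤ R * EE μ m := by rw [hL]; exact EE_mul h.em R m hR1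
  have hE2L : EE μ (2 * L) ≤ 2 * R * EE μ m := by
    have h1 := EE_mul h.em (2 * R) m (by omega)
    rw [hL, ← mul_assoc]
    push_cast at h1
    exact h1
  have hE4L : EE μ (4 * L) ≤ 4 * R * EE μ m := by
    have h1 := EE_mul h.em (4 * R) m (by omega)
    rw [hL, ← mul_assoc]
    push_cast at h1
    exact h1
  -- the probability
  have hpD : min p 1 ≤ pD μ r k lam := by
    refine (min_le_left _ _).trans ((hnb k (nb'.trans hkT)).trans ?_)
    refine measureReal_mono (fun η hη => ?_) (measure_ne_top _ _)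
    rw [Set.mem_ofPred_eq, ← hr] at hη
    show lam ≤ Real.log (cf μ r η 0 k)
    refine le_trans ?_ hη
    rw [hlam, mul_assoc]
    refine mul_le_mul_of_nonneg_left ?_ hK0.le
    rw [hmk]
    have h1 := EE_mul h.em (2 ^ J₁) k (by omega)
    push_cast at h1
    exact h1
  have hpD0 : 0 < pD μ r k lam := lt_of_lt_of_le (lt_min hp one_pos) hpD
  -- the grid
  have hwm := wd_nonneg h m
  have hwm0 : 0 < wd μ m := by
    rcases hwm.lt_or_eq with h1 | h1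
    · exact h1
    · rw [← h1] at hw16
      norm_num at hw16
  have hwL : wd μ m ≤ 2 * wd μ L := hnd m L (nd'.trans hmT) hmL
  have hLN : 16 * L ≤ N := by rw [hL]; exact hN1
  have hwLN : wd μ L ≤ 2 * wd μ N := hnd L N ((nd'.trans hmT).trans hmL) (by omega)
  have hwmN : wd μ m ≤ 2 * wd μ N := hnd m N (nd'.trans hmT) (by omega)
  have hwN0 : 0 < wd μ N := by linarith
  have hwL0 : 0 < wd μ L := by linarith
  obtain ⟨hh, hhd⟩ : ∃ hh : ℕ, hh = ⌈c * wd μ m / 16⌉₊ := ⟨_, rfl⟩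
  have hh1 : c * wd μ m / 16 ≤ hh := by rw [hhd]; exact Nat.le_ceil _
  have hh2 : (hh : ℝ) ≤ c * wd μ m / 8 := by
    have h1 : (hh : ℝ) < c * wd μ m / 16 + 1 := by
      rw [hhd]
      exact Nat.ceil_lt_add_one (by positivity)
    linarith
  have hh0 : (1 : ℝ) ≤ hh := hw16.trans hh1
  have hh0' : 1 ≤ hh := by exact_mod_cast hh0
  have hhp : (0 : ℝ) < hh := lt_of_lt_of_le one_pos hh0
  obtain ⟨ρn, hρn⟩ : ∃ ρn : ℝ, ρn = c * wd μ L / 4 := ⟨_, rfl⟩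
  have hρn0 : 0 ≤ ρn := by rw [hρn]; positivity
  obtain ⟨M, hM⟩ : ∃ M : ℕ, M = ⌈(2 * R₂ * wd μ N + ρn) / hh⌉₊ := ⟨_, rfl⟩
  have hM1 : 2 * R₂ * wd μ N + ρn ≤ hh * M := by
    have h1 : (2 * R₂ * wd μ N + ρn) / hh ≤ M := by rw [hM]; exact Nat.le_ceil _
    rw [div_le_iff₀ hhp] at h1
    linarith
  have hM2 : (M : ℝ) ≤ (2 * R₂ * wd μ N + ρn) / hh + 1 := by
    have h1 : (M : ℝ) < (2 * R₂ * wd μ N + ρn) / hh + 1 := by
      rw [hM]
      exact Nat.ceil_lt_add_one (by positivity)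
    exact h1.le
  obtain ⟨Z, hZ⟩ : ∃ Z : Finset ℤ, Z = gridZ hh M := ⟨_, rfl⟩
  have hZc : Z.card = 2 * M + 1 := by rw [hZ]; exact card_gridZ hh0' M
  have hsep : ∀ z ∈ Z, ∀ z' ∈ Z, z ≠ z' → 2 * r < |(z : ℝ) - z'| := by
    intro z hz z' hz' hne
    rw [hZ] at hz hz'
    have h1 := grid_sep hz hz' hne
    have h2 : 0 < c * wd μ m := by positivity
    linarith
  have hcard : (Z.card : ℝ) ≤ ((64 * R₂ + 16 * c) / c + 6) * (wd μ N / wd μ m) := by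
    rw [hZc]
    push_cast
    have h1 : (2 * R₂ * wd μ N + ρn) / hh ≤ (32 * R₂ + 8 * c) / c * (wd μ N / wd μ m) := by
      rw [div_le_iff₀ hhp]
      have h2 : 2 * R₂ * wd μ N + ρn ≤ (2 * R₂ + c / 2) * wd μ N := by
        rw [hρn]
        nlinarith
      have h3 : (2 * R₂ + c / 2) * wd μ N = (32 * R₂ + 8 * c) / c * (wd μ N / wd μ m) * (c * wd μ m / 16) := by
        field_simp
        ring
      have h4 : (32 * R₂ + 8 * c) / c * (wd μ N / wd μ m) * (c * wd μ m / 16) ≤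
          (32 * R₂ + 8 * c) / c * (wd μ N / wd μ m) * hh := mul_le_mul_of_nonneg_left hh1 (by positivity)
      linarith
    have h5 : 1 ≤ 2 * (wd μ N / wd μ m) := by
      rw [← mul_div_assoc, le_div_iff₀ hwm0]
      linarith
    have h6 : ((64 * R₂ + 16 * c) / c + 6) * (wd μ N / wd μ m) =
        2 * ((32 * R₂ + 8 * c) / c * (wd μ N / wd μ m)) + 3 * (2 * (wd μ N / wd μ m)) := by
      field_simp
      ring
    rw [h6]
    linarith
  refine ⟨r, lam, k, Z, hkm, hpD, hr1, hsep, by omega, hcard, hwm0, hwN0, by rw [← hL]; exact hwL, ?_⟩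
  intro s rr hs hsN
  rw [← hL] at hsN hgood ⊢
  obtain ⟨W, hW⟩ : ∃ W : ℝ, W = wd μ L / wd μ m := ⟨_, rfl⟩
  have hW0 : 0 ≤ W := by rw [hW]; positivity
  have hW1 : 1 ≤ 2 * W := by
    rw [hW, ← mul_div_assoc, le_div_iff₀ hwm0]
    linarith
  have hLn0 : n₀ ≤ L := (n0'.trans hmT).trans hmL
  have hwL2 : wd μ L ≤ (L : ℝ) / 2 := by
    have h1 := (hia (i + ρ) (by omega)).2.2.2.2
    have h2 : 2 ^ (i + ρ) = L := by rw [hL, hR, hm, pow_add, Nat.mul_comm]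
    rw [h2] at h1
    exact h1
  obtain ⟨Q, hQ⟩ : ∃ Q : ℝ, Q = (R : ℝ) * lam - R * (C * EE μ m) - C * EE μ L - C * EE μ L := ⟨_, rfl⟩
  have hQ1 : (R : ℝ) * EE μ m * (K - 3 * C) ≤ Q := by
    rw [hQ, hlam]
    have h1 := mul_le_mul_of_nonneg_left hEL hC0.le
    nlinarith
  have hR0 : (1 : ℝ) ≤ R := by exact_mod_cast hR1
  have hQ0 : 0 ≤ Q := by
    refine le_trans ?_ hQ1
    rw [hK]
    have : 3 * C + 301 - 3 * C = 301 := by ring
    rw [this]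
    positivity
  -- the sum over the tubes
  obtain ⟨F, hF⟩ : ∃ F : Env → ℝ, F = fun η => V μ 0 η 0 N := ⟨_, rfl⟩
  have hFS : Sub F := by rw [hF]; exact Sub_V 0 N
  have hφS : ∀ z, Sub fun η => phi μ r k lam (s + L) m R z η - 1 := by
    intro z
    obtain ⟨h1, h2, -⟩ := phi_spec (μ := μ) (a := s + L) (m := m) (R := R) hpD0 hkm z
    have h3 : ∀ η, |phi μ r k lam (s + L) m R z η| ≤ (1 / pD μ r k lam) ^ R := fun η => by
      rw [abs_of_nonneg (h2 η).1]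
      exact (h2 η).2
    exact (Sub_bd h1 h3).sub (Sub.const 1)
  have hint : ∀ z, Integrable (fun η => F η * (phi μ r k lam (s + L) m R z η - 1)) (law μ) := fun z =>
    Sub.mul_integrable h.em hFS (hφS z)
  have hsum : ∫ η, V μ 0 η 0 N * YY μ r k lam (s + L) m R Z η ∂(law μ) =
      ∑ z ∈ Z, ∫ η, F η * (phi μ r k lam (s + L) m R z η - 1) ∂(law μ) := by
    rw [← integral_finsetSum _ fun z _ => hint z]
    refine integral_congr_ae (ae_of_all _ fun η => ?_)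
    show V μ 0 η 0 N * YY μ r k lam (s + L) m R Z η = ∑ z ∈ Z, F η * (phi μ r k lam (s + L) m R z η - 1)
    rw [← Finset.mul_sum, hF]
    rfl
  rw [hsum]
  obtain ⟨q, hq⟩ : ∃ q : ℤ → ℝ, q = fun x => ∫ η, qw μ η s (4 * L) rr x ∂(law μ) := ⟨_, rfl⟩
  obtain ⟨E1, hE1⟩ : ∃ E1 : ℤ → ℝ, E1 = fun x => ∫ η, qw μ η s (4 * L) rr x *
    (V μ 0 η 0 N - Real.log (gw μ η s (4 * L) rr x)) ∂(law μ) := ⟨_, rfl⟩
  obtain ⟨E2, hE2⟩ : ∃ E2 : ℤ → ℝ, E2 = fun x => ∫ η, max (qw μ η s (4 * L) rr x *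
    (V μ 0 η 0 N - Real.log (gw μ η s (4 * L) rr x))) 0 ∂(law μ) := ⟨_, rfl⟩
  have hqn : ∀ η : Env, ∀ x : ℤ, 0 ≤ qw μ η s (4 * L) rr x := fun η x =>
    div_nonneg (gw_nonneg η s (4 * L) rr x) (glue_pos η s (4 * L) rr).le
  have hcov : ∀ z ∈ Z, ∑ x ∈ nearS s ρn z, (q x * Q - E1 x) ≤
      ∫ η, F η * (phi μ r k lam (s + L) m R z η - 1) ∂(law μ) := by
    intro z _
    have h1 := cov_phi (μ := μ) h.em (r := r) (lam := lam) hr1 (s := s) (m := m) (k := k) (R := R) (rr := rr) hpD0 hs hme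
      hkm (z := z) (ρ := ρn) (B1 := C * EE μ m) (B2 := C * EE μ L) (B3 := C * EE μ L) (by positivity)
      (by have := EE_pos (μ := μ) L; positivity) (by have := EE_pos (μ := μ) L; positivity) (by
        rw [← hL, hρn]
        have := h.c1
        nlinarith) (joint h (n0'.trans hmT) hme hke hr2 hwm2) (by
        intro x hx
        rw [← hL]
        refine (ways h hLn0 hLe hs hwL2 (z := z) (x := x) ?_).1
        rw [← hρn]
        exact (Finset.mem_filter.1 hx).2) (by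
        intro x hx
        rw [← hL]
        refine (ways h hLn0 hLe hs hwL2 (z := z) (x := x) ?_).2
        rw [← hρn]
        exact (Finset.mem_filter.1 hx).2)
    rw [← hL] at h1
    rw [hsN] at h1
    rw [hq, hE1, hQ, hF]
    exact h1
  refine le_trans ?_ (Finset.sum_le_sum hcov)
  -- the entropy and the localization
  obtain ⟨hei, hes⟩ := ent (μ := μ) h.em s (4 * L) rr
  rw [hsN] at hei hes
  have hloc := hnc s (4 * L) rr (by
    have := (nc'.trans hmT).trans hmL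
    omega)
  have hsrr : s + rr = N - 4 * L := by omega
  rw [hsrr] at hes hloc
  obtain ⟨Bt, hBt⟩ : ∃ Bt : ℝ, Bt = max (bb μ (N - 4 * L) - bb μ N) 0 + ep μ (4 * L) (md (4 * L)) + Real.log (s + 1) + 1 :=
    ⟨_, rfl⟩
  rw [← hBt] at hes
  have hep := ep_le_EE (μ := μ) (le_refl (4 * L))
  have hlog0 : 0 ≤ Real.log ((s : ℝ) + 1) := Real.log_nonneg (by
    have : (0 : ℝ) ≤ s := Nat.cast_nonneg s
    linarith)
  have hep0 : 0 ≤ ep μ (4 * L) (md (4 * L)) := integral_nonneg fun η => le_max_right _ _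
  have hBt0 : 0 ≤ Bt := by
    rw [hBt]
    have := le_max_right (bb μ (N - 4 * L) - bb μ N) 0
    linarith
  have hlog : Real.log ((s : ℝ) + 1) ≤ EE μ m := by
    have h1 := hie i N (by omega) (by
      rw [hm] at hN2
      have h2 : 2 ^ (i + D) = 2 ^ D * 2 ^ i := by rw [pow_add, Nat.mul_comm]
      omega)
    rw [one_mul, ← hm] at h1
    refine le_trans (Real.log_le_log (by positivity) ?_) h1
    have h2 : s + 1 ≤ N := by omega
    exact_mod_cast h2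
  have hE1' := one_le_EE (μ := μ) m
  have hBt30 : Bt ≤ 30 * (R * EE μ m) := by
    rw [hBt]
    have h1 : EE μ m ≤ R * EE μ m := le_mul_of_one_le_left hEm.le hR0
    linarith
  have hgs := gain_sum (X := Finset.Icc (0 : ℤ) s) (Z := Z) (u := fun x => (x : ℝ) - (s : ℝ) / 2) (ρ := ρn) (q := q)
    (E := E1) (Ep := E2) (X₂ := nearS s (R₂ * wd μ (N - 4 * L)) 0) (Finset.filter_subset _ _)
    (fun x _ => by rw [hq]; exact integral_nonneg fun η => hqn η x)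
    (fun x hx => by
      rw [hE1, hE2]
      exact integral_mono (hei x hx) ((hei x hx).sup (integrable_zero _ _ _)) fun η => le_max_left _ _)
    (fun x _ => by rw [hE2]; exact integral_nonneg fun η => le_max_right _ _) (n0 := 2 * ρn / hh + 1)
    (n1 := 2 * ρn / hh - 1) (Bt := Bt) hQ0 (fun x _ => by rw [hZ]; exact grid_card_le hh0' M _ hρn0)
    (fun x hx => by
      rw [hZ]
      refine grid_card_ge hh0' ?_
      have h1 := (Finset.mem_filter.1 hx).2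
      rw [Int.cast_zero, sub_zero] at h1
      have h2 : wd μ (N - 4 * L) ≤ 2 * wd μ N := hnd (N - 4 * L) N (by
        have := (nd'.trans hmT).trans hmL
        omega) (by omega)
      have h3 : R₂ * wd μ (N - 4 * L) ≤ R₂ * (2 * wd μ N) := mul_le_mul_of_nonneg_left h2 hR₂0.le
      linarith)
    (by
      have h1 : 4 * W ≤ 2 * ρn / hh := by
        rw [le_div_iff₀ hhp, hW, hρn]
        have h2 : (4 : ℝ) * (wd μ L / wd μ m) * hh ≤ 4 * (wd μ L / wd μ m) * (c * wd μ m / 8) :=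
          mul_le_mul_of_nonneg_left hh2 (by positivity)
        have h3 : (4 : ℝ) * (wd μ L / wd μ m) * (c * wd μ m / 8) = c * wd μ L / 2 := by
          field_simp
          ring
        linarith
      linarith) (by positivity) (by rw [hq]; exact hloc) (by rw [hE2]; exact hes)
  have h1 : 4 * W ≤ 2 * ρn / hh := by
    rw [le_div_iff₀ hhp, hW, hρn]
    have h2 : (4 : ℝ) * (wd μ L / wd μ m) * hh ≤ 4 * (wd μ L / wd μ m) * (c * wd μ m / 8) :=
      mul_le_mul_of_nonneg_left hh2 (by positivity)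
    have h3 : (4 : ℝ) * (wd μ L / wd μ m) * (c * wd μ m / 8) = c * wd μ L / 2 := by
      field_simp
      ring
    linarith
  have h2 : 2 * ρn / hh ≤ 8 * W := by
    rw [div_le_iff₀ hhp, hW, hρn]
    have h3 : (8 : ℝ) * (wd μ L / wd μ m) * (c * wd μ m / 16) ≤ 8 * (wd μ L / wd μ m) * hh :=
      mul_le_mul_of_nonneg_left hh1 (by positivity)
    have h4 : (8 : ℝ) * (wd μ L / wd μ m) * (c * wd μ m / 16) = c * wd μ L / 2 := by
      field_simp
      ring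
    linarith
  have h3 := end_calc (W := W) (R := R) (E := EE μ m) (K := K) (C := C) (n0 := 2 * ρn / hh + 1) (n1 := 2 * ρn / hh - 1)
    (Q := Q) (Bt := Bt) hW0 hR0 hEm hK hQ1 (by linarith) (by linarith) hBt0 hBt30
  rw [← hW]
  exact h3.trans hgs

end

end Pool.Agent.W_7d29a1_NP
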