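import Pool.Agent.W_7d29a1_SL.LuckSide
import Pool.Agent.W_7d29a1_XG.Good
import Pool.Agent.W_7d29a1_X42.Slab
import Pool.Agent.W_7d29a1_h48.Har

/-!
STRICT NEWMAN - PIZA (MP_7d29a1_pr, proofs row 649): `w_n σ_n² ≥ c n ^ (1 + c)`. The lucky strips, the test functions
and the variances of the conditional expectations. (helper64)
-/

namespace Pool.Agent.W_7d29a1_NP

open MeasureTheory ProbabilityTheory Filter Topology Finset
open Pool.Agent.W_7d29a1_f21 Pool.Agent.W_7d29a1_F Pool.Agent.W_7d29a1_h4g Pool.Agent.W_7d29a1_G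
open Pool.Agent.W_7d29a1_SR Pool.Agent.W_7d29a1_SL Pool.Agent.W_7d29a1_XG Pool.Agent.W_7d29a1_X42

noncomputable section

/-- The variance of the conditional expectation of `F` given the coordinates in `A`. -/
def uv {ι : Type*} (μ : Measure ℝ) (A : Set ι) (F : (ι → ℝ) → ℝ) : ℝ :=
  (∫ g, cE μ Aᶜ F g ^ 2 ∂(lw ι μ)) - (∫ g, F g ∂(lw ι μ)) ^ 2

/-- The sum of `uv` over the first `K` slabs of duration `m`. -/
def UU (μ : Measure ℝ) (F : Env → ℝ) (m K : ℕ) : ℝ := ∑ k ∈ range K, uv μ (sl m k) F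

/-- The start of the tube `z` in the slab `(a + j m, a + (j + 1) m]`. -/
def tp (a m : ℕ) (z : ℤ) (j : ℕ) : Pt := (((a + j * m : ℕ) : ℤ), (((a + j * m) / 2 : ℕ) : ℤ) + z)

/-- The lucky event: the strip of half width `r` and duration `k` from `b` has at least `lam` units of luck. -/
def tD (μ : Measure ℝ) (r : ℝ) (k : ℕ) (lam : ℝ) (b : Pt) : Set Env := {η | lam ≤ Real.log (cf μ r η b k)}

/-- The probability of the lucky event. -/
def pD (μ : Measure ℝ) (r : ℝ) (k : ℕ) (lam : ℝ) : ℝ := (law μ).real (tD μ r k lam 0)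

/-- The normalised indicator of the lucky event. -/
def psi (μ : Measure ℝ) (r : ℝ) (k : ℕ) (lam : ℝ) (b : Pt) (η : Env) : ℝ :=
  (tD μ r k lam b).indicator (fun _ => (1 : ℝ)) η / pD μ r k lam

/-- The product over the `R` slabs. -/
def phi (μ : Measure ℝ) (r : ℝ) (k : ℕ) (lam : ℝ) (a m R : ℕ) (z : ℤ) (η : Env) : ℝ :=
  ∏ j ∈ range R, psi μ r k lam (tp a m z j) η

/-- The test function of the block of `R` slabs, for the grid `Z`. -/
def YY (μ : Measure ℝ) (r : ℝ) (k : ℕ) (lam : ℝ) (a m R : ℕ) (Z : Finset ℤ) (η : Env) : ℝ :=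
  ∑ z ∈ Z, (phi μ r k lam a m R z η - 1)

/-- The test function of one slab. -/
def Yj (μ : Measure ℝ) (r : ℝ) (k : ℕ) (lam : ℝ) (a m : ℕ) (Z : Finset ℤ) (j : ℕ) (η : Env) : ℝ :=
  ∑ z ∈ Z, (psi μ r k lam (tp a m z j) η - 1)

/-- The random weights of the glued functional (the rows `(s, s + l]` are removed). -/
def qw (μ : Measure ℝ) (η : Env) (s l rr : ℕ) (x : ℤ) : ℝ := gw μ η s l rr x / glue μ η s l rr

/-- The sites of the row `s` at the relative distance at most `ρ` from `z`. -/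
def nearS (s : ℕ) (ρ : ℝ) (z : ℤ) : Finset ℤ := (Finset.Icc (0 : ℤ) s).filter fun x => |(x : ℝ) - (s : ℝ) / 2 - z| ≤ ρ

/-- The Newman - Piza quantity. -/
def bn (μ : Measure ℝ) (n : ℕ) : ℝ := wd μ n * EE μ n ^ 2 / n

end

end Pool.Agent.W_7d29a1_NP
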