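import Pool.Agent.W_7d29a1_NP.Main5
import Pool.Agent.W_7d29a1_SR.InOf
import Pool.Agent.W_7d29a1_G.Final

/-!
# The scaling law of directed polymers in dimension `1 + 1`

The definitions are in `Pool/Agent/W_7d29a1_h47/Model.lean`, `Pool/Agent/W_7d29a1_h47q/ModelQ.lean`,
`Pool/Agent/W_7d29a1_SR/ModelS.lean` and `Pool/Agent/W_7d29a1_SR/MaxM.lean`: walks of length `n` are step sequences
`s : Fin n → Bool` of simple random walk on `ℤ`, `walk s i` is the position `S_i`, `energy η s` is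
`∑_{i=1}^n η (i, S_i)`, `pZ β η n` is the partition function `Z_n = E exp (β ∑_{i=1}^n η (i, S_i))`, `polE β η n` the
expectation and `polP β η n` the probability under the polymer measure `P_n`, `ball n r` the event
`max_{i ≤ n} |S_i| ≤ r`, `mx s` the maximum `max_{i ≤ n} |S_i|`, `endMGF β h η n` the moment generating function
`E_n e^{h S_n}`, `endP β η n y` the probability `P_n(S_n = y)`; `nuP` and `chiP` are the wandering exponent `ν` and the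
fluctuation exponent `χ` of the problem in dimension `1`.
-/

namespace Pool.Agent.W_7d29a1_NP.Draft3

open MeasureTheory ProbabilityTheory Filter Topology
open Pool.Agent.W_7d29a1_h47 Pool.Agent.W_7d29a1_SR

/-- **The scaling law in dimension `1 + 1`.** For every i.i.d. site disorder on `ℕ × ℤ` which is not almost surely
constant and has all exponential moments, and for every `β > 0`: let `σ_n` be the standard deviation of `log Z_n`, `J` the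
rate function of the end point, and let the width `w_n` be given by `n J (w_n / n) = σ_n`. Then the path of length `n` stays
within `R w_n` up to a stretched exponential tail, and the end point is spread at the scale `w_n` and not below; all
moments of `|S_n|` and of `max |S_i|` are of the order of the power of `w_n`; `log Z_n` fluctuates at the scale `σ_n` (both
tails are bounded above and below by stretched exponentials), the non random fluctuation `n F - E log Z_n` and the gap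
`E log Z_{2 n} - 2 E log Z_n` are of the order `σ_n`; the scales `σ_n`, `w_n`, `w_n σ_n²` and the rate function `J` near
`0` are regular: `c (n / m) ^ c σ_m ≤ σ_n ≤ C (n / m) ^ (1 / 2) σ_m`,
`c (n / m) ^ c w_m ≤ w_n ≤ C (n / m) ^ (1 - c) w_m`, `c (n / m) ^ (1 + c) w_m σ_m² ≤ w_n σ_n²` for `n ≥ m ≥ n₁`,
`c R ^ (1 + c) J (v) ≤ J (R v) ≤ C R ^ C J (v)` for `R ≥ 1`, `0 < v`, `R v ≤ c`; and `w_n σ_n² ≥ n ^ (1 + c)`,
`n ^ c ≤ σ_n ≤ C n ^ (1 / 2)`, `n ^ (1 / 3 + c) ≤ w_n ≤ n ^ (1 - c)`, `σ_n ≤ n ^ (-c) w_n`. Consequently `1 / 3 < ν < 1`,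
`0 < χ ≤ 1 / 2`, `2 χ + ν > 1`, and `J (v) ≥ c |v| ^ C`; if `J (v) = v ^ (κ + o(1))` as `v → 0+`, then
`limsup log σ_n / log n = 1 - κ (1 - ν)`. -/
theorem result {Ω : Type*} [MeasurableSpace Ω] (P : Measure Ω) [IsProbabilityMeasure P]
    (ω : ℕ × ℤ → Ω → ℝ) (hmeas : ∀ p, Measurable (ω p)) (hindep : iIndepFun ω P)
    (hident : ∀ p q, IdentDistrib (ω p) (ω q) P P) (hnc : ¬ ∃ c : ℝ, ∀ᵐ x ∂P, ω (0, 0) x = c)
    (hexp : ∀ b : ℝ, Integrable (fun x => Real.exp (b * ω (0, 0) x)) P) {β : ℝ} (hβ : 0 < β) :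
    ∃ (lam J : ℝ → ℝ) (F : ℝ) (σ w : ℕ → ℝ) (c C : ℝ) (n₁ : ℕ), 0 < c ∧
      -- the free energy and the rate function
      (∀ᵐ x ∂P, Tendsto (fun n : ℕ => Real.log (pZ β (fun p => ω p x) n) / n) atTop (𝓝 F)) ∧
      (∀ h, ∀ᵐ x ∂P, Tendsto (fun n : ℕ => Real.log (endMGF β h (fun p => ω p x) n) / n) atTop (𝓝 (lam h))) ∧
      (∀ v, |v| < 1 → ∀ y : ℕ → ℤ, (∀ n, (y n - n) % 2 = 0) → Tendsto (fun n : ℕ => (y n : ℝ) / n) atTop (𝓝 v) →
        ∀ᵐ x ∂P, Tendsto (fun n : ℕ => -Real.log (endP β (fun p => ω p x) n (y n)) / n) atTop (𝓝 (J v))) ∧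
      (∀ v, |v| < 1 → IsLUB (Set.range fun h => h * v - lam h) (J v)) ∧
      (∀ h, |h| ≤ 1 → lam h ≤ C * |h| ^ (1 + c)) ∧ (∀ v, |v| < 1 → c * |v| ^ C ≤ J v) ∧
      (∀ v R : ℝ, 0 < v → 1 ≤ R → R * v ≤ c → c * R ^ (1 + c) * J v ≤ J (R * v) ∧ J (R * v) ≤ C * R ^ C * J v) ∧
      -- the standard deviation and the width
      (∀ n, σ n = Real.sqrt (Var[fun x => Real.log (pZ β (fun p => ω p x) n); P])) ∧
      (∀ n, w n = sSup {r : ℝ | 0 ≤ r ∧ r < n ∧ n * J (r / n) ≤ σ n}) ∧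
      (∀ᶠ n : ℕ in atTop, (n : ℝ) ^ c ≤ σ n ∧ σ n ≤ C * (n : ℝ) ^ (1 / 2 : ℝ) ∧
        (n : ℝ) ^ (1 / 3 + c) ≤ w n ∧ w n ≤ (n : ℝ) ^ (1 - c) ∧
        n * J (w n / n) = σ n ∧ (n : ℝ) ^ (1 + c) ≤ w n * σ n ^ 2 ∧ (n : ℝ) ^ c * σ n ≤ w n ∧
        c * σ n ≤ n * F - ∫ x, Real.log (pZ β (fun p => ω p x) n) ∂P ∧
        n * F - ∫ x, Real.log (pZ β (fun p => ω p x) n) ∂P ≤ C * σ n ∧
        c * σ n ≤ ∫ x, Real.log (pZ β (fun p => ω p x) (2 * n)) ∂P - 2 * ∫ x, Real.log (pZ β (fun p => ω p x) n) ∂P) ∧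
      (∀ m n : ℕ, n₁ ≤ m → m ≤ n →
        c * ((n : ℝ) / m) ^ c * σ m ≤ σ n ∧ σ n ≤ C * ((n : ℝ) / m) ^ (1 / 2 : ℝ) * σ m ∧
        c * ((n : ℝ) / m) ^ c * w m ≤ w n ∧ w n ≤ C * ((n : ℝ) / m) ^ (1 - c) * w m ∧
        c * ((n : ℝ) / m) ^ (1 + c) * (w m * σ m ^ 2) ≤ w n * σ n ^ 2) ∧
      -- the fluctuations of the free energy
      (∀ᶠ n : ℕ in atTop, ∀ s : ℝ, 0 ≤ s →
        P.real {x | s * σ n ≤ |Real.log (pZ β (fun p => ω p x) n) - ∫ y, Real.log (pZ β (fun p => ω p y) n) ∂P|} ≤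
          C * Real.exp (-(c * s ^ c))) ∧
      (∀ᶠ n : ℕ in atTop, ∀ s : ℝ, 1 ≤ s → s ≤ (n : ℝ) ^ c →
        Real.exp (-(C * s ^ C)) ≤
          P.real {x | s * σ n ≤ Real.log (pZ β (fun p => ω p x) n) - ∫ y, Real.log (pZ β (fun p => ω p y) n) ∂P} ∧
        Real.exp (-(C * s ^ C)) ≤
          P.real {x | Real.log (pZ β (fun p => ω p x) n) - ∫ y, Real.log (pZ β (fun p => ω p y) n) ∂P ≤ -(s * σ n)}) ∧
      -- the fluctuations of the path
      (∀ᶠ n : ℕ in atTop, ∀ R : ℝ, 1 ≤ R →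
        1 - ∫ x, polP β (fun p => ω p x) n (ball n (R * w n)) ∂P ≤ C * Real.exp (-(c * R ^ c))) ∧
      (∀ ε : ℝ, 0 < ε → ∃ a : ℝ, 0 < a ∧ ∀ᶠ n : ℕ in atTop,
        ∫ x, polP β (fun p => ω p x) n {s | |(walk s n : ℝ)| ≤ a * w n} ∂P ≤ ε) ∧
      (∀ q : ℕ, ∃ a A : ℝ, 0 < a ∧ ∀ᶠ n : ℕ in atTop,
        a * w n ^ q ≤ ∫ x, polE β (fun p => ω p x) n
          (fun s => |(walk s n : ℝ)| ^ q) ∂P ∧
        ∫ x, polE β (fun p => ω p x) n (fun s => mx s ^ q) ∂P ≤ A * w n ^ q) ∧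
      -- the exponents
      nuP P β ω = limsup (fun n : ℕ => Real.log (w n) / Real.log n) atTop ∧
      chiP P β ω = liminf (fun n : ℕ => Real.log (σ n) / Real.log n) atTop ∧
      1 / 3 + c ≤ liminf (fun n : ℕ => Real.log (w n) / Real.log n) atTop ∧
      liminf (fun n : ℕ => Real.log (w n) / Real.log n) atTop ≤ nuP P β ω ∧ nuP P β ω ≤ 1 - c ∧
      c ≤ chiP P β ω ∧ chiP P β ω ≤ 1 / 2 ∧ 1 + c ≤ 2 * chiP P β ω + nuP P β ω ∧
      1 + c ≤ 2 * limsup (fun n : ℕ => Real.log (σ n) / Real.log n) atTop +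
        liminf (fun n : ℕ => Real.log (w n) / Real.log n) atTop ∧
      ∀ κ : ℝ, Tendsto (fun v : ℝ => Real.log (J v) / Real.log v) (𝓝[>] 0) (𝓝 κ) →
        limsup (fun n : ℕ => Real.log (σ n) / Real.log n) atTop = 1 - κ * (1 - nuP P β ω) ∧
        chiP P β ω = 1 - κ * (1 - liminf (fun n : ℕ => Real.log (w n) / Real.log n) atTop) ∧
        (2 * κ - 1 + c) / (2 * κ + 1) ≤ liminf (fun n : ℕ => Real.log (w n) / Real.log n) atTop ∧
        nuP P β ω ≤ 1 - 1 / (2 * κ) :=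
  main_S5
    (fun μ _ hμ hnd => in_of hμ hnd (Pool.Agent.W_7d29a1_G.targets hμ hnd) (Pool.Agent.W_7d29a1_G.frame hμ hnd).in'
      (Pool.Agent.W_7d29a1_G.frame hμ hnd).luck)
    (fun μ _ hμ hnd => (Pool.Agent.W_7d29a1_G.targets hμ hnd).hF2)
    (fun μ _ hμ hnd => Pool.Agent.W_7d29a1_G.expd0 hμ hnd)
    P ω hmeas hindep hident hnc hexp hβ

end Pool.Agent.W_7d29a1_NP.Draft3
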