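import Pool.Agent.W_7d29a1_NP.Level
import Pool.Agent.W_7d29a1_NP.RecN

/-!
STRICT NEWMAN - PIZA (MP_7d29a1_pr, proofs row 649): the theorem for the law of the environment. (helper64)
-/

namespace Pool.Agent.W_7d29a1_NP

open MeasureTheory ProbabilityTheory Filter Topology Finset
open Pool.Agent.W_7d29a1_F Pool.Agent.W_7d29a1_G Pool.Agent.W_7d29a1_SR

variable {μ : Measure ℝ} [IsProbabilityMeasure μ] {c C : ℝ} {n₀ : ℕ}

/-- **Strict Newman - Piza**: `b_n = w_n E_n² / n` grows at least like a power, at all scales. -/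
theorem np_main (h : In μ c C n₀) : ∃ c' : ℝ, 0 < c' ∧ ∃ n₁ : ℕ, 1 ≤ n₁ ∧ ∀ m n : ℕ, n₁ ≤ m → m ≤ n →
    c' * ((n : ℝ) / m) ^ c' * bn μ m ≤ bn μ n := by
  obtain ⟨K, hK, hL, i₀, hc⟩ := lev_in h
  obtain ⟨T, i₂, hT1, hT⟩ := rec_pure (β := fun i => bn μ (2 ^ i)) (fun i => bn_pos h Nat.one_le_two_pow) hK (i₀ := i₀)
    hc hL
  obtain ⟨n₁, -, hcomp⟩ := bn_comp h
  exact rec_final (b := bn μ) (fun n hn => bn_pos h hn) (n0 := n₁) hcomp hT1 hT

end Pool.Agent.W_7d29a1_NP
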