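import Pool.Agent.W_7d29a1_NP.Defs
import Pool.Agent.W_7d29a1_SR.Main4

/-!
STRICT NEWMAN - PIZA (row 649), leaf (h): from the power growth of `wd n EE n ^ 2 / n` to the width and the deviation on
the probability space of the problem, and to the exponents.
-/

namespace Pool.Agent.W_7d29a1_NP

open MeasureTheory ProbabilityTheory Filter Topology
open Pool.Agent.W_7d29a1_F Pool.Agent.W_7d29a1_h4g Pool.Agent.W_7d29a1_G Pool.Agent.W_7d29a1_SR

section pure

/-- Liminf and limsup of two bounded sequences with `e ≤ 2 x n + y n + o(1)`. -/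
theorem exp_pair {x y : ℕ → ℝ} (hx1 : IsBoundedUnder (· ≤ ·) atTop x) (hx2 : IsBoundedUnder (· ≥ ·) atTop x)
    (hy1 : IsBoundedUnder (· ≤ ·) atTop y) (hy2 : IsBoundedUnder (· ≥ ·) atTop y) {e : ℝ}
    (h : ∀ ε : ℝ, 0 < ε → ∀ᶠ n in atTop, e - ε ≤ 2 * x n + y n) :
    e ≤ 2 * liminf x atTop + limsup y atTop ∧ e ≤ 2 * limsup x atTop + liminf y atTop := by
  constructor
  · refine le_of_forall_pos_le_add fun ε hε => ?_
    have h1 : (e - limsup y atTop - ε) / 2 ≤ liminf x atTop := by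
      refine le_liminf_of_le hx1.isCoboundedUnder_ge ?_
      filter_upwards [h (ε / 2) (by positivity), eventually_lt_of_limsup_lt
        (show limsup y atTop < limsup y atTop + ε / 2 by linarith) hy1] with n h2 h3
      linarith
    linarith
  · refine le_of_forall_pos_le_add fun ε hε => ?_
    have h1 : e - 2 * limsup x atTop - ε ≤ liminf y atTop := by
      refine le_liminf_of_le hy1.isCoboundedUnder_ge ?_
      filter_upwards [h (ε / 2) (by positivity), eventually_lt_of_limsup_lt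
        (show limsup x atTop < limsup x atTop + ε / 4 by linarith) hx1] with n h2 h3
      linarith
    linarith

/-- The exponents of `w` and `σ` from `c n ^ (1 + d) ≤ w σ²`. -/
theorem exp_np {w σ : ℕ → ℝ} {c d b B b' B' : ℝ} (hc : 0 < c)
    (hw1 : ∀ᶠ n : ℕ in atTop, (n : ℝ) ^ b ≤ w n) (hw2 : ∀ᶠ n : ℕ in atTop, w n ≤ (n : ℝ) ^ B)
    (hσ1 : ∀ᶠ n : ℕ in atTop, (n : ℝ) ^ b' ≤ σ n) (hσ2 : ∀ᶠ n : ℕ in atTop, σ n ≤ (n : ℝ) ^ B')
    (h : ∀ᶠ n : ℕ in atTop, c * (n : ℝ) ^ (1 + d) ≤ w n * σ n ^ 2) :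
    1 + d ≤ 2 * liminf (fun n : ℕ => Real.log (σ n) / Real.log n) atTop +
      limsup (fun n : ℕ => Real.log (w n) / Real.log n) atTop ∧
    1 + d ≤ 2 * limsup (fun n : ℕ => Real.log (σ n) / Real.log n) atTop +
      liminf (fun n : ℕ => Real.log (w n) / Real.log n) atTop := by
  obtain ⟨n₁, h1⟩ := eventually_atTop.1 (hw1.and (hw2.and (hσ1.and hσ2)))
  have hbw := logr_bdd (w := w) (n₁ := n₁) (b := b) (B := B) (fun n hn => (h1 n hn).1) fun n hn => (h1 n hn).2.1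
  have hbs := logr_bdd (w := σ) (n₁ := n₁) (b := b') (B := B') (fun n hn => (h1 n hn).2.2.1) fun n hn => (h1 n hn).2.2.2
  refine exp_pair hbs.1 hbs.2 hbw.1 hbw.2 fun ε hε => ?_
  have hlog : Tendsto (fun n : ℕ => Real.log n) atTop atTop := Real.tendsto_log_atTop.comp tendsto_natCast_atTop_atTop
  filter_upwards [h, eventually_ge_atTop n₁, eventually_ge_atTop 2, hlog.eventually_ge_atTop (|Real.log c| / ε)]
    with n h2 h4 h5 h6
  have hn2 : (2 : ℝ) ≤ n := by exact_mod_cast h5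
  have hn0 : (0 : ℝ) < n := by linarith
  have hl : 0 < Real.log n := Real.log_pos (by linarith)
  obtain ⟨k1, k2, k3, k4⟩ := h1 n h4
  have hwp : 0 < w n := (Real.rpow_pos_of_pos hn0 _).trans_le k1
  have hsp : 0 < σ n := (Real.rpow_pos_of_pos hn0 _).trans_le k3
  have h7 := Real.log_le_log (mul_pos hc (Real.rpow_pos_of_pos hn0 _)) h2
  rw [Real.log_mul hc.ne' (Real.rpow_pos_of_pos hn0 _).ne', Real.log_rpow hn0, Real.log_mul hwp.ne' (by positivity),
    Real.log_pow] at h7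
  push_cast at h7
  have h8 : -(ε * Real.log n) ≤ Real.log c := by
    rw [div_le_iff₀ hε] at h6
    have := neg_abs_le (Real.log c)
    linarith
  have h9 : 2 * (Real.log (σ n) / Real.log n) + Real.log (w n) / Real.log n =
      (2 * Real.log (σ n) + Real.log (w n)) / Real.log n := by ring
  rw [h9, le_div_iff₀ hl]
  linarith

end pure

variable {μ : Measure ℝ} [IsProbabilityMeasure μ] {c C : ℝ} {n₀ : ℕ}
variable {Ω : Type*} [MeasurableSpace Ω] {P : Measure Ω} [IsProbabilityMeasure P] {ω : ℕ × ℤ → Ω → ℝ} {β : ℝ}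

/-- Strict Newman - Piza on the probability space of the problem, at all scales. -/
theorem np_P (h : In μ c C n₀) (hmp : MeasurePreserving (fun x => toF β fun p => ω p x) P (law μ))
    (hnp : ∃ c' : ℝ, 0 < c' ∧ ∃ n₁ : ℕ, 1 ≤ n₁ ∧ ∀ m n : ℕ, n₁ ≤ m → m ≤ n →
      c' * ((n : ℝ) / m) ^ c' * bn μ m ≤ bn μ n) :
    ∃ k : ℝ, 0 < k ∧ ∃ n₁ : ℕ, 1 ≤ n₁ ∧
      (∀ n : ℕ, n₁ ≤ n → k * (n : ℝ) ^ (1 + k) ≤ wth P β ω (fun v => J μ (v / 2)) n * sgm P β ω n ^ 2) ∧
      ∀ m n : ℕ, n₁ ≤ m → m ≤ n →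
        k * ((n : ℝ) / m) ^ (1 + k) * (wth P β ω (fun v => J μ (v / 2)) m * sgm P β ω m ^ 2) ≤
          wth P β ω (fun v => J μ (v / 2)) n * sgm P β ω n ^ 2 := by
  obtain ⟨a, A, b, B, ha, hA, hb, hB, n₂, hn₂, hsc⟩ := scales (P := P) (β := β) (ω := ω) h hmp
  obtain ⟨c', hc', n₃, hn₃, hg⟩ := hnp
  obtain ⟨f, hf⟩ : ∃ f : ℕ → ℝ, ∀ n, f n = wth P β ω (fun v => J μ (v / 2)) n * sgm P β ω n ^ 2 := ⟨_, fun _ => rfl⟩
  obtain ⟨N, hN⟩ : ∃ N : ℕ, N = max n₂ n₃ := ⟨_, rfl⟩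
  have hN2 : n₂ ≤ N := by rw [hN]; exact le_max_left _ _
  have hN3 : n₃ ≤ N := by rw [hN]; exact le_max_right _ _
  have hN1 : 1 ≤ N := hn₂.trans hN2
  -- comparison with `n * bn n`
  have hup : ∀ n, N ≤ n → f n ≤ B * A ^ 2 * (n * bn μ n) := by
    intro n hn
    obtain ⟨s1, s2, s3, s4, s5⟩ := hsc n (hN2.trans hn)
    have hE := lt_of_lt_of_le one_pos (Pool.Agent.W_7d29a1_G.one_le_EE (μ := μ) n)
    have hn0 : (0 : ℝ) < n := by exact_mod_cast hN1.trans hn
    have hσ0 : 0 ≤ sgm P β ω n := le_trans (by positivity) s1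
    have e : (n : ℝ) * bn μ n = wd μ n * EE μ n ^ 2 := by
      unfold bn
      field_simp
    rw [hf, e]
    calc wth P β ω (fun v => J μ (v / 2)) n * sgm P β ω n ^ 2 ≤ (B * wd μ n) * (A * EE μ n) ^ 2 :=
          mul_le_mul s4 (pow_le_pow_left₀ hσ0 s2 2) (by positivity) (by positivity)
      _ = _ := by ring
  have hlo : ∀ n, N ≤ n → b * a ^ 2 * (n * bn μ n) ≤ f n := by
    intro n hn
    obtain ⟨s1, s2, s3, s4, s5⟩ := hsc n (hN2.trans hn)
    have hE := lt_of_lt_of_le one_pos (Pool.Agent.W_7d29a1_G.one_le_EE (μ := μ) n)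
    have hn0 : (0 : ℝ) < n := by exact_mod_cast hN1.trans hn
    have e : (n : ℝ) * bn μ n = wd μ n * EE μ n ^ 2 := by
      unfold bn
      field_simp
    rw [hf, e]
    calc b * a ^ 2 * (wd μ n * EE μ n ^ 2) = (b * wd μ n) * (a * EE μ n) ^ 2 := by ring
      _ ≤ _ := mul_le_mul s3 (pow_le_pow_left₀ (by positivity) s1 2) (by positivity)
          (le_trans (by positivity) s3)
  have hbp : ∀ n, N ≤ n → 0 < bn μ n := by
    intro n hn
    obtain ⟨s1, s2, s3, s4, s5⟩ := hsc n (hN2.trans hn)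
    have hE := lt_of_lt_of_le one_pos (Pool.Agent.W_7d29a1_G.one_le_EE (μ := μ) n)
    have hn0 : (0 : ℝ) < n := by exact_mod_cast hN1.trans hn
    unfold bn
    positivity
  have hfp : ∀ n, N ≤ n → 0 < f n := by
    intro n hn
    have hn0 : (0 : ℝ) < n := by exact_mod_cast hN1.trans hn
    have := hbp n hn
    exact lt_of_lt_of_le (by positivity) (hlo n hn)
  -- growth with one constant
  obtain ⟨q, hq⟩ : ∃ q : ℝ, q = b * a ^ 2 / (B * A ^ 2) * c' := ⟨_, rfl⟩
  have hq0 : 0 < q := by rw [hq]; positivity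
  have hgr : ∀ m n : ℕ, N ≤ m → m ≤ n → q * ((n : ℝ) / m) ^ (1 + c') * f m ≤ f n := by
    intro m n hm hmn
    have hm0 : (0 : ℝ) < m := by exact_mod_cast hN1.trans hm
    have hn0 : (0 : ℝ) < n := by exact_mod_cast hN1.trans (hm.trans hmn)
    have hr0 : (0 : ℝ) < (n : ℝ) / m := by positivity
    have h1 := hg m n (hN3.trans hm) hmn
    have hbm := hbp m hm
    calc q * ((n : ℝ) / m) ^ (1 + c') * f m ≤ q * ((n : ℝ) / m) ^ (1 + c') * (B * A ^ 2 * (m * bn μ m)) :=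
          mul_le_mul_of_nonneg_left (hup m hm) (by positivity)
      _ = b * a ^ 2 * (n * (c' * ((n : ℝ) / m) ^ c' * bn μ m)) := by
          rw [hq, Real.rpow_add hr0, Real.rpow_one]
          field_simp
      _ ≤ b * a ^ 2 * (n * bn μ n) :=
          mul_le_mul_of_nonneg_left (mul_le_mul_of_nonneg_left h1 hn0.le) (by positivity)
      _ ≤ f n := hlo n (hm.trans hmn)
  -- the constant of the first clause
  obtain ⟨r, hr⟩ : ∃ r : ℝ, r = q * f N / (N : ℝ) ^ (1 + c') := ⟨_, rfl⟩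
  have hNR : (0 : ℝ) < N := by exact_mod_cast hN1
  have hr0 : 0 < r := by
    have := hfp N le_rfl
    rw [hr]
    positivity
  obtain ⟨k, hk⟩ : ∃ k : ℝ, k = min c' (min q r) := ⟨_, rfl⟩
  have hk0 : 0 < k := by rw [hk]; positivity
  have hk1 : k ≤ c' := by rw [hk]; exact min_le_left _ _
  have hk2 : k ≤ q := by rw [hk]; exact (min_le_right _ _).trans (min_le_left _ _)
  have hk3 : k ≤ r := by rw [hk]; exact (min_le_right _ _).trans (min_le_right _ _)
  refine ⟨k, hk0, N, hN1, fun n hn => ?_, fun m n hm hmn => ?_⟩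
  · rw [← hf]
    have hn0 : (0 : ℝ) < n := by exact_mod_cast hN1.trans hn
    have hn1 : (1 : ℝ) ≤ n := by exact_mod_cast hN1.trans hn
    have h1 := hgr N n le_rfl hn
    have h2 : q * ((n : ℝ) / N) ^ (1 + c') * f N = r * (n : ℝ) ^ (1 + c') := by
      rw [hr, Real.div_rpow hn0.le hNR.le]
      ring
    rw [h2] at h1
    refine le_trans (mul_le_mul hk3 (Real.rpow_le_rpow_of_exponent_le hn1 (by linarith)) (Real.rpow_nonneg hn0.le _)
      hr0.le) h1
  · rw [← hf, ← hf]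
    have hm0 : (0 : ℝ) < m := by exact_mod_cast hN1.trans hm
    have hr1 : (1 : ℝ) ≤ (n : ℝ) / m := by
      rw [le_div_iff₀ hm0, one_mul]
      exact_mod_cast hmn
    refine le_trans (mul_le_mul_of_nonneg_right (mul_le_mul hk2 (Real.rpow_le_rpow_of_exponent_le hr1 (by linarith))
      (Real.rpow_nonneg (by positivity) _) hq0.le) (hfp m hm).le) (hgr m n hm hmn)

end Pool.Agent.W_7d29a1_NP
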