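import Pool.Agent.W_7d29a1_NP.MeanB

/-!
STRICT NEWMAN - PIZA (proofs row 649), leaf (d), third part: the covariance of the free energy with one test function
`phi`, from the deterministic inequality (leaf (c)). (helper56)
-/

namespace Pool.Agent.W_7d29a1_NP

open MeasureTheory ProbabilityTheory Filter Topology
open Pool.Agent.W_7d29a1_f21 Pool.Agent.W_7d29a1_F Pool.Agent.W_7d29a1_h4g Pool.Agent.W_7d29a1_G
open Pool.Agent.W_7d29a1_SR Pool.Agent.W_7d29a1_SL Pool.Agent.W_7d29a1_XG Pool.Agent.W_7d29a1_X42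
open Pool.Agent.W_7d29a1_L78 Me

noncomputable section

variable {μ : Measure ℝ} [IsProbabilityMeasure μ]

/-- The covariance with one `phi`, from the inequality of leaf (c). -/
theorem cov_phi_of (hEM : Pool.Agent.W_7d29a1_h47.EM μ) {r lam : ℝ} (hr : 1 ≤ r) {s m k R rr : ℕ}
    (hp : 0 < pD μ r k lam) (hs : Even s) (hme : Even m) (hk : k ≤ m) {z : ℤ} {ρ B1 B2 B3 : ℝ}
    (hB1 : 0 ≤ B1) (hρ : ρ ≤ ((R * m : ℕ) : ℝ) / 2)
    (hend : ∀ y : ℤ, 0 ≤ y → y ≤ k → |2 * (y : ℝ) - k| ≤ 2 * r →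
      0 ≤ ((m / 2 : ℕ) : ℤ) - y ∧ ((m / 2 : ℕ) : ℤ) - y ≤ ((m - k : ℕ) : ℤ) ∧
        ep μ (m - k) (((m / 2 : ℕ) : ℤ) - y) ≤ B1)
    (h2 : ∀ x ∈ nearS s ρ z, ep μ (R * m) (z + ((s + R * m) / 2 : ℕ) - x) ≤ B2)
    (h3 : ∀ x ∈ nearS s ρ z, ep μ (2 * (R * m)) (x + 2 * (R * m : ℕ) - (z + ((s + 2 * (R * m)) / 2 : ℕ))) ≤ B3)
    (hch : ∀ x ∈ nearS s ρ z, ∀ η : Env, Real.log (gw μ η s (4 * (R * m)) rr x)
      - X μ 0 η ((s : ℤ), x) (R * m) (z + ((s + R * m) / 2 : ℕ) - x)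
      - X μ 0 η (tp (s + R * m) m z R) (2 * (R * m)) (x + 2 * (R * m : ℕ) - (z + ((s + 2 * (R * m)) / 2 : ℕ)))
      + ∑ j ∈ Finset.range R, (Real.log (cf μ r η (tp (s + R * m) m z j) k) -
          CQ μ (St r (tp (s + R * m) m z j)) η (tp (s + R * m) m z j) k (m - k) ((m / 2 : ℕ) : ℤ)) ≤
      V μ 0 η 0 (s + (4 * (R * m) + rr))) :
    ∑ x ∈ nearS s ρ z, ((∫ η, qw μ η s (4 * (R * m)) rr x ∂(law μ)) * (R * lam - R * B1 - B2 - B3) -
      ∫ η, qw μ η s (4 * (R * m)) rr x *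
        (V μ 0 η 0 (s + (4 * (R * m) + rr)) - Real.log (gw μ η s (4 * (R * m)) rr x)) ∂(law μ)) ≤
    ∫ η, V μ 0 η 0 (s + (4 * (R * m) + rr)) * (phi μ r k lam (s + R * m) m R z η - 1) ∂(law μ) := by
  obtain ⟨hφm, hφb, ⟨D, hD, hDd⟩, hφmo, hφ1⟩ := phi_spec (μ := μ) hp (a := s + R * m) (R := R) hk z
  obtain ⟨φ, hφ⟩ : ∃ φ : Env → ℝ, φ = phi μ r k lam (s + R * m) m R z := ⟨_, rfl⟩
  obtain ⟨b, hb⟩ : ∃ b : ℝ, b = (1 / pD μ r k lam) ^ R := ⟨_, rfl⟩
  rw [← hφ] at hφm hφb hDd hφmo hφ1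
  rw [← hb] at hφb
  have hN : nearS s ρ z ⊆ Finset.Icc (0 : ℤ) s := Finset.filter_subset _ _
  have eL : ((R * m : ℕ) : ℤ) = (R : ℤ) * m := by push_cast; ring
  have hL0 : (0 : ℤ) ≤ (R : ℤ) * m := by positivity
  -- (3.1)
  have H := harris_part (μ := μ) hEM (s := s) (l := 4 * (R * m)) (rr := rr) hN hφm hφb (D := D)
    (fun p hp2 => by
      obtain ⟨h4, h5⟩ := hD p hp2
      refine ⟨?_, ?_⟩
      · push_cast at h4 ⊢
        linarith
      · push_cast at h5 ⊢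
        linarith) hDd hφmo hφ1
  -- (3.2)
  obtain ⟨s', hs'⟩ := hs
  obtain ⟨m', hm'⟩ := hme
  have T : ∀ x ∈ nearS s ρ z, (∫ η, qw μ η s (4 * (R * m)) rr x ∂(law μ)) * (R * lam - R * B1 - B2 - B3) -
      ∫ η, qw μ η s (4 * (R * m)) rr x *
        (V μ 0 η 0 (s + (4 * (R * m) + rr)) - Real.log (gw μ η s (4 * (R * m)) rr x)) ∂(law μ) ≤
      ∫ η, V μ 0 η 0 (s + (4 * (R * m) + rr)) * qw μ η s (4 * (R * m)) rr x * (φ η - 1) ∂(law μ) := by
    intro x hx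
    rw [hφ]
    have hx' := (Finset.mem_filter.1 hx).2
    rw [abs_le] at hx'
    have e1 : (((s + R * m) / 2 : ℕ) : ℤ) = s' + R * m' := by
      have : (s + R * m) / 2 = s' + R * m' := by
        rw [hs', hm', show s' + s' + R * (m' + m') = 2 * (s' + R * m') by ring, Nat.mul_div_cancel_left _ (by norm_num)]
      rw [this]
      push_cast
      ring
    have e2 : (((s + 2 * (R * m)) / 2 : ℕ) : ℤ) = s' + R * (m' + m') := by
      have : (s + 2 * (R * m)) / 2 = s' + R * (m' + m') := by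
        rw [hs', hm', show s' + s' + 2 * (R * (m' + m')) = 2 * (s' + R * (m' + m')) by ring,
          Nat.mul_div_cancel_left _ (by norm_num)]
      rw [this]
      push_cast
      ring
    have es : (s : ℝ) = s' + s' := by rw [hs']; push_cast; ring
    have em : ((R * m : ℕ) : ℝ) = R * (m' + m') := by rw [hm']; push_cast; ring
    have emz : ((R * m : ℕ) : ℤ) = R * (m' + m') := by rw [hm']; push_cast; ring
    have em2 : ((2 * (R * m) : ℕ) : ℤ) = 2 * (R * (m' + m')) := by rw [hm']; push_cast; ring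
    have hρ' := hρ
    rw [em] at hρ'
    rw [es] at hx'
    have b1 : (x : ℝ) - s' - z ≤ R * m' := by linarith [hx'.2]
    have b2 : -(R * m' : ℝ) ≤ x - s' - z := by linarith [hx'.1]
    have b1' : x - s' - z ≤ (R : ℤ) * m' := by exact_mod_cast b1
    have b2' : -((R : ℤ) * m') ≤ x - s' - z := by exact_mod_cast b2
    have hR0 : (0 : ℤ) ≤ (R : ℤ) * m' := by positivity
    refine term_le (μ := μ) hEM hr hp hk hB1 hend (hN hx)
      (y2 := z + ((s + R * m) / 2 : ℕ) - x)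
      (y3 := x + 2 * (R * m : ℕ) - (z + ((s + 2 * (R * m)) / 2 : ℕ))) ?_ ?_ (h2 x hx) ?_ ?_ (h3 x hx) (hch x hx)
    · rw [e1]
      linarith
    · rw [e1, emz]
      linarith
    · rw [e2, emz]
      linarith
    · rw [e2, emz, em2]
      linarith
  -- the sum
  have hFS : Sub fun η : Env => V μ 0 η 0 (s + (4 * (R * m) + rr)) := Sub_V 0 _
  have hb0 : 0 ≤ b := (hφb 0).1.trans (hφb 0).2
  have iS : ∀ {f : Env → ℝ} {b : ℝ}, Measurable f → (∀ η, 0 ≤ f η ∧ f η ≤ b) →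
      Integrable (fun η => V μ 0 η 0 (s + (4 * (R * m) + rr)) * f η * (φ η - 1)) (law μ) := by
    intro f c hf hc
    have h4 : Sub fun η => f η * (φ η - 1) := Sub_bd (hf.mul (hφm.sub measurable_const)) (b := c * (b + 1)) fun η => by
      rw [abs_mul, abs_of_nonneg (hc η).1]
      refine mul_le_mul (hc η).2 ?_ (abs_nonneg _) ((hc η).1.trans (hc η).2)
      have h5 := hφb η
      rw [abs_le]
      constructor <;> linarith
    have := Sub.mul_integrable hEM hFS h4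
    simpa only [mul_assoc] using this
  have i1 : Integrable (fun η => V μ 0 η 0 (s + (4 * (R * m) + rr)) *
      (1 - ∑ x ∈ nearS s ρ z, qw μ η s (4 * (R * m)) rr x) * (φ η - 1)) (law μ) :=
    iS (b := 1) (measurable_const.sub (Finset.measurable_sum _ fun x _ => measurable_qw _ _ _ x)) fun η => by
      have h4 := sum_qw_le (μ := μ) hN η (4 * (R * m)) rr
      have h5 : 0 ≤ ∑ x ∈ nearS s ρ z, qw μ η s (4 * (R * m)) rr x := Finset.sum_nonneg fun x _ => qw_nonneg _ _ _ _ _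
      constructor <;> linarith
  have i2 : ∀ x ∈ nearS s ρ z, Integrable (fun η => V μ 0 η 0 (s + (4 * (R * m) + rr)) *
      qw μ η s (4 * (R * m)) rr x * (φ η - 1)) (law μ) := fun x hx =>
    iS (b := 1) (measurable_qw _ _ _ x) fun η => ⟨qw_nonneg _ _ _ _ _, qw_le_one _ _ _ _ (hN hx)⟩
  have E : ∫ η, V μ 0 η 0 (s + (4 * (R * m) + rr)) * (φ η - 1) ∂(law μ) =
      ∫ η, V μ 0 η 0 (s + (4 * (R * m) + rr)) *
        (1 - ∑ x ∈ nearS s ρ z, qw μ η s (4 * (R * m)) rr x) * (φ η - 1) ∂(law μ) +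
      ∑ x ∈ nearS s ρ z, ∫ η, V μ 0 η 0 (s + (4 * (R * m) + rr)) *
        qw μ η s (4 * (R * m)) rr x * (φ η - 1) ∂(law μ) := by
    rw [← integral_finsetSum _ i2, ← integral_add i1 (integrable_finsetSum _ i2)]
    refine integral_congr_ae (ae_of_all _ fun η => ?_)
    show V μ 0 η 0 (s + (4 * (R * m) + rr)) * (φ η - 1) =
      V μ 0 η 0 (s + (4 * (R * m) + rr)) * (1 - ∑ x ∈ nearS s ρ z, qw μ η s (4 * (R * m)) rr x) * (φ η - 1) +
        ∑ x ∈ nearS s ρ z, V μ 0 η 0 (s + (4 * (R * m) + rr)) * qw μ η s (4 * (R * m)) rr x * (φ η - 1)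
    rw [← Finset.sum_mul, ← Finset.mul_sum]
    ring
  have Fin := Finset.sum_le_sum T
  rw [← hφ, E]
  linarith

end

end Pool.Agent.W_7d29a1_NP
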