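import Pool.Agent.W_7d29a1_NP.Defs
import Pool.Agent.W_7d29a1_NP.Grid

/-!
STRICT NEWMAN - PIZA (MP_7d29a1_pr, proofs row 649): the scales and the costs of one block. (helper64)
-/

namespace Pool.Agent.W_7d29a1_NP

open MeasureTheory ProbabilityTheory Filter Topology Finset
open Pool.Agent.W_7d29a1_f21 Pool.Agent.W_7d29a1_F Pool.Agent.W_7d29a1_h4g Pool.Agent.W_7d29a1_G
open Pool.Agent.W_7d29a1_SR Pool.Agent.W_7d29a1_SL Pool.Agent.W_7d29a1_XG Pool.Agent.W_7d29a1_X42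

noncomputable section

variable {μ : Measure ℝ} [IsProbabilityMeasure μ] {c C : ℝ} {n₀ : ℕ}

omit [IsProbabilityMeasure μ] in
/-- Bounded functions. -/
theorem Sub_bd {f : Env → ℝ} (hm : Measurable f) {B : ℝ} (h : ∀ η, |f η| ≤ B) : Sub f := by
  refine ⟨hm, ∅, max B 0, le_max_right _ _, fun η => ?_⟩
  rw [Finset.sum_empty, add_zero, mul_one]
  exact (h η).trans (le_max_left _ _)

theorem wd_nonneg (h : In μ c C n₀) (n : ℕ) : 0 ≤ wd μ n :=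
  mul_nonneg (vA_nonneg (μ := μ) h.em zero_le_one n) (Nat.cast_nonneg n)

theorem wd_le2 (h : In μ c C n₀) : ∃ n₁ : ℕ, ∀ m n : ℕ, n₁ ≤ m → m ≤ n → wd μ m ≤ 2 * wd μ n := by
  obtain ⟨n₁, h1⟩ := wd_growth h
  refine ⟨n₁, fun m n hm hmn => ?_⟩
  have h2 := h1 m n hm hmn
  have h3 : EE μ m ≤ EE μ n := EE_mono hmn
  have h4 := EE_pos (μ := μ) n
  have h5 := wd_nonneg h n
  have h6 : 2 * EE μ m * wd μ n ≤ 2 * EE μ n * wd μ n := by
    have := mul_le_mul_of_nonneg_right h3 h5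
    linarith
  have h7 : wd μ m * EE μ n ≤ (2 * wd μ n) * EE μ n := by linarith
  exact le_of_mul_le_mul_right h7 h4

/-- The duration and the width of the lucky strips. -/
theorem strip_k (h : In μ c C n₀) {R₁ : ℝ} (hR₁ : 1 ≤ R₁) : ∃ J₁ i₁ : ℕ, 1 ≤ J₁ ∧ ∀ i : ℕ, i₁ ≤ i → J₁ + 1 ≤ i ∧
    1 ≤ R₁ * wd μ (2 ^ (i - J₁)) ∧ R₁ * wd μ (2 ^ (i - J₁)) ≤ c * wd μ (2 ^ i) / 64 ∧
    1 ≤ c * wd μ (2 ^ i) / 16 ∧ wd μ (2 ^ i) ≤ (2 ^ i : ℕ) / 2 := by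
  have hc0 := h.c0
  have hR0 : 0 < R₁ := lt_of_lt_of_le one_pos hR₁
  obtain ⟨J, n₁, hJ⟩ := scale_a h (128 * R₁ / c)
  obtain ⟨n₂, h2⟩ := wd_growth h
  obtain ⟨n₃, h3⟩ := eventually_atTop.1 ((wd_tendsto h).eventually_ge_atTop (max 1 (16 / c)))
  obtain ⟨n₄, h4⟩ := eventually_atTop.1 (h.tv.eventually_le_const (show (0 : ℝ) < 1 / 2 by norm_num))
  obtain ⟨N, hN⟩ : ∃ N : ℕ, N = max (max n₁ n₂) (max n₃ n₄) := ⟨_, rfl⟩
  refine ⟨J + 1, N + J + 2, by omega, fun i hi => ?_⟩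
  obtain ⟨t, ht⟩ : ∃ t : ℕ, i = t + (J + 1) := ⟨i - (J + 1), by omega⟩
  have htN : N ≤ 2 ^ t := (show N ≤ t by omega).trans Nat.lt_two_pow_self.le
  have htN' : N ≤ 2 ^ i := (show N ≤ i by omega).trans Nat.lt_two_pow_self.le
  have hk1 : n₂ ≤ 2 ^ t := ((le_max_right _ _).trans (le_max_left _ _)).trans (hN ▸ htN)
  have hk3 : n₃ ≤ 2 ^ t := ((le_max_left _ _).trans (le_max_right _ _)).trans (hN ▸ htN)
  have hm1 : n₁ ≤ 2 ^ i := ((le_max_left _ _).trans (le_max_left _ _)).trans (hN ▸ htN')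
  have hm3 : n₃ ≤ 2 ^ i := ((le_max_left _ _).trans (le_max_right _ _)).trans (hN ▸ htN')
  have hm4 : n₄ ≤ 2 ^ i := ((le_max_right _ _).trans (le_max_right _ _)).trans (hN ▸ htN')
  have e1 : i - (J + 1) = t := by omega
  have e2 : 2 ^ J * 2 ^ t ≤ 2 ^ i := by
    rw [← pow_add]
    exact Nat.pow_le_pow_right (by norm_num) (by omega)
  rw [e1]
  have hkm : 2 ^ t ≤ 2 ^ i := Nat.pow_le_pow_right (by norm_num) (by omega)
  have a1 := hJ (2 ^ t) (2 ^ i) hm1 e2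
  have a2 := h2 (2 ^ t) (2 ^ i) hk1 hkm
  have a3 := h3 (2 ^ t) hk3
  have a4 := h3 (2 ^ i) hm3
  have a5 := h4 (2 ^ i) hm4
  have wk := wd_nonneg h (2 ^ t)
  have wm := wd_nonneg h (2 ^ i)
  have Ek := EE_pos (μ := μ) (2 ^ t)
  refine ⟨by omega, ?_, ?_, ?_, ?_⟩
  · have : 1 ≤ wd μ (2 ^ t) := (le_max_left _ _).trans a3
    nlinarith
  · have b1 : wd μ (2 ^ t) * (128 * R₁ / c * EE μ (2 ^ t)) ≤ wd μ (2 ^ t) * EE μ (2 ^ i) :=
      mul_le_mul_of_nonneg_left a1 wk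
    have b2 : (128 * R₁ / c * wd μ (2 ^ t)) * EE μ (2 ^ t) ≤ (2 * wd μ (2 ^ i)) * EE μ (2 ^ t) := by
      calc (128 * R₁ / c * wd μ (2 ^ t)) * EE μ (2 ^ t) = wd μ (2 ^ t) * (128 * R₁ / c * EE μ (2 ^ t)) := by ring
        _ ≤ 2 * EE μ (2 ^ t) * wd μ (2 ^ i) := b1.trans a2
        _ = (2 * wd μ (2 ^ i)) * EE μ (2 ^ t) := by ring
    have b3 := le_of_mul_le_mul_right b2 Ek
    rw [div_mul_eq_mul_div, div_le_iff₀ hc0] at b3
    linarith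
  · have b1 : 16 / c ≤ wd μ (2 ^ i) := (le_max_right _ _).trans a4
    rw [div_le_iff₀ hc0] at b1
    linarith
  · have b1 : wd μ (2 ^ i) = vA μ 1 (2 ^ i) * ((2 ^ i : ℕ) : ℝ) := rfl
    rw [b1]
    have b2 : vA μ 1 (2 ^ i) * ((2 ^ i : ℕ) : ℝ) ≤ 1 / 2 * ((2 ^ i : ℕ) : ℝ) :=
      mul_le_mul_of_nonneg_right a5 (Nat.cast_nonneg _)
    linarith

/-- The costs of the joints. -/
theorem joint (h : In μ c C n₀) {m k : ℕ} (hm : n₀ ≤ m) (hme : Even m) (hke : 2 * k ≤ m) {r : ℝ}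
    (hr2 : r ≤ c * wd μ m / 64) (hw : wd μ m ≤ (m : ℝ) / 2) :
    ∀ y : ℤ, 0 ≤ y → y ≤ k → |2 * (y : ℝ) - k| ≤ 2 * r →
      0 ≤ ((m / 2 : ℕ) : ℤ) - y ∧ ((m / 2 : ℕ) : ℤ) - y ≤ ((m - k : ℕ) : ℤ) ∧
        ep μ (m - k) (((m / 2 : ℕ) : ℤ) - y) ≤ C * EE μ m := by
  intro y hy0 hyk hy
  have hc0 := h.c0
  have hc1 := h.c1
  have hwn := wd_nonneg h m
  have hcw : c * wd μ m ≤ 1 * wd μ m := mul_le_mul_of_nonneg_right hc1 hwn
  obtain ⟨t, ht⟩ := hme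
  have e1 : m / 2 = t := by omega
  have e2 : ((m - k : ℕ) : ℤ) = (m : ℤ) - k := by omega
  rw [abs_le] at hy
  have hm2 : (m : ℝ) = 2 * t := by
    have : m = 2 * t := by omega
    exact_mod_cast this
  have hk2 : 2 * (k : ℝ) ≤ m := by exact_mod_cast hke
  have hy0' : (0 : ℝ) ≤ y := by exact_mod_cast hy0
  have h1 : (0 : ℤ) ≤ ((m / 2 : ℕ) : ℤ) - y := by
    rw [e1]
    omega
  have hmk : ((m - k : ℕ) : ℝ) = (m : ℝ) - k := by
    have : ((m - k : ℕ) : ℤ) = (m : ℤ) - k := e2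
    exact_mod_cast this
  have h2 : ((m / 2 : ℕ) : ℤ) - y ≤ ((m - k : ℕ) : ℤ) := by
    rw [e1, e2]
    omega
  refine ⟨h1, h2, h.inn m hm (m - k) _ (by omega) h1 h2 ?_⟩
  rw [e1, hmk]
  have e3 : c * vA μ 1 m * ((m : ℝ) - k) = c * wd μ m * (((m : ℝ) - k) / m) := by
    rcases Nat.eq_zero_or_pos m with h0 | h0
    · subst h0
      have : k = 0 := by omega
      subst this
      simp
    · have : (m : ℝ) ≠ 0 := by positivity
      unfold wd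
      field_simp
  have e4 : c * wd μ m / 2 ≤ c * vA μ 1 m * ((m : ℝ) - k) := by
    have h3 : c * vA μ 1 m * ((m : ℝ) / 2) ≤ c * vA μ 1 m * ((m : ℝ) - k) := by
      refine mul_le_mul_of_nonneg_left (by linarith) ?_
      exact mul_nonneg hc0.le (vA_nonneg (μ := μ) h.em zero_le_one m)
    have h4 : c * wd μ m / 2 = c * vA μ 1 m * ((m : ℝ) / 2) := by
      unfold wd
      ring
    linarith
  have h5 : 0 ≤ c * wd μ m := mul_nonneg hc0.le hwn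
  push_cast
  rw [abs_le]
  constructor <;> linarith [hy.1, hy.2]

/-- The costs of the first and the last way. -/
theorem ways (h : In μ c C n₀) {L s : ℕ} (hL : n₀ ≤ L) (hLe : Even L) (hs : Even s) (hw : wd μ L ≤ (L : ℝ) / 2) {z x : ℤ}
    (hx : |(x : ℝ) - (s : ℝ) / 2 - z| ≤ c * wd μ L / 4) :
    ep μ L (z + ((s + L) / 2 : ℕ) - x) ≤ C * EE μ L ∧
    ep μ (2 * L) (x + 2 * (L : ℕ) - (z + ((s + 2 * L) / 2 : ℕ))) ≤ C * EE μ L := by
  have hc0 := h.c0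
  have hc1 := h.c1
  have hwn := wd_nonneg h L
  have hcw : c * wd μ L ≤ 1 * wd μ L := mul_le_mul_of_nonneg_right hc1 hwn
  have hcw0 : 0 ≤ c * wd μ L := mul_nonneg hc0.le hwn
  obtain ⟨l, hl⟩ := hLe
  obtain ⟨σ, hσ⟩ := hs
  have e1 : (s + L) / 2 = σ + l := by omega
  have e2 : (s + 2 * L) / 2 = σ + 2 * l := by omega
  have hL2 : (L : ℝ) = 2 * l := by
    have : L = 2 * l := by omega
    exact_mod_cast this
  have hs2 : (s : ℝ) = 2 * σ := by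
    have : s = 2 * σ := by omega
    exact_mod_cast this
  have hwl : c * vA μ 1 L * (L : ℝ) = c * wd μ L := by
    unfold wd
    ring
  rw [e1, e2]
  rw [abs_le] at hx
  have p1 : (0 : ℝ) ≤ (z : ℝ) + (σ + l) - x ∧ (z : ℝ) + (σ + l) - x ≤ L := by
    constructor <;> nlinarith [hx.1, hx.2]
  have p2 : (0 : ℝ) ≤ (x : ℝ) + 2 * L - (z + (σ + 2 * l)) ∧ (x : ℝ) + 2 * L - (z + (σ + 2 * l)) ≤ 2 * L := by
    constructor <;> nlinarith [hx.1, hx.2]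
  constructor
  · refine h.inn L hL L _ (by omega) ?_ ?_ ?_
    · have : (0 : ℝ) ≤ ((z + ((σ + l : ℕ) : ℤ) - x : ℤ) : ℝ) := by push_cast; exact p1.1
      exact_mod_cast this
    · have : ((z + ((σ + l : ℕ) : ℤ) - x : ℤ) : ℝ) ≤ ((L : ℕ) : ℝ) := by push_cast; exact p1.2
      exact_mod_cast this
    · push_cast
      rw [hwl, abs_le]
      constructor <;> linarith [hx.1, hx.2]
  · refine h.inn L hL (2 * L) _ (by omega) ?_ ?_ ?_
    · have : (0 : ℝ) ≤ ((x + 2 * (L : ℤ) - (z + ((σ + 2 * l : ℕ) : ℤ)) : ℤ) : ℝ) := by push_cast; exact p2.1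
      exact_mod_cast this
    · have : ((x + 2 * (L : ℤ) - (z + ((σ + 2 * l : ℕ) : ℤ)) : ℤ) : ℝ) ≤ ((2 * L : ℕ) : ℝ) := by push_cast; exact p2.2
      exact_mod_cast this
    · push_cast
      have e3 : c * vA μ 1 L * (2 * (L : ℝ)) = 2 * (c * wd μ L) := by rw [← hwl]; ring
      rw [e3, abs_le]
      constructor <;> linarith [hx.1, hx.2]

end

end Pool.Agent.W_7d29a1_NP
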